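import Pool.Agent.Helper69.MH.Rho

/-!
Asymptotics of the crossing exponents: `rho k / (k log 3) → 1`.
-/

namespace Pool.Agent.Helper69.MH

open Set Finset Filter Topology

/-- tail averaging -/
lemma tail_ge {r c : ℝ} {p : ℕ} {m : ℕ} (hm : p ≤ m)
    (h : ∀ i, p ≤ i → i < m → c ≤ sig i r) :
    (2 * (p : ℝ) - 1) ^ r - c * S p r ≤ (2 * (m : ℝ) - 1) ^ r - c * S m r := by
  induction m, hm using Nat.le_induction with
  | base => exact le_rfl
  | succ m hm ih =>
    have h1 := ih (fun i hi him => h i hi (by omega))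
    have h2 := h m hm (by omega)
    have h0 : 0 < ((m : ℝ) + 1) ^ r :=
      Real.rpow_pos_of_pos (by linarith [Nat.cast_nonneg (α := ℝ) m]) _
    rw [a_succ, S_succ]
    nlinarith

/-- a criterion for strict decrease. -/
lemma g_lt_criterion {r : ℝ} (hr : 1 < r) {p m : ℕ} (hp : 1 ≤ p) (hpm : p ≤ m)
    (h1 : 1 ≤ 3 * ((2 - 3 * (1 / ((p : ℝ) + 1))) / (2 - 1 / ((p : ℝ) + 1))) ^ (r - 1))
    (h2 : sig (m + 1) r * S p r < (sig m r - sig (m + 1) r) * ((m : ℝ) + 1) ^ r) :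
    g (m + 2) r < g (m + 1) r := by
  have hpR : (1 : ℝ) ≤ p := by exact_mod_cast hp
  have hp2 : 1 / ((p : ℝ) + 1) ≤ 1 / 2 := by
    apply one_div_le_one_div_of_le <;> linarith
  have hmono := D_strictMono hr hp2 h1
  have hsig : ∀ i, p ≤ i → i < m → sig (m + 1) r ≤ sig i r := by
    intro i hi him
    rw [sig_eq (by omega), sig_eq (by omega)]
    have hiR : (p : ℝ) ≤ i := by exact_mod_cast hi
    have himR : (i : ℝ) < m := by exact_mod_cast him
    have hx1 : 1 / (((m + 1 : ℕ) : ℝ) + 1) < 1 / ((i : ℝ) + 1) := by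
      push_cast
      apply one_div_lt_one_div_of_lt <;> linarith
    have hx2 : 1 / ((i : ℝ) + 1) ≤ 1 / ((p : ℝ) + 1) := by
      apply one_div_le_one_div_of_le <;> linarith
    exact (hmono (mem_Iic.mpr (by linarith)) (mem_Iic.mpr hx2) hx1).le
  have h3 := tail_ge (c := sig (m + 1) r) hpm hsig
  rw [show m + 2 = (m + 1) + 1 from rfl, g_lt_iff (by omega : 1 ≤ m + 1), a_succ, S_succ]
  have h4 : 0 < (2 * (p : ℝ) - 1) ^ r := Real.rpow_pos_of_pos (by linarith) _
  nlinarith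

/-- lower bound for the gap of consecutive slopes -/
lemma gap_ge {r : ℝ} (hr : 1 ≤ r) {m : ℕ} (hm : 1 ≤ m) :
    r * (1 / (((m : ℝ) + 1) * (m + 2))) * (2 - 1 / ((m : ℝ) + 2)) ^ (r - 1) *
      (3 * ((2 - 3 * (1 / ((m : ℝ) + 1))) / (2 - 1 / ((m : ℝ) + 2))) ^ (r - 1) - 1) ≤
      sig m r - sig (m + 1) r := by
  have hmR : (1 : ℝ) ≤ m := by exact_mod_cast hm
  rw [sig_eq hm, sig_eq (by omega)]
  push_cast
  have e12 : (m : ℝ) + 1 + 1 = m + 2 := by ring
  rw [e12]
  set x := 1 / ((m : ℝ) + 2) with hx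
  set y := 1 / ((m : ℝ) + 1) with hy
  have hy2 : y ≤ 1 / 2 := by
    rw [hy]; apply one_div_le_one_div_of_le <;> linarith
  have hxpos : 0 < x := by rw [hx]; positivity
  have hδ : y - x = 1 / (((m : ℝ) + 1) * (m + 2)) := by
    rw [hx, hy]; field_simp; norm_num
  have hxy : 0 < y - x := by rw [hδ]; positivity
  rw [← hδ]
  have hp1 : 0 < 2 - x := by linarith
  have hp2 : 0 < 2 - 3 * y := by linarith
  -- (2-y)^r ≥ (2-x)^r - r (y-x) (2-x)^(r-1)
  have B1 : (2 - x) ^ r - r * (y - x) * (2 - x) ^ (r - 1) ≤ (2 - y) ^ r := by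
    have hb := one_add_mul_self_le_rpow_one_add (s := -(y - x) / (2 - x))
      (by rw [le_div_iff₀ hp1]; linarith) hr
    have e1 : 1 + -(y - x) / (2 - x) = (2 - y) / (2 - x) := by field_simp; ring
    rw [e1, Real.div_rpow (by linarith) hp1.le, le_div_iff₀ (Real.rpow_pos_of_pos hp1 _)] at hb
    have e2 : (2 - x) ^ r = (2 - x) * (2 - x) ^ (r - 1) := by
      rw [← Real.rpow_one_add' hp1.le (by linarith)]; congr 1; ring
    have e3 : (1 + r * (-(y - x) / (2 - x))) * (2 - x) ^ r =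
        (2 - x) ^ r - r * (y - x) * (2 - x) ^ (r - 1) := by
      rw [e2]; field_simp; ring
    rw [e3] at hb
    exact hb
  have B2 : (2 - 3 * y) ^ r + r * (3 * (y - x)) * (2 - 3 * y) ^ (r - 1) ≤ (2 - 3 * x) ^ r := by
    have hb := one_add_mul_self_le_rpow_one_add (s := (3 * (y - x)) / (2 - 3 * y))
      (by rw [le_div_iff₀ hp2]; linarith) hr
    have e1 : 1 + (3 * (y - x)) / (2 - 3 * y) = (2 - 3 * x) / (2 - 3 * y) := by
      field_simp; ring
    rw [e1, Real.div_rpow (by linarith) hp2.le, le_div_iff₀ (Real.rpow_pos_of_pos hp2 _)] at hb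
    have e2 : (2 - 3 * y) ^ r = (2 - 3 * y) * (2 - 3 * y) ^ (r - 1) := by
      rw [← Real.rpow_one_add' hp2.le (by linarith)]; congr 1; ring
    have e3 : (1 + r * ((3 * (y - x)) / (2 - 3 * y))) * (2 - 3 * y) ^ r =
        (2 - 3 * y) ^ r + r * (3 * (y - x)) * (2 - 3 * y) ^ (r - 1) := by
      rw [e2]; field_simp
    rw [e3] at hb
    exact hb
  have e4 : r * (y - x) * (2 - x) ^ (r - 1) *
      (3 * ((2 - 3 * y) / (2 - x)) ^ (r - 1) - 1) =
      r * (3 * (y - x)) * (2 - 3 * y) ^ (r - 1) - r * (y - x) * (2 - x) ^ (r - 1) := by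
    rw [Real.div_rpow hp2.le hp1.le]
    have : (2 - x) ^ (r - 1) ≠ 0 := (Real.rpow_pos_of_pos hp1 _).ne'
    field_simp
  rw [e4]
  unfold D
  linarith

lemma sig_le {r : ℝ} {m : ℕ} :
    sig (m + 1) r ≤ 2 * (2 - 1 / ((m : ℝ) + 2)) ^ (r - 1) := by
  rw [sig_eq (by omega)]
  push_cast
  have e12 : (m : ℝ) + 1 + 1 = m + 2 := by ring
  rw [e12]
  set x := 1 / ((m : ℝ) + 2) with hx
  have hxpos : 0 < x := by rw [hx]; positivity
  have hm0 : (0 : ℝ) ≤ m := Nat.cast_nonneg m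
  have hx2 : x ≤ 1 / 2 := by
    rw [hx]; apply one_div_le_one_div_of_le <;> linarith
  have hp1 : 0 < 2 - x := by linarith
  have e2 : (2 - x) ^ r = (2 - x) * (2 - x) ^ (r - 1) := by
    have : (2 - x) * (2 - x) ^ (r - 1) = (2 - x) ^ (1 : ℝ) * (2 - x) ^ (r - 1) := by
      rw [Real.rpow_one]
    rw [this, ← Real.rpow_add hp1]; congr 1; ring
  have h3 : 0 ≤ (2 - 3 * x) ^ r := Real.rpow_nonneg (by linarith) _
  have h4 : 0 < (2 - x) ^ (r - 1) := Real.rpow_pos_of_pos hp1 _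
  unfold D
  rw [e2]
  nlinarith

/-- `(1-u)^s ≥ exp(-s u/(1-u))`. -/
lemma one_sub_rpow_ge {u s : ℝ} (hu1 : u < 1) (hs : 0 ≤ s) :
    Real.exp (-(s * (u / (1 - u)))) ≤ (1 - u) ^ s := by
  have h1 : 0 < 1 - u := by linarith
  rw [Real.rpow_def_of_pos h1]
  apply Real.exp_le_exp.mpr
  have h2 := Real.one_sub_inv_le_log_of_pos h1
  have h3 : 1 - (1 - u)⁻¹ = -(u / (1 - u)) := by field_simp; ring
  rw [h3] at h2
  nlinarith [mul_le_mul_of_nonneg_right h2 hs]

/-- deterministic version with explicit conditions. -/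
lemma asym_det {α α' : ℝ} (hα : 0 < α) (hαα' : α < α') (hα' : α' < Real.log 3) {m : ℕ}
    (hr : 1 < α * ((m : ℝ) + 1))
    (hP : 2 ≤ α / α' * ((m : ℝ) + 1))
    (hL1 : 2 * (α * ((m : ℝ) + 1)) / (2 * (α / α' * ((m : ℝ) + 1)) - 3) ≤ Real.log 3)
    (hL2 : α * ((m : ℝ) + 1) * ((2 * (m : ℝ) + 5) / ((2 * m - 1) * (m + 2))) ≤ α')
    (hL3 : ((m : ℝ) + 1) * (m + 2) * (α / α') ^ (α * ((m : ℝ) + 1)) <
      α * (3 * Real.exp (-α') - 1) / 2) :
    g (m + 2) (α * ((m : ℝ) + 1)) < g (m + 1) (α * ((m : ℝ) + 1)) := by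
  set r := α * ((m : ℝ) + 1) with hrdef
  set γ := α / α' with hγ
  have hα'0 : 0 < α' := by linarith
  have hγ0 : 0 < γ := div_pos hα hα'0
  have hγ1 : γ < 1 := by rw [hγ, div_lt_one hα'0]; exact hαα'
  have hmR : (1 : ℝ) < m := by nlinarith [Nat.cast_nonneg (α := ℝ) m]
  have hm1 : 1 < m := by exact_mod_cast hmR
  set p := ⌊γ * ((m : ℝ) + 1)⌋₊ with hp
  have hpnn : 0 ≤ γ * ((m : ℝ) + 1) := by positivity
  have hple : (p : ℝ) ≤ γ * ((m : ℝ) + 1) := Nat.floor_le hpnn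
  have hplt : γ * ((m : ℝ) + 1) < p + 1 := Nat.lt_floor_add_one _
  have hp1 : 1 ≤ p := by
    apply Nat.le_floor; push_cast; linarith
  have hpm : p ≤ m := by
    have : (p : ℝ) < m + 1 := by nlinarith
    have : p < m + 1 := by exact_mod_cast this
    omega
  have hp1R : (1 : ℝ) ≤ p := by exact_mod_cast hp1
  apply g_lt_criterion hr hp1 hpm
  · -- derivative condition
    have hp0 : (0 : ℝ) < (p : ℝ) + 1 := by linarith
    have e1 : (2 - 3 * (1 / ((p : ℝ) + 1))) / (2 - 1 / ((p : ℝ) + 1)) =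
        1 - 2 / (2 * (p : ℝ) + 1) := by
      have h3 : 2 - 1 / ((p : ℝ) + 1) = (2 * p + 1) / (p + 1) := by field_simp; ring
      have h4 : 2 - 3 * (1 / ((p : ℝ) + 1)) = (2 * p - 1) / (p + 1) := by field_simp; ring
      have h5 : (2 * (p : ℝ) + 1) ≠ 0 := by linarith
      rw [h3, h4]
      field_simp; ring
    rw [e1]
    have hu1 : 2 / (2 * (p : ℝ) + 1) < 1 := by
      rw [div_lt_one (by linarith)]; linarith
    have h2 := one_sub_rpow_ge hu1 (by linarith : (0 : ℝ) ≤ r - 1)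
    have e2 : 2 / (2 * (p : ℝ) + 1) / (1 - 2 / (2 * (p : ℝ) + 1)) = 2 / (2 * p - 1) := by
      have h5 : (2 * (p : ℝ) + 1) ≠ 0 := by linarith
      have h6 : (2 * (p : ℝ) - 1) ≠ 0 := by linarith
      have h7 : 1 - 2 / (2 * (p : ℝ) + 1) = (2 * p - 1) / (2 * p + 1) := by field_simp; ring
      rw [h7]; field_simp
    rw [e2] at h2
    have h3 : (r - 1) * (2 / (2 * (p : ℝ) - 1)) ≤ Real.log 3 := by
      refine le_trans ?_ hL1
      have h8 : (0 : ℝ) < 2 * (γ * ((m : ℝ) + 1)) - 3 := by linarith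
      rw [mul_div_assoc']
      apply div_le_div₀ (by linarith) _ h8 (by linarith)
      nlinarith
    have h4 : (1 : ℝ) / 3 ≤ Real.exp (-((r - 1) * (2 / (2 * (p : ℝ) - 1)))) := by
      calc (1 : ℝ) / 3 = Real.exp (- Real.log 3) := by
            rw [Real.exp_neg, Real.exp_log (by norm_num)]; norm_num
        _ ≤ _ := Real.exp_le_exp.mpr (by linarith)
    linarith
  · -- main comparison
    have hgap := gap_ge hr.le hm1.le
    have hsig := sig_le (r := r) (m := m)
    have hSp : S p r ≤ (γ * ((m : ℝ) + 1)) * (γ ^ r * ((m : ℝ) + 1) ^ r) := by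
      have h1 : S p r ≤ p * (p : ℝ) ^ r := by
        unfold S
        calc ∑ i ∈ Finset.Icc 1 p, (i : ℝ) ^ r ≤ ∑ i ∈ Finset.Icc 1 p, (p : ℝ) ^ r := by
              apply Finset.sum_le_sum
              intro i hi
              have := (Finset.mem_Icc.mp hi).2
              exact Real.rpow_le_rpow (Nat.cast_nonneg i) (by exact_mod_cast this) (by linarith)
          _ = p * (p : ℝ) ^ r := by simp
      have h2 : (p : ℝ) ^ r ≤ γ ^ r * ((m : ℝ) + 1) ^ r := by
        rw [← Real.mul_rpow hγ0.le (by linarith)]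
        exact Real.rpow_le_rpow (by linarith) hple (by linarith)
      calc S p r ≤ p * (p : ℝ) ^ r := h1
        _ ≤ _ := mul_le_mul hple h2 (Real.rpow_nonneg (by linarith) _) hpnn
    set W := (2 - 1 / ((m : ℝ) + 2)) ^ (r - 1) with hW
    have hx2 : 1 / ((m : ℝ) + 2) < 1 := by
      rw [div_lt_one (by linarith)]; linarith
    have hWpos : 0 < W := Real.rpow_pos_of_pos (by linarith) _
    set M := ((m : ℝ) + 1) ^ r with hM
    have hMpos : 0 < M := Real.rpow_pos_of_pos (by linarith) _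
    have hSpp : 0 < S p r := S_pos hp1 r
    -- the factor
    have e1 : (2 - 3 * (1 / ((m : ℝ) + 1))) / (2 - 1 / ((m : ℝ) + 2)) =
        1 - (2 * (m : ℝ) + 5) / ((m + 1) * (2 * m + 3)) := by
      have h3 : 2 - 1 / ((m : ℝ) + 2) = (2 * m + 3) / (m + 2) := by field_simp; ring
      have h4 : 2 - 3 * (1 / ((m : ℝ) + 1)) = (2 * m - 1) / (m + 1) := by field_simp; ring
      have h5 : (2 * (m : ℝ) + 3) ≠ 0 := by linarith
      rw [h3, h4]
      field_simp; ring
    have hu1 : (2 * (m : ℝ) + 5) / ((m + 1) * (2 * m + 3)) < 1 := by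
      rw [div_lt_one (by nlinarith)]; nlinarith
    have h2 := one_sub_rpow_ge hu1 (by linarith : (0 : ℝ) ≤ r - 1)
    have e2 : (2 * (m : ℝ) + 5) / ((m + 1) * (2 * m + 3)) /
        (1 - (2 * (m : ℝ) + 5) / ((m + 1) * (2 * m + 3))) =
        (2 * (m : ℝ) + 5) / ((2 * m - 1) * (m + 2)) := by
      have h5 : (2 * (m : ℝ) + 3) ≠ 0 := by linarith
      have h6 : (2 * (m : ℝ) - 1) ≠ 0 := by linarith
      have h7 : 1 - (2 * (m : ℝ) + 5) / ((m + 1) * (2 * m + 3)) =
          ((2 * m - 1) * (m + 2)) / ((m + 1) * (2 * m + 3)) := by field_simp; ring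
      rw [h7]
      field_simp
    rw [e2] at h2
    have h3 : (r - 1) * ((2 * (m : ℝ) + 5) / ((2 * m - 1) * (m + 2))) ≤ α' := by
      refine le_trans ?_ hL2
      apply mul_le_mul_of_nonneg_right (by linarith)
      apply div_nonneg (by linarith) (mul_nonneg (by linarith) (by linarith))
    have h4 : Real.exp (-α') ≤
        (1 - (2 * (m : ℝ) + 5) / ((m + 1) * (2 * m + 3))) ^ (r - 1) :=
      le_trans (Real.exp_le_exp.mpr (by linarith)) h2
    rw [e1] at hgap
    have hc : 0 < 3 * Real.exp (-α') - 1 := by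
      have : Real.exp (- Real.log 3) < Real.exp (-α') := Real.exp_lt_exp.mpr (by linarith)
      rw [Real.exp_neg, Real.exp_log (by norm_num)] at this
      linarith
    -- gap ≥ α/(m+2) * W * c
    have hgap2 : α / ((m : ℝ) + 2) * W * (3 * Real.exp (-α') - 1) ≤ sig m r - sig (m + 1) r := by
      refine le_trans ?_ hgap
      have e3 : r * (1 / (((m : ℝ) + 1) * (m + 2))) = α / ((m : ℝ) + 2) := by
        rw [hrdef]; field_simp
      rw [e3]
      apply mul_le_mul_of_nonneg_left (by linarith)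
      positivity
    -- combine
    have hfinal : 2 * W * ((γ * ((m : ℝ) + 1)) * (γ ^ r * M)) <
        α / ((m : ℝ) + 2) * W * (3 * Real.exp (-α') - 1) * M := by
      have hγr : 0 < γ ^ r := Real.rpow_pos_of_pos hγ0 _
      have h5 : γ * ((m : ℝ) + 1) * γ ^ r < α / ((m : ℝ) + 2) * (3 * Real.exp (-α') - 1) / 2 := by
        have h6 : γ * ((m : ℝ) + 1) * γ ^ r ≤ ((m : ℝ) + 1) * γ ^ r := by
          have : 0 ≤ ((m : ℝ) + 1) * γ ^ r := by positivity
          nlinarith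
        have h7 : ((m : ℝ) + 1) * γ ^ r < α / ((m : ℝ) + 2) * (3 * Real.exp (-α') - 1) / 2 := by
          have e5 : α / ((m : ℝ) + 2) * (3 * Real.exp (-α') - 1) / 2 =
              (α * (3 * Real.exp (-α') - 1) / 2) / ((m : ℝ) + 2) := by ring
          rw [e5, lt_div_iff₀ (by linarith)]
          calc ((m : ℝ) + 1) * γ ^ r * ((m : ℝ) + 2) = ((m : ℝ) + 1) * (m + 2) * γ ^ r := by ring
            _ < _ := hL3
        linarith
      have h8 : 0 < 2 * W * M := by positivity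
      calc 2 * W * ((γ * ((m : ℝ) + 1)) * (γ ^ r * M)) =
          (2 * W * M) * (γ * ((m : ℝ) + 1) * γ ^ r) := by ring
        _ < (2 * W * M) * (α / ((m : ℝ) + 2) * (3 * Real.exp (-α') - 1) / 2) :=
            mul_lt_mul_of_pos_left h5 h8
        _ = _ := by ring
    calc sig (m + 1) r * S p r ≤ (2 * W) * ((γ * ((m : ℝ) + 1)) * (γ ^ r * M)) :=
          mul_le_mul hsig hSp hSpp.le (by positivity)
      _ < α / ((m : ℝ) + 2) * W * (3 * Real.exp (-α') - 1) * M := hfinal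
      _ ≤ (sig m r - sig (m + 1) r) * M := mul_le_mul_of_nonneg_right hgap2 hMpos.le

lemma eventually_ge_real (c : ℝ) : ∀ᶠ m : ℕ in atTop, c ≤ (m : ℝ) :=
  tendsto_natCast_atTop_atTop.eventually_ge_atTop c

lemma asym_event {α α' : ℝ} (hα : 0 < α) (hαα' : α < α') (hα' : α' < Real.log 3) :
    ∀ᶠ m : ℕ in atTop, α * ((m : ℝ) + 1) < rho (m + 1) := by
  have hα'0 : 0 < α' := by linarith
  set γ := α / α' with hγ
  have hγ0 : 0 < γ := div_pos hα hα'0
  have hγ1 : γ < 1 := by rw [hγ, div_lt_one hα'0]; exact hαα'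
  have hc : 0 < 3 * Real.exp (-α') - 1 := by
    have : Real.exp (- Real.log 3) < Real.exp (-α') := Real.exp_lt_exp.mpr (by linarith)
    rw [Real.exp_neg, Real.exp_log (by norm_num)] at this
    linarith
  have hγα : γ ^ α < 1 := Real.rpow_lt_one hγ0.le hγ1 hα
  have hγα0 : 0 < γ ^ α := Real.rpow_pos_of_pos hγ0 _
  have h1 := eventually_ge_real (2 / α)
  have h2 := eventually_ge_real (2 / γ)
  have h3 := eventually_ge_real (3 * Real.log 3 / (2 * γ * (Real.log 3 - α')))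
  have h4 := eventually_ge_real (7 * α' / (α' - α))
  have h5 := eventually_ge_real 2
  have h6 : Tendsto (fun n : ℕ => (n : ℝ) ^ 2 * (γ ^ α) ^ n) atTop (𝓝 0) :=
    tendsto_pow_const_mul_const_pow_of_lt_one 2 hγα0.le hγα
  have h7 : Tendsto (fun m : ℕ => ((m + 1 : ℕ) : ℝ) ^ 2 * (γ ^ α) ^ (m + 1)) atTop (𝓝 0) :=
    h6.comp (tendsto_add_atTop_nat 1)
  have h8 : ∀ᶠ m : ℕ in atTop, ((m + 1 : ℕ) : ℝ) ^ 2 * (γ ^ α) ^ (m + 1) <
      α * (3 * Real.exp (-α') - 1) / 4 :=
    h7.eventually_lt_const (by positivity)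
  filter_upwards [h1, h2, h3, h4, h5, h8] with m h1 h2 h3 h4 h5 h8
  have hl3 := log_three_pos
  have hrpos : 1 < α * ((m : ℝ) + 1) := by
    rw [div_le_iff₀ hα] at h1
    linarith
  have hPpos : 2 ≤ γ * ((m : ℝ) + 1) := by
    rw [div_le_iff₀ hγ0] at h2
    linarith
  have hlt : g (m + 2) (α * ((m : ℝ) + 1)) < g (m + 1) (α * ((m : ℝ) + 1)) := by
    apply asym_det hα hαα' hα' hrpos hPpos
    · rw [← hγ, div_le_iff₀ (by linarith)]
      rw [div_le_iff₀ (mul_pos (by positivity) (by linarith))] at h3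
      have e1 : α = γ * α' := by rw [hγ]; field_simp
      have h9 : 0 < γ * (Real.log 3 - α') := mul_pos hγ0 (by linarith)
      nlinarith
    · have h9 : (0 : ℝ) < (2 * m - 1) * (m + 2) := mul_pos (by linarith) (by linarith)
      rw [mul_div_assoc', div_le_iff₀ h9]
      rw [div_le_iff₀ (by linarith)] at h4
      nlinarith
    · have e2 : γ ^ (α * ((m : ℝ) + 1)) = (γ ^ α) ^ (m + 1) := by
        rw [Real.rpow_mul hγ0.le, ← Real.rpow_natCast]
        push_cast; rfl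
      rw [← hγ, e2]
      push_cast at h8
      have h9 : 0 < (γ ^ α) ^ (m + 1) := pow_pos hγα0 _
      have h10 : ((m : ℝ) + 1) * (m + 2) ≤ 2 * ((m : ℝ) + 1) ^ 2 := by nlinarith
      have h11 : ((m : ℝ) + 1) * (m + 2) * (γ ^ α) ^ (m + 1) ≤
          2 * ((m : ℝ) + 1) ^ 2 * (γ ^ α) ^ (m + 1) := mul_le_mul_of_nonneg_right h10 h9.le
      linarith
  by_contra hle
  push Not at hle
  rcases eq_or_lt_of_le hle with h | h
  · have := g_rho (k := m + 1) (by omega)
    rw [h] at this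
    have h' : g (m + 1 + 1) (α * ((m : ℝ) + 1)) = g (m + 2) (α * ((m : ℝ) + 1)) := rfl
    linarith
  · have := g_lt_of_gt_rho (k := m + 1) (by omega) h
    have h' : g (m + 1 + 1) (α * ((m : ℝ) + 1)) = g (m + 2) (α * ((m : ℝ) + 1)) := rfl
    linarith

/-- The asymptotic law of the crossing exponents. -/
theorem tendsto_rho : Tendsto (fun k : ℕ => rho k / (k * Real.log 3)) atTop (𝓝 1) := by
  have hl3 := log_three_pos
  rw [tendsto_order]
  constructor
  · intro a ha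
    set a' := max a (1 / 2) with ha'
    have ha'1 : a' < 1 := max_lt ha (by norm_num)
    have ha'0 : 0 < a' := lt_of_lt_of_le (by norm_num) (le_max_right _ _)
    have h1 : 0 < a' * Real.log 3 := mul_pos ha'0 hl3
    have h2 : a' * Real.log 3 < Real.log 3 := by nlinarith
    have h3 := asym_event h1 (α' := (a' * Real.log 3 + Real.log 3) / 2) (by linarith) (by linarith)
    obtain ⟨N, hN⟩ := eventually_atTop.mp h3
    refine eventually_atTop.mpr ⟨N + 1, fun k hk => ?_⟩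
    obtain ⟨m, rfl⟩ : ∃ m, k = m + 1 := ⟨k - 1, by omega⟩
    have h4 := hN m (by omega)
    have h5 : (0 : ℝ) < ((m + 1 : ℕ) : ℝ) * Real.log 3 := by positivity
    refine lt_of_le_of_lt (le_max_left a (1 / 2)) ?_
    rw [← ha', lt_div_iff₀ h5]
    push_cast
    linarith
  · intro b hb
    have h1 := eventually_ge_real (2 / ((b - 1) * Real.log 3))
    have h2 := eventually_ge_real 1
    filter_upwards [h1, h2] with k h1 h2
    have hk : 1 ≤ k := by exact_mod_cast h2
    have h5 : (0 : ℝ) < (k : ℝ) * Real.log 3 := mul_pos (by linarith) hl3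
    rw [div_lt_iff₀ h5]
    have h6 : 0 < (b - 1) * Real.log 3 := mul_pos (by linarith) hl3
    rw [div_le_iff₀ h6] at h1
    have := rho_le hk
    nlinarith

theorem tendsto_rho_atTop : Tendsto rho atTop atTop := by
  have hl3 := log_three_pos
  have h1 := tendsto_rho
  have h2 : Tendsto (fun k : ℕ => (k : ℝ) * Real.log 3) atTop atTop :=
    tendsto_natCast_atTop_atTop.atTop_mul_const hl3
  have h3 := h1.pos_mul_atTop one_pos h2
  refine h3.congr' ?_
  filter_upwards [eventually_ge_real 1] with k hk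
  have : (k : ℝ) * Real.log 3 ≠ 0 := (mul_pos (by linarith) hl3).ne'
  field_simp

end Pool.Agent.Helper69.MH
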