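import Mathlib

/-!
Basic facts on the power sums `S k r = 1^r + ... + k^r`.
-/

namespace Pool.Agent.Helper69.MH

open Finset

/-- The power sum `S(k;r) = ∑_{i=1}^k i^r`. -/
noncomputable def S (k : ℕ) (r : ℝ) : ℝ := ∑ i ∈ Finset.Icc 1 k, (i : ℝ) ^ r

/-- The function `g(k;r) = (2k-1)^r / S(k;r)`. -/
noncomputable def g (k : ℕ) (r : ℝ) : ℝ := (2 * (k : ℝ) - 1) ^ r / S k r

lemma S_zero (r : ℝ) : S 0 r = 0 := by simp [S]

lemma S_succ (k : ℕ) (r : ℝ) : S (k + 1) r = S k r + ((k : ℝ) + 1) ^ r := by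
  unfold S
  rw [Finset.sum_Icc_succ_top (by omega)]
  push_cast
  rfl

lemma S_one (r : ℝ) : S 1 r = 1 := by
  rw [S_succ 0 r, S_zero]; simp

lemma S_nonneg (k : ℕ) (r : ℝ) : 0 ≤ S k r :=
  Finset.sum_nonneg fun i _ => Real.rpow_nonneg (Nat.cast_nonneg i) r

lemma S_pos {k : ℕ} (hk : 1 ≤ k) (r : ℝ) : 0 < S k r := by
  obtain ⟨m, rfl⟩ : ∃ m, k = m + 1 := ⟨k - 1, by omega⟩
  rw [S_succ]
  have h1 : 0 < ((m : ℝ) + 1) ^ r := Real.rpow_pos_of_pos (by positivity) r
  linarith [S_nonneg m r]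

lemma S_two (r : ℝ) : S 2 r = 1 + 2 ^ r := by
  rw [S_succ 1 r, S_one]; norm_num

lemma S_three (r : ℝ) : S 3 r = 1 + 2 ^ r + 3 ^ r := by
  rw [S_succ 2 r, S_two]; norm_num

lemma S_four (r : ℝ) : S 4 r = 1 + 2 ^ r + 3 ^ r + 4 ^ r := by
  rw [S_succ 3 r, S_three]; norm_num

lemma two_k_sub_one_pos {k : ℕ} (hk : 1 ≤ k) : 0 < 2 * (k : ℝ) - 1 := by
  have : (1 : ℝ) ≤ k := by exact_mod_cast hk
  linarith

lemma g_pos {k : ℕ} (hk : 1 ≤ k) (r : ℝ) : 0 < g k r :=
  div_pos (Real.rpow_pos_of_pos (two_k_sub_one_pos hk) r) (S_pos hk r)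

/-- Hölder / log-convexity of `S k` in the exponent. -/
lemma S_logconvex {k : ℕ} (hk : 1 ≤ k) (a b t : ℝ) (ht0 : 0 ≤ t) (ht1 : t ≤ 1) :
    S k ((1 - t) * a + t * b) ≤ (S k a) ^ (1 - t) * (S k b) ^ t := by
  have hA := S_pos hk a
  have hB := S_pos hk b
  have key : ∀ i ∈ Finset.Icc 1 k, (i : ℝ) ^ ((1 - t) * a + t * b) ≤
      ((S k a) ^ (1 - t) * (S k b) ^ t) *
        ((1 - t) * ((i : ℝ) ^ a / S k a) + t * ((i : ℝ) ^ b / S k b)) := by
    intro i hi
    have hi1 : 1 ≤ i := (Finset.mem_Icc.mp hi).1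
    have hi0 : (0 : ℝ) < i := by exact_mod_cast hi1
    have h1 : (i : ℝ) ^ ((1 - t) * a + t * b) =
        ((S k a) ^ (1 - t) * (S k b) ^ t) *
          (((i : ℝ) ^ a / S k a) ^ (1 - t) * ((i : ℝ) ^ b / S k b) ^ t) := by
      rw [Real.div_rpow (Real.rpow_nonneg hi0.le _) hA.le,
        Real.div_rpow (Real.rpow_nonneg hi0.le _) hB.le,
        ← Real.rpow_mul hi0.le, ← Real.rpow_mul hi0.le, Real.rpow_add hi0]
      have h2 : (S k a) ^ (1 - t) ≠ 0 := (Real.rpow_pos_of_pos hA _).ne'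
      have h3 : (S k b) ^ t ≠ 0 := (Real.rpow_pos_of_pos hB _).ne'
      rw [mul_comm (1 - t) a, mul_comm t b]
      field_simp
    rw [h1]
    apply mul_le_mul_of_nonneg_left
    · exact Real.geom_mean_le_arith_mean2_weighted (by linarith) ht0
        (div_nonneg (Real.rpow_nonneg hi0.le _) hA.le)
        (div_nonneg (Real.rpow_nonneg hi0.le _) hB.le) (by ring)
    · exact mul_nonneg (Real.rpow_nonneg hA.le _) (Real.rpow_nonneg hB.le _)
  calc S k ((1 - t) * a + t * b)
      ≤ ∑ i ∈ Finset.Icc 1 k, ((S k a) ^ (1 - t) * (S k b) ^ t) *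
        ((1 - t) * ((i : ℝ) ^ a / S k a) + t * ((i : ℝ) ^ b / S k b)) :=
        Finset.sum_le_sum key
    _ = (S k a) ^ (1 - t) * (S k b) ^ t := by
        rw [← Finset.mul_sum, Finset.sum_add_distrib, ← Finset.mul_sum, ← Finset.mul_sum,
          ← Finset.sum_div, ← Finset.sum_div]
        have e1 : (∑ i ∈ Finset.Icc 1 k, (i : ℝ) ^ a) = S k a := rfl
        have e2 : (∑ i ∈ Finset.Icc 1 k, (i : ℝ) ^ b) = S k b := rfl
        rw [e1, e2, div_self hA.ne', div_self hB.ne']
        ring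

/-- the comparison function `(2r/(r+1))^r` -/
noncomputable def base (r : ℝ) : ℝ := (2 * r / (r + 1)) ^ r

lemma base_pos {r : ℝ} (hr : 0 < r) : 0 < base r :=
  Real.rpow_pos_of_pos (by positivity) r

/-- log-convexity of `base`. -/
lemma base_logconvex {a b t : ℝ} (ha : 0 < a) (hb : 0 < b) (ht0 : 0 ≤ t) (ht1 : t ≤ 1) :
    base ((1 - t) * a + t * b) ≤ (base a) ^ (1 - t) * (base b) ^ t := by
  set r := (1 - t) * a + t * b with hr
  have hr0 : 0 < r := by
    rcases eq_or_lt_of_le ht0 with h | h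
    · rw [hr, ← h]; simpa using ha
    · have : 0 ≤ (1 - t) * a := mul_nonneg (by linarith) ha.le
      have : 0 < t * b := mul_pos h hb
      linarith
  -- weighted AM-GM with weights (1-t)a/r, tb/r
  have hw1 : 0 ≤ (1 - t) * a / r := div_nonneg (mul_nonneg (by linarith) ha.le) hr0.le
  have hw2 : 0 ≤ t * b / r := div_nonneg (mul_nonneg ht0 hb.le) hr0.le
  have hw : (1 - t) * a / r + t * b / r = 1 := by
    rw [← add_div, ← hr, div_self hr0.ne']
  have hp1 : 0 < (a + 1) / (2 * a) := by positivity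
  have hp2 : 0 < (b + 1) / (2 * b) := by positivity
  have amgm := Real.geom_mean_le_arith_mean2_weighted hw1 hw2 hp1.le hp2.le hw
  have e : (1 - t) * a / r * ((a + 1) / (2 * a)) + t * b / r * ((b + 1) / (2 * b)) =
      (r + 1) / (2 * r) := by
    have h1 : (1 - t) * a / r * ((a + 1) / (2 * a)) = (1 - t) * (a + 1) / (2 * r) := by
      field_simp
    have h2 : t * b / r * ((b + 1) / (2 * b)) = t * (b + 1) / (2 * r) := by
      field_simp
    rw [h1, h2, ← add_div]
    congr 1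
    rw [hr]; ring
  rw [e] at amgm
  -- raise to the power r
  have h3 := Real.rpow_le_rpow (by positivity) amgm hr0.le
  rw [Real.mul_rpow (by positivity) (by positivity), ← Real.rpow_mul hp1.le,
    ← Real.rpow_mul hp2.le] at h3
  have e1 : (1 - t) * a / r * r = a * (1 - t) := by field_simp
  have e2 : t * b / r * r = b * t := by field_simp
  rw [e1, e2, Real.rpow_mul hp1.le, Real.rpow_mul hp2.le] at h3
  -- invert
  have inv_a : ((a + 1) / (2 * a)) ^ a = (base a)⁻¹ := by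
    unfold base
    rw [← Real.inv_rpow (by positivity), inv_div]
  have inv_b : ((b + 1) / (2 * b)) ^ b = (base b)⁻¹ := by
    unfold base
    rw [← Real.inv_rpow (by positivity), inv_div]
  have inv_r : ((r + 1) / (2 * r)) ^ r = (base r)⁻¹ := by
    unfold base
    rw [← Real.inv_rpow (by positivity), inv_div]
  rw [inv_a, inv_b, inv_r, Real.inv_rpow (base_pos ha).le, Real.inv_rpow (base_pos hb).le,
    ← mul_inv] at h3
  have hpos : 0 < (base a) ^ (1 - t) * (base b) ^ t :=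
    mul_pos (Real.rpow_pos_of_pos (base_pos ha) _) (Real.rpow_pos_of_pos (base_pos hb) _)
  exact (inv_le_inv₀ hpos (base_pos hr0)).mp h3

/-- Interpolation lemma: a bound `C * S j * base ≤ (2j-1)^r` at two exponents gives it (with
interpolated constant) in between. -/
lemma interp {j : ℕ} (hj : 1 ≤ j) {a b C D : ℝ} (ha : 0 < a) (hab : a ≤ b) (hC : 0 < C)
    (hD : 0 < D)
    (h1 : C * (S j a * base a) ≤ (2 * (j : ℝ) - 1) ^ a)
    (h2 : D * (S j b * base b) ≤ (2 * (j : ℝ) - 1) ^ b) {t : ℝ} (ht0 : 0 ≤ t) (ht1 : t ≤ 1) :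
    (C ^ (1 - t) * D ^ t) * (S j ((1 - t) * a + t * b) * base ((1 - t) * a + t * b)) ≤
      (2 * (j : ℝ) - 1) ^ ((1 - t) * a + t * b) := by
  have hb : 0 < b := lt_of_lt_of_le ha hab
  have hy := two_k_sub_one_pos hj
  have hSa := S_pos hj a
  have hSb := S_pos hj b
  have hba := base_pos ha
  have hbb := base_pos hb
  have hr0 : 0 < (1 - t) * a + t * b := by nlinarith
  calc (C ^ (1 - t) * D ^ t) * (S j ((1 - t) * a + t * b) * base ((1 - t) * a + t * b))
      ≤ (C ^ (1 - t) * D ^ t) * (((S j a) ^ (1 - t) * (S j b) ^ t) *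
          ((base a) ^ (1 - t) * (base b) ^ t)) := by
        apply mul_le_mul_of_nonneg_left _ (by positivity)
        apply mul_le_mul (S_logconvex hj a b t ht0 ht1) (base_logconvex ha hb ht0 ht1)
          (base_pos hr0).le (by positivity)
    _ = (C * (S j a * base a)) ^ (1 - t) * (D * (S j b * base b)) ^ t := by
        rw [Real.mul_rpow hC.le (by positivity), Real.mul_rpow hSa.le hba.le,
          Real.mul_rpow hD.le (by positivity), Real.mul_rpow hSb.le hbb.le]
        ring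
    _ ≤ ((2 * (j : ℝ) - 1) ^ a) ^ (1 - t) * ((2 * (j : ℝ) - 1) ^ b) ^ t := by
        apply mul_le_mul
        · exact Real.rpow_le_rpow (by positivity) h1 (by linarith)
        · exact Real.rpow_le_rpow (by positivity) h2 ht0
        · positivity
        · positivity
    _ = (2 * (j : ℝ) - 1) ^ ((1 - t) * a + t * b) := by
        rw [← Real.rpow_mul hy.le, ← Real.rpow_mul hy.le, ← Real.rpow_add hy]
        congr 1; ring

lemma interp' {j : ℕ} (hj : 1 ≤ j) {a b C r : ℝ} (ha : 0 < a) (hC : 0 < C)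
    (h1 : C * (S j a * base a) ≤ (2 * (j : ℝ) - 1) ^ a)
    (h2 : C * (S j b * base b) ≤ (2 * (j : ℝ) - 1) ^ b) (har : a ≤ r) (hrb : r ≤ b) :
    C * base r ≤ g j r := by
  have hgoal : C * (S j r * base r) ≤ (2 * (j : ℝ) - 1) ^ r := by
    rcases eq_or_lt_of_le (har.trans hrb) with h | h
    · have : r = a := le_antisymm (by linarith) har
      rw [this]; exact h1
    · set t := (r - a) / (b - a) with ht
      have hba : 0 < b - a := by linarith
      have ht0 : 0 ≤ t := div_nonneg (by linarith) hba.le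
      have ht1 : t ≤ 1 := by rw [ht, div_le_one hba]; linarith
      have e : (1 - t) * a + t * b = r := by
        rw [ht]; field_simp; ring
      have := interp hj ha h.le hC hC h1 h2 ht0 ht1
      rw [e, ← Real.rpow_add hC] at this
      simpa using this
  unfold g
  rw [le_div_iff₀ (S_pos hj r)]
  linarith [hgoal]

end Pool.Agent.Helper69.MH
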