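import Pool.Agent.Helper69.MH.Basic

/-!
The stationary random-walk Metropolis-Hastings chain on `ℤ` and the constant `s(r)`.
-/

namespace Pool.Agent.Helper69.MH

open scoped ENNReal
open Filter Topology

/-- A target: symmetric, unimodal, nondegenerate probability mass function on `ℤ`. -/
structure IsTarget (π : PMF ℤ) : Prop where
  symm : ∀ x : ℤ, π (-x) = π x
  unimodal : ∀ x y : ℤ, |x| ≤ |y| → π y ≤ π x
  nondegenerate : π ≠ PMF.pure 0

/-- A proposal step distribution: symmetric pmf on `ℤ` vanishing on the even integers. -/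
structure IsProposal (φ : PMF ℤ) : Prop where
  symm : ∀ z : ℤ, φ (-z) = φ z
  even_zero : ∀ z : ℤ, Even z → φ z = 0

/-- A coin showing `true` with probability `p`. -/
noncomputable def coin (p : ℝ≥0∞) (h : p ≤ 1) : PMF Bool :=
  PMF.ofFintype (fun b => if b then p else 1 - p) (by simp [add_tsub_cancel_of_le h])

/-- The joint law of `(X₀, X₁)`: draw `X₀ = x` from `π`, draw a step `z` from `φ`, accept the
proposal `x + z` with probability `min (1, π (x + z) / π x)`, otherwise stay at `x`. -/
noncomputable def mhStep (π φ : PMF ℤ) : PMF (ℤ × ℤ) :=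
  π.bind fun x => φ.bind fun z =>
    (coin (min 1 (π (x + z) / π x)) (min_le_left _ _)).bind fun acc =>
      PMF.pure (x, if acc then x + z else x)

/-- Expectation of a nonnegative function under a pmf. -/
noncomputable def expect {α : Type*} (p : PMF α) (F : α → ℝ≥0∞) : ℝ≥0∞ := ∑' a, p a * F a

/-- `E |X₀|^r`. -/
noncomputable def targetMoment (π : PMF ℤ) (r : ℝ) : ℝ≥0∞ :=
  expect π fun x => ENNReal.ofReal (|(x : ℝ)| ^ r)

/-- `E |X₁ - X₀|^r`. -/
noncomputable def jumpMoment (π φ : PMF ℤ) (r : ℝ) : ℝ≥0∞ :=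
  expect (mhStep π φ) fun p => ENNReal.ofReal (|(p.2 : ℝ) - (p.1 : ℝ)| ^ r)

/-- The constant `s(r)`. -/
noncomputable def s (r : ℝ) : ℝ≥0∞ :=
  ⨆ (π : PMF ℤ) (φ : PMF ℤ) (_ : IsTarget π) (_ : IsProposal φ) (_ : targetMoment π r < ⊤),
    jumpMoment π φ r / targetMoment π r

lemma expect_bind {α β : Type*} (p : PMF α) (q : α → PMF β) (F : β → ℝ≥0∞) :
    expect (p.bind q) F = expect p fun a => expect (q a) F := by
  unfold expect
  simp only [PMF.bind_apply, ← ENNReal.tsum_mul_right, ← ENNReal.tsum_mul_left]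
  rw [ENNReal.tsum_comm]
  refine tsum_congr fun a => tsum_congr fun b => ?_
  ring

lemma expect_pure {α : Type*} (a : α) (F : α → ℝ≥0∞) : expect (PMF.pure a) F = F a := by
  classical
  unfold expect
  rw [tsum_eq_single a]
  · simp
  · intro b hb
    simp [PMF.pure_apply_of_ne _ _ hb]

lemma expect_coin (p : ℝ≥0∞) (h : p ≤ 1) (F : Bool → ℝ≥0∞) :
    expect (coin p h) F = p * F true + (1 - p) * F false := by
  unfold expect coin
  rw [tsum_fintype]
  simp

lemma expect_mono {α : Type*} (p : PMF α) {F G : α → ℝ≥0∞} (h : ∀ a, p a ≠ 0 → F a ≤ G a) :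
    expect p F ≤ expect p G := by
  unfold expect
  refine ENNReal.tsum_le_tsum fun a => ?_
  by_cases ha : p a = 0
  · simp [ha]
  · exact mul_le_mul_right (h a ha) _

lemma expect_congr {α : Type*} (p : PMF α) {F G : α → ℝ≥0∞} (h : ∀ a, p a ≠ 0 → F a = G a) :
    expect p F = expect p G :=
  le_antisymm (expect_mono p fun a ha => (h a ha).le) (expect_mono p fun a ha => (h a ha).ge)

lemma expect_const {α : Type*} (p : PMF α) (c : ℝ≥0∞) : expect p (fun _ => c) = c := by
  unfold expect
  rw [ENNReal.tsum_mul_right, p.tsum_coe, one_mul]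

lemma mul_min_one_div {a b : ℝ≥0∞} (ha : a ≠ ⊤) : a * min 1 (b / a) = min a b := by
  rcases eq_or_ne a 0 with h | h
  · simp [h]
  · rw [mul_min, mul_one, ENNReal.mul_div_cancel h ha]

/-- formula for the jump moment -/
lemma jumpMoment_eq (π φ : PMF ℤ) {r : ℝ} (hr : 0 < r) :
    jumpMoment π φ r =
      expect φ fun z => ENNReal.ofReal (|(z : ℝ)| ^ r) * ∑' x : ℤ, min (π x) (π (x + z)) := by
  unfold jumpMoment mhStep
  rw [expect_bind]
  have h1 : ∀ x : ℤ, expect (φ.bind fun z =>
      (coin (min 1 (π (x + z) / π x)) (min_le_left _ _)).bind fun acc =>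
        PMF.pure (x, if acc then x + z else x))
      (fun p : ℤ × ℤ => ENNReal.ofReal (|(p.2 : ℝ) - (p.1 : ℝ)| ^ r)) =
      expect φ fun z => min 1 (π (x + z) / π x) * ENNReal.ofReal (|(z : ℝ)| ^ r) := by
    intro x
    rw [expect_bind]
    refine expect_congr _ fun z _ => ?_
    rw [expect_bind, expect_coin]
    simp only [expect_pure, if_true, Bool.false_eq_true, if_false]
    have e1 : ((x + z : ℤ) : ℝ) - (x : ℝ) = z := by push_cast; ring
    rw [e1, sub_self, abs_zero, Real.zero_rpow hr.ne', ENNReal.ofReal_zero, mul_zero, add_zero]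
  simp only [h1]
  unfold expect
  simp only [← ENNReal.tsum_mul_left]
  rw [ENNReal.tsum_comm]
  refine tsum_congr fun z => tsum_congr fun x => ?_
  rw [← mul_min_one_div (PMF.apply_ne_top π x)]
  ring

end Pool.Agent.Helper69.MH
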