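import Pool.Agent.Helper69.MH.ChainUpper

/-!
Lower bound for `s(r)`: uniform targets and steps `±(2k-1)`.
-/

namespace Pool.Agent.Helper69.MH

open scoped ENNReal
open Filter Topology

lemma icc_nonempty (k : ℕ) : (Finset.Icc (-(k : ℤ)) (k : ℤ)).Nonempty := ⟨0, by simp⟩

lemma pair_nonempty (w : ℤ) : ({-w, w} : Finset ℤ).Nonempty := ⟨w, by simp⟩

/-- the uniform target on `{-k, ..., k}` -/
noncomputable def unif (k : ℕ) : PMF ℤ :=
  PMF.uniformOfFinset (Finset.Icc (-(k : ℤ)) (k : ℤ)) (icc_nonempty k)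

lemma unif_apply (k : ℕ) (x : ℤ) :
    unif k x = if x.natAbs ≤ k then ((2 * k + 1 : ℕ) : ℝ≥0∞)⁻¹ else 0 := by
  unfold unif
  rw [PMF.uniformOfFinset_apply]
  have h1 : x ∈ Finset.Icc (-(k : ℤ)) (k : ℤ) ↔ x.natAbs ≤ k := by
    rw [Finset.mem_Icc]; omega
  have h2 : (Finset.Icc (-(k : ℤ)) (k : ℤ)).card = 2 * k + 1 := by
    rw [Int.card_Icc]; omega
  rw [h2]
  simp only [h1]

lemma unif_isTarget {k : ℕ} (hk : 1 ≤ k) : IsTarget (unif k) where
  symm x := by rw [unif_apply, unif_apply, Int.natAbs_neg]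
  unimodal x y hxy := by
    have h : x.natAbs ≤ y.natAbs := by
      rw [Int.abs_eq_natAbs, Int.abs_eq_natAbs] at hxy
      exact_mod_cast hxy
    rw [unif_apply, unif_apply]
    by_cases hy : y.natAbs ≤ k
    · rw [if_pos hy, if_pos (h.trans hy)]
    · rw [if_neg hy]; exact bot_le
  nondegenerate h := by
    have h1 : unif k 1 = 0 := by rw [h]; simp
    rw [unif_apply, if_pos (by simpa using hk)] at h1
    simp at h1
    exact absurd h1 (by simp [ENNReal.mul_eq_top])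

/-- the two-point proposal `±w` -/
noncomputable def twoPt (w : ℤ) : PMF ℤ :=
  PMF.uniformOfFinset {-w, w} (pair_nonempty w)

lemma twoPt_isProposal {w : ℤ} (hw : Odd w) : IsProposal (twoPt w) where
  symm z := by
    unfold twoPt
    rw [PMF.uniformOfFinset_apply, PMF.uniformOfFinset_apply]
    have : (-z ∈ ({-w, w} : Finset ℤ)) ↔ (z ∈ ({-w, w} : Finset ℤ)) := by
      simp only [Finset.mem_insert, Finset.mem_singleton]; omega
    by_cases hz : z ∈ ({-w, w} : Finset ℤ)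
    · rw [if_pos hz, if_pos (this.mpr hz)]
    · rw [if_neg hz, if_neg (fun h => hz (this.mp h))]
  even_zero z hz := by
    unfold twoPt
    rw [PMF.uniformOfFinset_apply, if_neg]
    simp only [Finset.mem_insert, Finset.mem_singleton]
    rintro (h | h)
    · rw [h] at hz
      exact (Int.not_even_iff_odd.mpr hw) (even_neg.mp hz)
    · rw [h] at hz
      exact (Int.not_even_iff_odd.mpr hw) hz

lemma twoPt_support {w z : ℤ} (h : twoPt w z ≠ 0) : z = -w ∨ z = w := by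
  unfold twoPt at h
  rw [PMF.uniformOfFinset_apply] at h
  by_contra hne
  apply h
  rw [if_neg]
  simpa using hne

lemma unif_moment (k : ℕ) {r : ℝ} (hr : 0 < r) :
    targetMoment (unif k) r = ((2 * k + 1 : ℕ) : ℝ≥0∞)⁻¹ * ENNReal.ofReal (2 * S k r) := by
  unfold targetMoment expect
  rw [← sum_ball k hr, ← ENNReal.tsum_mul_left]
  refine tsum_congr fun x => ?_
  rw [unif_apply]
  split_ifs <;> simp

lemma unif_overlap (k : ℕ) (z : ℤ) :
    ∑' x : ℤ, min (unif k x) (unif k (x + z)) =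
      ((2 * k + 1 : ℕ) : ℝ≥0∞)⁻¹ * ((2 * k + 1 - z.natAbs : ℕ) : ℝ≥0∞) := by
  rw [← overlap_card, ← ENNReal.tsum_mul_left]
  refine tsum_congr fun x => ?_
  rw [unif_apply, unif_apply]
  by_cases h1 : x.natAbs ≤ k <;> by_cases h2 : (x + z).natAbs ≤ k <;> simp [h1, h2]

lemma le_s {r : ℝ} (hr : 0 < r) {k : ℕ} (hk : 1 ≤ k) : ENNReal.ofReal (g k r) ≤ s r := by
  have hodd : Odd (2 * (k : ℤ) - 1) := ⟨(k : ℤ) - 1, by ring⟩
  have hS := S_pos hk r
  have hN0 : ((2 * k + 1 : ℕ) : ℝ≥0∞) ≠ 0 := by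
    exact_mod_cast (by omega : (2 * k + 1 : ℕ) ≠ 0)
  have hNt : ((2 * k + 1 : ℕ) : ℝ≥0∞) ≠ ⊤ := ENNReal.natCast_ne_top _
  have hM := unif_moment k hr
  have hMlt : targetMoment (unif k) r < ⊤ := by
    rw [hM]
    exact ENNReal.mul_lt_top (by simp [ENNReal.inv_lt_top]) ENNReal.ofReal_lt_top
  have hJ : jumpMoment (unif k) (twoPt (2 * (k : ℤ) - 1)) r =
      ENNReal.ofReal ((2 * (k : ℝ) - 1) ^ r) * (((2 * k + 1 : ℕ) : ℝ≥0∞)⁻¹ * 2) := by
    rw [jumpMoment_eq _ _ hr]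
    rw [← expect_const (twoPt (2 * (k : ℤ) - 1))
      (ENNReal.ofReal ((2 * (k : ℝ) - 1) ^ r) * (((2 * k + 1 : ℕ) : ℝ≥0∞)⁻¹ * 2))]
    apply expect_congr
    intro z hz
    have hz' := twoPt_support hz
    have hy := two_k_sub_one_pos hk
    have habs : |(z : ℝ)| = 2 * (k : ℝ) - 1 := by
      rcases hz' with h | h
      · rw [h]; push_cast
        rw [abs_of_nonpos (by linarith)]; ring
      · rw [h]; push_cast
        rw [abs_of_pos (by linarith)]
    have hnat : 2 * k + 1 - z.natAbs = 2 := by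
      rcases hz' with h | h <;> omega
    rw [unif_overlap, habs, hnat]
    norm_num
  have hle : jumpMoment (unif k) (twoPt (2 * (k : ℤ) - 1)) r / targetMoment (unif k) r ≤ s r := by
    unfold s
    refine le_iSup_of_le (unif k) (le_iSup_of_le (twoPt (2 * (k : ℤ) - 1))
      (le_iSup_of_le (unif_isTarget hk) (le_iSup_of_le (twoPt_isProposal hodd)
        (le_iSup_of_le hMlt le_rfl))))
  refine le_trans (le_of_eq ?_) hle
  rw [hJ, hM]
  have e1 : ENNReal.ofReal ((2 * (k : ℝ) - 1) ^ r) * (((2 * k + 1 : ℕ) : ℝ≥0∞)⁻¹ * 2) =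
      ((2 * k + 1 : ℕ) : ℝ≥0∞)⁻¹ * ENNReal.ofReal (2 * (2 * (k : ℝ) - 1) ^ r) := by
    rw [ENNReal.ofReal_mul (by norm_num)]
    have : ENNReal.ofReal 2 = 2 := by norm_num
    rw [this]; ring
  rw [e1, ENNReal.mul_div_mul_left _ _ (ENNReal.inv_ne_zero.mpr hNt) (ENNReal.inv_ne_top.mpr hN0),
    ← ENNReal.ofReal_div_of_pos (by linarith)]
  congr 1
  unfold g
  field_simp

end Pool.Agent.Helper69.MH
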