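import Pool.Agent.Helper69.MH.Chain

/-!
Upper bound for `s(r)` by a layer-cake decomposition.
-/

namespace Pool.Agent.Helper69.MH

open scoped ENNReal
open Filter Topology

/-- the layers of a target -/
noncomputable def layer (π : PMF ℤ) (j : ℕ) : ℝ≥0∞ := π (j : ℤ) - π ((j + 1 : ℕ) : ℤ)

lemma IsTarget.natAbs {π : PMF ℤ} (h : IsTarget π) (x : ℤ) : π x = π (x.natAbs : ℤ) := by
  rcases Int.natAbs_eq x with hx | hx
  · rw [← hx]
  · conv_lhs => rw [hx, h.symm]

lemma IsTarget.anti {π : PMF ℤ} (h : IsTarget π) {m n : ℕ} (hmn : m ≤ n) :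
    π (n : ℤ) ≤ π (m : ℤ) := by
  apply h.unimodal
  simpa using hmn

lemma pmf_tendsto_zero (π : PMF ℤ) : Tendsto (fun n : ℕ => π (n : ℤ)) atTop (𝓝 0) := by
  have h1 : ∑' n : ℕ, π (n : ℤ) ≤ ∑' x : ℤ, π x :=
    ENNReal.tsum_comp_le_tsum_of_injective (fun a b h => by exact_mod_cast h) _
  rw [π.tsum_coe] at h1
  exact ENNReal.tendsto_atTop_zero_of_tsum_ne_top (ne_top_of_le_ne_top ENNReal.one_ne_top h1)

lemma layer_sum {π : PMF ℤ} (h : IsTarget π) (n : ℕ) :
    π (n : ℤ) = ∑' j : ℕ, if n ≤ j then layer π j else 0 := by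
  have h1 : ∀ N : ℕ, ∑ j ∈ Finset.range N, (if n ≤ j then layer π j else 0) =
      π (n : ℤ) - π ((max n N : ℕ) : ℤ) := by
    intro N
    induction N with
    | zero => simp
    | succ N ih =>
      rw [Finset.sum_range_succ, ih]
      by_cases hN : n ≤ N
      · rw [if_pos hN, max_eq_right hN, max_eq_right (by omega)]
        unfold layer
        exact tsub_add_tsub_cancel (h.anti hN) (h.anti (by omega))
      · rw [if_neg hN, max_eq_left (by omega), max_eq_left (by omega), add_zero]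
  have h2 := ENNReal.tendsto_nat_tsum (fun j => if n ≤ j then layer π j else 0)
  simp only [h1] at h2
  have h3 : Tendsto (fun N : ℕ => π (n : ℤ) - π ((max n N : ℕ) : ℤ)) atTop
      (𝓝 (π (n : ℤ) - 0)) := by
    apply ENNReal.Tendsto.sub tendsto_const_nhds
    · apply (pmf_tendsto_zero π).comp
      apply tendsto_atTop_mono (fun N => le_max_right n N) tendsto_id
    · left; exact PMF.apply_ne_top π _
  rw [tsub_zero] at h3
  exact tendsto_nhds_unique h3 h2

lemma tsum_ite_finset {F : Finset ℤ} (f : ℤ → ℝ≥0∞) :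
    ∑' x : ℤ, (if x ∈ F then f x else 0) = ∑ x ∈ F, f x := by
  rw [tsum_eq_sum (s := F)]
  · exact Finset.sum_congr rfl fun x hx => by rw [if_pos hx]
  · intro x hx
    rw [if_neg hx]

/-- Number of points `x` with `|x| ≤ j` and `|x+z| ≤ j`. -/
lemma overlap_card (j : ℕ) (z : ℤ) :
    ∑' x : ℤ, (if x.natAbs ≤ j ∧ (x + z).natAbs ≤ j then (1 : ℝ≥0∞) else 0) =
      ((2 * j + 1 - z.natAbs : ℕ) : ℝ≥0∞) := by
  rcases le_total 0 z with hz | hz
  · have h1 : ∀ x : ℤ, (x.natAbs ≤ j ∧ (x + z).natAbs ≤ j) ↔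
        x ∈ Finset.Icc (-(j : ℤ)) (j - z) := by
      intro x; rw [Finset.mem_Icc]; omega
    simp only [h1]
    rw [tsum_ite_finset, Finset.sum_const, Int.card_Icc, nsmul_eq_mul, mul_one]
    congr 1
    omega
  · have h1 : ∀ x : ℤ, (x.natAbs ≤ j ∧ (x + z).natAbs ≤ j) ↔
        x ∈ Finset.Icc (-(j : ℤ) - z) (j : ℤ) := by
      intro x; rw [Finset.mem_Icc]; omega
    simp only [h1]
    rw [tsum_ite_finset, Finset.sum_const, Int.card_Icc, nsmul_eq_mul, mul_one]
    congr 1
    omega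

lemma sum_ball (j : ℕ) {r : ℝ} (hr : 0 < r) :
    ∑' x : ℤ, (if x.natAbs ≤ j then ENNReal.ofReal (|(x : ℝ)| ^ r) else 0) =
      ENNReal.ofReal (2 * S j r) := by
  have h1 : ∀ x : ℤ, (x.natAbs ≤ j) ↔ x ∈ Finset.Icc (-(j : ℤ)) (j : ℤ) := by
    intro x; rw [Finset.mem_Icc]; omega
  simp only [h1]
  rw [tsum_ite_finset, ← ENNReal.ofReal_sum_of_nonneg
    (fun x _ => Real.rpow_nonneg (abs_nonneg _) _)]
  congr 1
  induction j with
  | zero => simp [S_zero, Real.zero_rpow hr.ne']
  | succ n ih =>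
    have e : Finset.Icc (-((n + 1 : ℕ) : ℤ)) ((n + 1 : ℕ) : ℤ) =
        insert (-((n + 1 : ℕ) : ℤ)) (insert ((n + 1 : ℕ) : ℤ) (Finset.Icc (-(n : ℤ)) (n : ℤ))) := by
      ext x
      simp only [Finset.mem_Icc, Finset.mem_insert]
      omega
    rw [e, Finset.sum_insert, Finset.sum_insert, ih (fun x => by rw [Finset.mem_Icc]; omega),
      S_succ]
    · have e1 : |(((-((n + 1 : ℕ) : ℤ)) : ℤ) : ℝ)| = (n : ℝ) + 1 := by
        push_cast
        rw [abs_of_nonpos] <;> linarith [Nat.cast_nonneg (α := ℝ) n]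
      have e2 : |((((n + 1 : ℕ) : ℤ)) : ℝ)| = (n : ℝ) + 1 := by
        push_cast
        rw [abs_of_nonneg]; linarith [Nat.cast_nonneg (α := ℝ) n]
      rw [e1, e2]; ring
    · simp only [Finset.mem_Icc]; omega
    · simp only [Finset.mem_insert, Finset.mem_Icc]; omega

lemma targetMoment_layers {π : PMF ℤ} (h : IsTarget π) {r : ℝ} (hr : 0 < r) :
    targetMoment π r = ∑' j : ℕ, layer π j * ENNReal.ofReal (2 * S j r) := by
  unfold targetMoment expect
  have h1 : ∀ x : ℤ, π x * ENNReal.ofReal (|(x : ℝ)| ^ r) =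
      ∑' j : ℕ, layer π j * (if x.natAbs ≤ j then ENNReal.ofReal (|(x : ℝ)| ^ r) else 0) := by
    intro x
    rw [h.natAbs, layer_sum h, ← ENNReal.tsum_mul_right]
    refine tsum_congr fun j => ?_
    split_ifs <;> simp
  simp only [h1]
  rw [ENNReal.tsum_comm]
  refine tsum_congr fun j => ?_
  rw [ENNReal.tsum_mul_left, sum_ball j hr]

lemma overlap_layers {π : PMF ℤ} (h : IsTarget π) (z : ℤ) :
    ∑' x : ℤ, min (π x) (π (x + z)) =
      ∑' j : ℕ, layer π j * ((2 * j + 1 - z.natAbs : ℕ) : ℝ≥0∞) := by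
  have h1 : ∀ x : ℤ, min (π x) (π (x + z)) =
      ∑' j : ℕ, layer π j * (if x.natAbs ≤ j ∧ (x + z).natAbs ≤ j then (1 : ℝ≥0∞) else 0) := by
    intro x
    have e : min (π x) (π (x + z)) = π ((max x.natAbs (x + z).natAbs : ℕ) : ℤ) := by
      rw [h.natAbs x, h.natAbs (x + z)]
      rcases le_total x.natAbs (x + z).natAbs with hle | hle
      · rw [max_eq_right hle, min_eq_right (h.anti hle)]
      · rw [max_eq_left hle, min_eq_left (h.anti hle)]
    rw [e, layer_sum h]
    refine tsum_congr fun j => ?_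
    simp only [max_le_iff]
    split_ifs <;> simp
  simp only [h1]
  rw [ENNReal.tsum_comm]
  refine tsum_congr fun j => ?_
  rw [ENNReal.tsum_mul_left, overlap_card]

/-- Upper bound for `s(r)`. -/
lemma s_le {r G : ℝ} (hr : 0 < r)
    (H : ∀ k n : ℕ, 1 ≤ n → n ≤ k → (n : ℝ) * (2 * (k : ℝ) + 1 - 2 * n) ^ r ≤ G * S k r) :
    s r ≤ ENNReal.ofReal G := by
  have hG : 0 ≤ G := by
    have := H 1 1 le_rfl le_rfl
    rw [S_one] at this
    norm_num at this
    linarith
  unfold s
  refine iSup_le fun π => iSup_le fun φ => iSup_le fun hπ => iSup_le fun hφ => iSup_le fun _ => ?_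
  apply ENNReal.div_le_of_le_mul
  rw [jumpMoment_eq π φ hr]
  calc expect φ (fun z => ENNReal.ofReal (|(z : ℝ)| ^ r) * ∑' x : ℤ, min (π x) (π (x + z)))
      ≤ expect φ (fun _ => ENNReal.ofReal G * targetMoment π r) := by
        apply expect_mono
        intro z hz
        have hodd : ¬ Even z := fun he => hz (hφ.even_zero z he)
        rw [Int.not_even_iff_odd] at hodd
        rw [overlap_layers hπ, targetMoment_layers hπ hr, ← ENNReal.tsum_mul_left,
          ← ENNReal.tsum_mul_left]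
        refine ENNReal.tsum_le_tsum fun j => ?_
        have key : ENNReal.ofReal (|(z : ℝ)| ^ r) * ((2 * j + 1 - z.natAbs : ℕ) : ℝ≥0∞) ≤
            ENNReal.ofReal G * ENNReal.ofReal (2 * S j r) := by
          rw [← ENNReal.ofReal_natCast, ← ENNReal.ofReal_mul (Real.rpow_nonneg (abs_nonneg _) _),
            ← ENNReal.ofReal_mul hG]
          apply ENNReal.ofReal_le_ofReal
          obtain ⟨w, hw⟩ := hodd
          obtain ⟨y, hy⟩ : ∃ y : ℕ, z.natAbs = 2 * y + 1 := ⟨z.natAbs / 2, by omega⟩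
          have habs : |(z : ℝ)| = 2 * (y : ℝ) + 1 := by
            have : ((z.natAbs : ℕ) : ℝ) = |(z : ℝ)| := by
              rw [Nat.cast_natAbs]; push_cast; rfl
            rw [← this, hy]; push_cast; ring
          by_cases hyj : y < j
          · obtain ⟨n, hn⟩ : ∃ n, j = y + n := ⟨j - y, by omega⟩
            have h2 : 2 * j + 1 - z.natAbs = 2 * n := by omega
            have h3 := H j n (by omega) (by omega)
            have h4 : 2 * (j : ℝ) + 1 - 2 * n = 2 * (y : ℝ) + 1 := by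
              rw [hn]; push_cast; ring
            rw [h4] at h3
            rw [habs, h2]
            push_cast
            linarith
          · have h2 : 2 * j + 1 - z.natAbs = 0 := by omega
            rw [h2]
            have := mul_nonneg hG (S_nonneg j r)
            push_cast
            linarith
        calc ENNReal.ofReal (|(z : ℝ)| ^ r) * (layer π j * ((2 * j + 1 - z.natAbs : ℕ) : ℝ≥0∞))
            = layer π j *
              (ENNReal.ofReal (|(z : ℝ)| ^ r) * ((2 * j + 1 - z.natAbs : ℕ) : ℝ≥0∞)) := by ring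
          _ ≤ layer π j * (ENNReal.ofReal G * ENNReal.ofReal (2 * S j r)) :=
              mul_le_mul_right key _
          _ = ENNReal.ofReal G * (layer π j * ENNReal.ofReal (2 * S j r)) := by ring
    _ = ENNReal.ofReal G * targetMoment π r := expect_const _ _

end Pool.Agent.Helper69.MH
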