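import Pool.Agent.Helper69.MH.Basic

/-!
Lower bounds for the power sums `S k r`.
-/

namespace Pool.Agent.Helper69.MH

open Set

lemma nonneg_of_deriv {f f' : ℝ → ℝ} {b : ℝ} (h0 : 0 ≤ f 0)
    (hf : ∀ x ∈ Icc 0 b, HasDerivAt f (f' x) x) (hf' : ∀ x ∈ Icc 0 b, 0 ≤ f' x) :
    ∀ x ∈ Icc 0 b, 0 ≤ f x := by
  intro x hx
  have hmono : MonotoneOn f (Icc 0 b) := by
    apply monotoneOn_of_deriv_nonneg (convex_Icc 0 b)
    · intro y hy
      exact (hf y hy).continuousAt.continuousWithinAt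
    · intro y hy
      rw [interior_Icc] at hy
      exact (hf y (Ioo_subset_Icc_self hy)).differentiableAt.differentiableWithinAt
    · intro y hy
      rw [interior_Icc] at hy
      rw [(hf y (Ioo_subset_Icc_self hy)).deriv]
      exact hf' y (Ioo_subset_Icc_self hy)
  have h00 : (0 : ℝ) ∈ Icc 0 b := ⟨le_refl _, hx.1.trans hx.2⟩
  exact h0.trans (hmono h00 hx hx.1)

lemma hasDerivAt_P (p : ℝ) {v : ℝ} (hv : 0 < 1 + v) :
    HasDerivAt (fun v : ℝ => (1 + v) ^ p) (p * (1 + v) ^ (p - 1)) v := by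
  have h1 : HasDerivAt (fun v : ℝ => 1 + v) 1 v := by
    simpa using (hasDerivAt_id v).const_add 1
  have := h1.rpow_const (p := p) (Or.inl hv.ne')
  convert this using 1
  ring

lemma hasDerivAt_M (p : ℝ) {v : ℝ} (hv : 0 < 1 - v) :
    HasDerivAt (fun v : ℝ => (1 - v) ^ p) (-(p * (1 - v) ^ (p - 1))) v := by
  have h1 : HasDerivAt (fun v : ℝ => 1 - v) (-1) v := by
    simpa using (hasDerivAt_id v).const_sub 1
  have := h1.rpow_const (p := p) (Or.inl hv.ne')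
  convert this using 1
  ring

/-- Bernoulli: `(1+v)^b + (1-v)^b ≤ 2` for `0 ≤ b ≤ 1`. -/
lemma L1 {b v : ℝ} (hb0 : 0 ≤ b) (hb1 : b ≤ 1) (hv0 : -1 ≤ v) (hv1 : v ≤ 1) :
    (1 + v) ^ b + (1 - v) ^ b ≤ 2 := by
  have h1 := rpow_one_add_le_one_add_mul_self hv0 hb0 hb1
  have h2 := rpow_one_add_le_one_add_mul_self (s := -v) (by linarith) hb0 hb1
  have h3 : (1 + -v) ^ b = (1 - v) ^ b := by ring_nf
  rw [h3] at h2
  linarith

/-- `(1+v)^b + (1-v)^b ≥ 2 (1 - v^2)` for `0 ≤ b ≤ 1`... by AM-GM -/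
lemma L1' {b v : ℝ} (hb1 : b ≤ 1) (hv0 : 0 ≤ v) (hv1 : v < 1) :
    2 * (1 - v ^ 2) ≤ (1 + v) ^ b + (1 - v) ^ b := by
  have hp : 0 < 1 + v := by linarith
  have hm : 0 < 1 - v := by linarith
  have hs : 0 < 1 - v ^ 2 := by nlinarith
  have h1 : ((1 + v) ^ b) * ((1 - v) ^ b) = (1 - v ^ 2) ^ b := by
    rw [← Real.mul_rpow hp.le hm.le]; congr 1; ring
  have h2 : (1 - v ^ 2) ≤ (1 - v ^ 2) ^ (b / 2) := by
    calc (1 - v ^ 2) = (1 - v ^ 2) ^ (1 : ℝ) := (Real.rpow_one _).symm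
      _ ≤ (1 - v ^ 2) ^ (b / 2) :=
        Real.rpow_le_rpow_of_exponent_ge hs (by nlinarith) (by linarith)
  have h3 : ((1 - v ^ 2) ^ (b / 2)) ^ 2 = (1 - v ^ 2) ^ b := by
    rw [← Real.rpow_natCast, ← Real.rpow_mul hs.le]; congr 1; push_cast; ring
  have hA : 0 < (1 + v) ^ b := Real.rpow_pos_of_pos hp b
  have hB : 0 < (1 - v) ^ b := Real.rpow_pos_of_pos hm b
  have h4 : 2 * (1 - v ^ 2) ^ (b / 2) ≤ (1 + v) ^ b + (1 - v) ^ b := by
    have h5 : (2 * (1 - v ^ 2) ^ (b / 2)) ^ 2 ≤ ((1 + v) ^ b + (1 - v) ^ b) ^ 2 := by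
      rw [mul_pow, h3, ← h1]
      nlinarith [sq_nonneg ((1 + v) ^ b - (1 - v) ^ b)]
    exact le_of_sq_le_sq h5 (by positivity)
  linarith

/-- for `b ≤ 0`: `(1+v)^b + (1-v)^b ≥ 2` -/
lemma L1neg {b v : ℝ} (hb : b ≤ 0) (hv0 : 0 ≤ v) (hv1 : v < 1) :
    2 ≤ (1 + v) ^ b + (1 - v) ^ b := by
  have hp : 0 < 1 + v := by linarith
  have hm : 0 < 1 - v := by linarith
  have hs : 0 < 1 - v ^ 2 := by nlinarith
  have h1 : ((1 + v) ^ b) * ((1 - v) ^ b) = (1 - v ^ 2) ^ b := by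
    rw [← Real.mul_rpow hp.le hm.le]; congr 1; ring
  have h2 : 1 ≤ (1 - v ^ 2) ^ b :=
    Real.one_le_rpow_of_pos_of_le_one_of_nonpos hs (by nlinarith) hb
  have hA : 0 < (1 + v) ^ b := Real.rpow_pos_of_pos hp b
  have hB : 0 < (1 - v) ^ b := Real.rpow_pos_of_pos hm b
  nlinarith [sq_nonneg ((1 + v) ^ b - (1 - v) ^ b)]

/-- `(1+v)^(b+1) - (1-v)^(b+1) ≤ 2 (b+1) v`, `0 ≤ b ≤ 1`. -/
lemma L2 {b : ℝ} (hb0 : 0 ≤ b) (hb1 : b ≤ 1) :
    ∀ v ∈ Icc (0 : ℝ) (1 / 2), (1 + v) ^ (b + 1) - (1 - v) ^ (b + 1) ≤ 2 * (b + 1) * v := by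
  have key := nonneg_of_deriv (b := 1 / 2)
    (f := fun v : ℝ => 2 * (b + 1) * v - ((1 + v) ^ (b + 1) - (1 - v) ^ (b + 1)))
    (f' := fun v : ℝ => 2 * (b + 1) - ((b + 1) * (1 + v) ^ b - -((b + 1) * (1 - v) ^ b)))
    (by simp) ?_ ?_
  · intro v hv
    have := key v hv
    linarith
  · intro x hx
    have hp : 0 < 1 + x := by linarith [hx.1]
    have hm : 0 < 1 - x := by linarith [hx.2]
    have h1 := (hasDerivAt_P (b + 1) hp).sub (hasDerivAt_M (b + 1) hm)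
    have e : b + 1 - 1 = b := by ring
    rw [e] at h1
    have h2 : HasDerivAt (fun v : ℝ => 2 * (b + 1) * v) (2 * (b + 1)) x := by
      simpa using (hasDerivAt_id x).const_mul (2 * (b + 1))
    exact h2.sub h1
  · intro x hx
    have := L1 hb0 hb1 (v := x) (by linarith [hx.1]) (by linarith [hx.2])
    nlinarith

/-- `(1+v)^(b+1) - (1-v)^(b+1) ≥ (11/6) (b+1) v`, `0 ≤ b ≤ 1`, `0 ≤ v ≤ 1/2`. -/
lemma L2' {b : ℝ} (hb0 : 0 ≤ b) (hb1 : b ≤ 1) :
    ∀ v ∈ Icc (0 : ℝ) (1 / 2), 11 / 6 * (b + 1) * v ≤ (1 + v) ^ (b + 1) - (1 - v) ^ (b + 1) := by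
  have key := nonneg_of_deriv (b := 1 / 2)
    (f := fun v : ℝ => ((1 + v) ^ (b + 1) - (1 - v) ^ (b + 1)) - 2 * (b + 1) * (v - v ^ 3 / 3))
    (f' := fun v : ℝ => ((b + 1) * (1 + v) ^ b - -((b + 1) * (1 - v) ^ b)) -
      2 * (b + 1) * (1 - v ^ 2))
    (by simp) ?_ ?_
  · intro v hv
    have h := key v hv
    have h1 : 0 ≤ v := hv.1
    have h2 : v ≤ 1 / 2 := hv.2
    have h3 : v ^ 3 ≤ v / 4 := by nlinarith [mul_nonneg h1 h1, mul_nonneg h1 (sub_nonneg.mpr h2)]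
    nlinarith
  · intro x hx
    have hp : 0 < 1 + x := by linarith [hx.1]
    have hm : 0 < 1 - x := by linarith [hx.2]
    have h1 := (hasDerivAt_P (b + 1) hp).sub (hasDerivAt_M (b + 1) hm)
    have e : b + 1 - 1 = b := by ring
    rw [e] at h1
    have h2 : HasDerivAt (fun v : ℝ => 2 * (b + 1) * (v - v ^ 3 / 3))
        (2 * (b + 1) * (1 - x ^ 2)) x := by
      have h3 : HasDerivAt (fun v : ℝ => v - v ^ 3 / 3) (1 - x ^ 2) x := by
        have h4 := (hasDerivAt_id x).sub ((hasDerivAt_pow 3 x).div_const 3)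
        exact h4.congr_deriv (by push_cast; ring)
      exact h3.const_mul _
    exact h1.sub h2
  · intro x hx
    have := L1' hb1 (v := x) hx.1 (by linarith [hx.2])
    nlinarith

/-- `(1+v)^(b+2) + (1-v)^(b+2) ≤ 2 + (b+2)(b+1) v^2`, `0 ≤ b ≤ 1`. -/
lemma L3 {b : ℝ} (hb0 : 0 ≤ b) (hb1 : b ≤ 1) :
    ∀ v ∈ Icc (0 : ℝ) (1 / 2),
      (1 + v) ^ (b + 2) + (1 - v) ^ (b + 2) ≤ 2 + (b + 2) * (b + 1) * v ^ 2 := by
  have key := nonneg_of_deriv (b := 1 / 2)
    (f := fun v : ℝ => (2 + (b + 2) * (b + 1) * v ^ 2) - ((1 + v) ^ (b + 2) + (1 - v) ^ (b + 2)))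
    (f' := fun v : ℝ => (b + 2) * (b + 1) * (2 * v) -
      ((b + 2) * (1 + v) ^ (b + 1) + -((b + 2) * (1 - v) ^ (b + 1))))
    (by simp; norm_num) ?_ ?_
  · intro v hv
    have := key v hv
    linarith
  · intro x hx
    have hp : 0 < 1 + x := by linarith [hx.1]
    have hm : 0 < 1 - x := by linarith [hx.2]
    have h1 := (hasDerivAt_P (b + 2) hp).add (hasDerivAt_M (b + 2) hm)
    have e : b + 2 - 1 = b + 1 := by ring
    rw [e] at h1
    have h2 : HasDerivAt (fun v : ℝ => 2 + (b + 2) * (b + 1) * v ^ 2)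
        ((b + 2) * (b + 1) * (2 * x)) x := by
      have h3 := ((hasDerivAt_pow 2 x).const_mul ((b + 2) * (b + 1))).const_add 2
      exact h3.congr_deriv (by push_cast; ring)
    exact h2.sub h1
  · intro x hx
    have := L2 hb0 hb1 x hx
    nlinarith

/-- `(1+v)^(b+3) - (1-v)^(b+3) ≤ 2(b+3)v + (b+3)(b+2)(b+1) v^3/3`, `0 ≤ b ≤ 1`. -/
lemma L4 {b : ℝ} (hb0 : 0 ≤ b) (hb1 : b ≤ 1) :
    ∀ v ∈ Icc (0 : ℝ) (1 / 2),
      (1 + v) ^ (b + 3) - (1 - v) ^ (b + 3) ≤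
        2 * (b + 3) * v + (b + 3) * (b + 2) * (b + 1) * v ^ 3 / 3 := by
  have key := nonneg_of_deriv (b := 1 / 2)
    (f := fun v : ℝ => (2 * (b + 3) * v + (b + 3) * (b + 2) * (b + 1) * v ^ 3 / 3) -
      ((1 + v) ^ (b + 3) - (1 - v) ^ (b + 3)))
    (f' := fun v : ℝ => (2 * (b + 3) + (b + 3) * (b + 2) * (b + 1) * v ^ 2) -
      ((b + 3) * (1 + v) ^ (b + 2) - -((b + 3) * (1 - v) ^ (b + 2))))
    (by simp) ?_ ?_
  · intro v hv
    have := key v hv
    linarith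
  · intro x hx
    have hp : 0 < 1 + x := by linarith [hx.1]
    have hm : 0 < 1 - x := by linarith [hx.2]
    have h1 := (hasDerivAt_P (b + 3) hp).sub (hasDerivAt_M (b + 3) hm)
    have e : b + 3 - 1 = b + 2 := by ring
    rw [e] at h1
    have h2 : HasDerivAt (fun v : ℝ => 2 * (b + 3) * v + (b + 3) * (b + 2) * (b + 1) * v ^ 3 / 3)
        (2 * (b + 3) + (b + 3) * (b + 2) * (b + 1) * x ^ 2) x := by
      have h3 : HasDerivAt (fun v : ℝ => 2 * (b + 3) * v) (2 * (b + 3)) x := by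
        simpa using (hasDerivAt_id x).const_mul (2 * (b + 3))
      have h4 := ((hasDerivAt_pow 3 x).const_mul ((b + 3) * (b + 2) * (b + 1))).div_const 3
      exact (h3.add h4).congr_deriv (by push_cast; ring)
    exact h2.sub h1
  · intro x hx
    have := L3 hb0 hb1 x hx
    have hb3 : 0 ≤ b + 3 := by linarith
    nlinarith [mul_le_mul_of_nonneg_left this hb3]

/-- step inequality in normalised form for `2 ≤ r ≤ 3` -/
lemma step23 {r : ℝ} (h2 : 2 ≤ r) (h3 : r ≤ 3) {v : ℝ} (hv : v ∈ Icc (0 : ℝ) (1 / 2)) :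
    ((1 + v) ^ (r + 1) - (1 - v) ^ (r + 1)) / (r + 1) -
      (2 * r / 11) * v ^ 2 * ((1 + v) ^ (r - 1) - (1 - v) ^ (r - 1)) ≤ 2 * v := by
  have hb0 : 0 ≤ r - 2 := by linarith
  have hb1 : r - 2 ≤ 1 := by linarith
  have h4 := L4 hb0 hb1 v hv
  have h2' := L2' hb0 hb1 v hv
  have e1 : r - 2 + 3 = r + 1 := by ring
  have e2 : r - 2 + 2 = r := by ring
  have e3 : r - 2 + 1 = r - 1 := by ring
  rw [e1, e2, e3] at h4
  rw [e3] at h2'
  have hr1 : 0 < r + 1 := by linarith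
  have h5 : ((1 + v) ^ (r + 1) - (1 - v) ^ (r + 1)) / (r + 1) ≤
      2 * v + r * (r - 1) * v ^ 3 / 3 := by
    rw [div_le_iff₀ hr1]
    calc (1 + v) ^ (r + 1) - (1 - v) ^ (r + 1) ≤ _ := h4
      _ = _ := by ring
  have hv0 : 0 ≤ v := hv.1
  have h6 : (2 * r / 11) * v ^ 2 * (11 / 6 * (r - 1) * v) ≤
      (2 * r / 11) * v ^ 2 * ((1 + v) ^ (r - 1) - (1 - v) ^ (r - 1)) :=
    mul_le_mul_of_nonneg_left h2' (by positivity)
  nlinarith

/-- trapezoid inequality for `r ≥ 3`: `(1+v)^(r-1) - (1-v)^(r-1) ≤ (r-1) v ((1+v)^(r-2) + (1-v)^(r-2))` -/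
lemma trap {r : ℝ} (h3 : 3 ≤ r) :
    ∀ v ∈ Icc (0 : ℝ) (1 / 2), (1 + v) ^ (r - 1) - (1 - v) ^ (r - 1) ≤
      (r - 1) * v * ((1 + v) ^ (r - 2) + (1 - v) ^ (r - 2)) := by
  have key := nonneg_of_deriv (b := 1 / 2)
    (f := fun v : ℝ => (r - 1) * v * ((1 + v) ^ (r - 2) + (1 - v) ^ (r - 2)) -
      ((1 + v) ^ (r - 1) - (1 - v) ^ (r - 1)))
    (f' := fun v : ℝ => ((r - 1) * 1 * ((1 + v) ^ (r - 2) + (1 - v) ^ (r - 2)) +
      (r - 1) * v * ((r - 2) * (1 + v) ^ (r - 3) + -((r - 2) * (1 - v) ^ (r - 3)))) -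
      ((r - 1) * (1 + v) ^ (r - 2) - -((r - 1) * (1 - v) ^ (r - 2))))
    (by simp) ?_ ?_
  · intro v hv
    have := key v hv
    linarith
  · intro x hx
    have hp : 0 < 1 + x := by linarith [hx.1]
    have hm : 0 < 1 - x := by linarith [hx.2]
    have h1 := (hasDerivAt_P (r - 1) hp).sub (hasDerivAt_M (r - 1) hm)
    have h2 := (hasDerivAt_P (r - 2) hp).add (hasDerivAt_M (r - 2) hm)
    have e1 : r - 1 - 1 = r - 2 := by ring
    have e2 : r - 2 - 1 = r - 3 := by ring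
    rw [e1] at h1
    rw [e2] at h2
    have h3 : HasDerivAt (fun v : ℝ => (r - 1) * v) ((r - 1) * 1) x :=
      (hasDerivAt_id x).const_mul (r - 1)
    exact (h3.mul h2).sub h1
  · intro x hx
    have hx0 := hx.1
    have hm : 0 < 1 - x := by linarith [hx.2]
    have h : (1 - x) ^ (r - 3) ≤ (1 + x) ^ (r - 3) :=
      Real.rpow_le_rpow hm.le (by linarith) (by linarith)
    have h5 : 0 ≤ (r - 1) * x * (r - 2) := by
      apply mul_nonneg (mul_nonneg (by linarith) hx0) (by linarith)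
    nlinarith [mul_le_mul_of_nonneg_left h h5]

/-- step inequality in normalised form for `r ≥ 3` -/
lemma step3 {r : ℝ} (h3 : 3 ≤ r) {v : ℝ} (hv : v ∈ Icc (0 : ℝ) (1 / 2)) :
    ((1 + v) ^ (r + 1) - (1 - v) ^ (r + 1)) / (r + 1) -
      (2 * r / 11) * v ^ 2 * ((1 + v) ^ (r - 1) - (1 - v) ^ (r - 1)) ≤ 2 * v := by
  have hr1 : (r + 1) ≠ 0 := by linarith
  -- second derivative nonneg
  have h2nd : ∀ x ∈ Icc (0 : ℝ) (1 / 2),
      0 ≤ (-(r * (1 + x) ^ (r - 1) + -(r * (1 - x) ^ (r - 1)))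
        + ((4 * r / 11) * 1 * ((1 + x) ^ (r - 1) - (1 - x) ^ (r - 1)) +
          (4 * r / 11) * x * ((r - 1) * (1 + x) ^ (r - 2) - -((r - 1) * (1 - x) ^ (r - 2)))))
        + ((2 * r * (r - 1) / 11) * (2 * x) * ((1 + x) ^ (r - 2) + (1 - x) ^ (r - 2)) +
          (2 * r * (r - 1) / 11) * x ^ 2 *
            ((r - 2) * (1 + x) ^ (r - 3) + -((r - 2) * (1 - x) ^ (r - 3)))) := by
    intro x hx
    have hx0 := hx.1
    have hm : 0 < 1 - x := by linarith [hx.2]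
    have ht := trap h3 x hx
    have h : (1 - x) ^ (r - 3) ≤ (1 + x) ^ (r - 3) :=
      Real.rpow_le_rpow hm.le (by linarith) (by linarith)
    have hA : (1 - x) ^ (r - 1) ≤ (1 + x) ^ (r - 1) :=
      Real.rpow_le_rpow hm.le (by linarith) (by linarith)
    have hr0 : 0 < r := by linarith
    have hc : 0 ≤ (2 * r * (r - 1) / 11) * x ^ 2 * (r - 2) := by
      apply mul_nonneg (mul_nonneg _ (sq_nonneg x)) (by linarith)
      apply div_nonneg _ (by norm_num)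
      apply mul_nonneg (by linarith) (by linarith)
    have h6 : 0 ≤ (2 * r * (r - 1) / 11) * x ^ 2 *
            ((r - 2) * (1 + x) ^ (r - 3) + -((r - 2) * (1 - x) ^ (r - 3))) := by
      have : (2 * r * (r - 1) / 11) * x ^ 2 *
            ((r - 2) * (1 + x) ^ (r - 3) + -((r - 2) * (1 - x) ^ (r - 3))) =
          (2 * r * (r - 1) / 11) * x ^ 2 * (r - 2) * ((1 + x) ^ (r - 3) - (1 - x) ^ (r - 3)) := by
        ring
      rw [this]
      exact mul_nonneg hc (by linarith)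
    have h7 : (r / 11) * (8 * ((r - 1) * x * ((1 + x) ^ (r - 2) + (1 - x) ^ (r - 2))) -
        7 * ((1 + x) ^ (r - 1) - (1 - x) ^ (r - 1))) ≥ 0 := by
      apply mul_nonneg (by positivity)
      linarith
    have h8 : (-(r * (1 + x) ^ (r - 1) + -(r * (1 - x) ^ (r - 1)))
        + ((4 * r / 11) * 1 * ((1 + x) ^ (r - 1) - (1 - x) ^ (r - 1)) +
          (4 * r / 11) * x * ((r - 1) * (1 + x) ^ (r - 2) - -((r - 1) * (1 - x) ^ (r - 2)))))
        + ((2 * r * (r - 1) / 11) * (2 * x) * ((1 + x) ^ (r - 2) + (1 - x) ^ (r - 2))) =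
        (r / 11) * (8 * ((r - 1) * x * ((1 + x) ^ (r - 2) + (1 - x) ^ (r - 2))) -
        7 * ((1 + x) ^ (r - 1) - (1 - x) ^ (r - 1))) := by ring
    linarith
  -- first derivative
  have h1st : ∀ x ∈ Icc (0 : ℝ) (1 / 2),
      0 ≤ 2 - ((1 + x) ^ r + (1 - x) ^ r) +
        (4 * r / 11) * x * ((1 + x) ^ (r - 1) - (1 - x) ^ (r - 1)) +
        (2 * r * (r - 1) / 11) * x ^ 2 * ((1 + x) ^ (r - 2) + (1 - x) ^ (r - 2)) := by
    apply nonneg_of_deriv (f' := fun x => (-(r * (1 + x) ^ (r - 1) + -(r * (1 - x) ^ (r - 1)))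
        + ((4 * r / 11) * 1 * ((1 + x) ^ (r - 1) - (1 - x) ^ (r - 1)) +
          (4 * r / 11) * x * ((r - 1) * (1 + x) ^ (r - 2) - -((r - 1) * (1 - x) ^ (r - 2)))))
        + ((2 * r * (r - 1) / 11) * (2 * x) * ((1 + x) ^ (r - 2) + (1 - x) ^ (r - 2)) +
          (2 * r * (r - 1) / 11) * x ^ 2 *
            ((r - 2) * (1 + x) ^ (r - 3) + -((r - 2) * (1 - x) ^ (r - 3)))))
    · simp; norm_num
    · intro x hx
      have hp : 0 < 1 + x := by linarith [hx.1]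
      have hm : 0 < 1 - x := by linarith [hx.2]
      have d0 := (hasDerivAt_P r hp).add (hasDerivAt_M r hm)
      have d1 := (hasDerivAt_P (r - 1) hp).sub (hasDerivAt_M (r - 1) hm)
      have d2 := (hasDerivAt_P (r - 2) hp).add (hasDerivAt_M (r - 2) hm)
      have e1 : r - 1 - 1 = r - 2 := by ring
      have e2 : r - 2 - 1 = r - 3 := by ring
      rw [e1] at d1
      rw [e2] at d2
      have c1 : HasDerivAt (fun v : ℝ => (4 * r / 11) * v) ((4 * r / 11) * 1) x :=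
        (hasDerivAt_id x).const_mul _
      have c2 : HasDerivAt (fun v : ℝ => (2 * r * (r - 1) / 11) * v ^ 2)
          ((2 * r * (r - 1) / 11) * (2 * x)) x := by
        have := (hasDerivAt_pow 2 x).const_mul (2 * r * (r - 1) / 11)
        exact this.congr_deriv (by push_cast; ring)
      have := ((d0.const_sub 2).add (c1.mul d1)).add (c2.mul d2)
      exact this
    · exact h2nd
  have key := nonneg_of_deriv (b := 1 / 2)
    (f := fun v : ℝ => 2 * v - ((1 + v) ^ (r + 1) - (1 - v) ^ (r + 1)) / (r + 1) +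
      (2 * r / 11) * v ^ 2 * ((1 + v) ^ (r - 1) - (1 - v) ^ (r - 1)))
    (f' := fun x => 2 - ((1 + x) ^ r + (1 - x) ^ r) +
        (4 * r / 11) * x * ((1 + x) ^ (r - 1) - (1 - x) ^ (r - 1)) +
        (2 * r * (r - 1) / 11) * x ^ 2 * ((1 + x) ^ (r - 2) + (1 - x) ^ (r - 2)))
    (by simp) ?_ h1st
  · have := key v hv
    linarith
  · intro x hx
    have hp : 0 < 1 + x := by linarith [hx.1]
    have hm : 0 < 1 - x := by linarith [hx.2]
    have d0 := ((hasDerivAt_P (r + 1) hp).sub (hasDerivAt_M (r + 1) hm)).div_const (r + 1)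
    have d1 := (hasDerivAt_P (r - 1) hp).sub (hasDerivAt_M (r - 1) hm)
    have e1 : r - 1 - 1 = r - 2 := by ring
    have e2 : r + 1 - 1 = r := by ring
    rw [e1] at d1
    rw [e2] at d0
    have c0 : HasDerivAt (fun v : ℝ => 2 * v) (2 * 1) x := (hasDerivAt_id x).const_mul _
    have c2 : HasDerivAt (fun v : ℝ => (2 * r / 11) * v ^ 2) ((2 * r / 11) * (2 * x)) x := by
      have := (hasDerivAt_pow 2 x).const_mul (2 * r / 11)
      exact this.congr_deriv (by push_cast; ring)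
    have := (c0.sub d0).add (c2.mul d1)
    exact this.congr_deriv (by simp only [Pi.sub_apply]; field_simp; ring)

lemma step_all {r : ℝ} (h2 : 2 ≤ r) {v : ℝ} (hv : v ∈ Icc (0 : ℝ) (1 / 2)) :
    ((1 + v) ^ (r + 1) - (1 - v) ^ (r + 1)) / (r + 1) -
      (2 * r / 11) * v ^ 2 * ((1 + v) ^ (r - 1) - (1 - v) ^ (r - 1)) ≤ 2 * v := by
  rcases le_total r 3 with h | h
  · exact step23 h2 h hv
  · exact step3 h hv

/-- **Euler–Maclaurin type lower bound**, valid for all `r ≥ 2`. -/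
lemma S_lower_K {r : ℝ} (h2 : 2 ≤ r) (k : ℕ) :
    ((k : ℝ) + 1 / 2) ^ (r + 1) / (r + 1) - r / 22 * ((k : ℝ) + 1 / 2) ^ (r - 1) ≤ S k r := by
  induction k with
  | zero =>
    rw [S_zero]
    have h1 : ((0 : ℕ) : ℝ) + 1 / 2 = 1 / 2 := by norm_num
    rw [h1]
    have h3 : ((1 : ℝ) / 2) ^ (r + 1) = (1 / 2) ^ (r - 1) * (1 / 4) := by
      rw [show r + 1 = (r - 1) + 2 by ring, Real.rpow_add (by norm_num)]
      norm_num
    rw [h3]
    have h4 : 0 < ((1 : ℝ) / 2) ^ (r - 1) := Real.rpow_pos_of_pos (by norm_num) _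
    have h5 : (1 : ℝ) / 4 / (r + 1) ≤ r / 22 := by
      rw [div_div, div_le_div_iff₀ (by positivity) (by norm_num)]
      nlinarith
    have : (1 / 2 : ℝ) ^ (r - 1) * (1 / 4) / (r + 1) = (1 / 2) ^ (r - 1) * (1 / 4 / (r + 1)) := by
      ring
    rw [this]
    nlinarith
  | succ m ih =>
    rw [S_succ]
    set x : ℝ := (m : ℝ) + 1 with hx
    have hx1 : 1 ≤ x := by rw [hx]; linarith [Nat.cast_nonneg (α := ℝ) m]
    have hx0 : 0 < x := by linarith
    set v : ℝ := 1 / (2 * x) with hv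
    have hvI : v ∈ Icc (0 : ℝ) (1 / 2) := by
      constructor
      · positivity
      · rw [hv]; apply one_div_le_one_div_of_le (by norm_num); linarith
    have hst := step_all h2 hvI
    have hp : 0 < 1 + v := by linarith [hvI.1]
    have hm : 0 < 1 - v := by linarith [hvI.2]
    have e1 : ((m + 1 : ℕ) : ℝ) + 1 / 2 = x * (1 + v) := by
      rw [hv, hx]; push_cast; field_simp; try ring_nf
    have e2 : (m : ℝ) + 1 / 2 = x * (1 - v) := by
      rw [hv, hx]; field_simp; ring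
    rw [e1]
    rw [e2] at ih
    rw [Real.mul_rpow hx0.le hp.le, Real.mul_rpow hx0.le hp.le]
    rw [Real.mul_rpow hx0.le hm.le, Real.mul_rpow hx0.le hm.le] at ih
    have ex1 : x ^ (r + 1) = x ^ (r - 1) * x ^ 2 := by
      rw [← Real.rpow_natCast x 2, ← Real.rpow_add hx0]; congr 1; push_cast; ring
    have ex2 : x ^ r = x ^ (r - 1) * x := by
      nth_rewrite 3 [← Real.rpow_one x]
      rw [← Real.rpow_add hx0]; congr 1; ring
    have hxr : 0 < x ^ (r - 1) := Real.rpow_pos_of_pos hx0 _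
    rw [ex1] at ih ⊢
    rw [ex2]
    have hxv : x * v = 1 / 2 := by rw [hv]; field_simp
    -- multiply the step inequality by x^(r-1) * x^2
    have h6 := mul_le_mul_of_nonneg_left hst (by positivity : 0 ≤ x ^ (r - 1) * x ^ 2)
    have h7 : x ^ (r - 1) * x ^ 2 * (((1 + v) ^ (r + 1) - (1 - v) ^ (r + 1)) / (r + 1) -
      (2 * r / 11) * v ^ 2 * ((1 + v) ^ (r - 1) - (1 - v) ^ (r - 1))) =
      x ^ (r - 1) * x ^ 2 * ((1 + v) ^ (r + 1) - (1 - v) ^ (r + 1)) / (r + 1) -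
      (2 * r / 11) * x ^ (r - 1) * (x * v) ^ 2 * ((1 + v) ^ (r - 1) - (1 - v) ^ (r - 1)) := by
      ring
    have h8 : x ^ (r - 1) * x ^ 2 * (2 * v) = x ^ (r - 1) * x * (2 * (x * v)) := by ring
    rw [h7, h8, hxv] at h6
    have h9 : x ^ (r - 1) * x ^ 2 * (1 + v) ^ (r + 1) / (r + 1) -
        x ^ (r - 1) * x ^ 2 * (1 - v) ^ (r + 1) / (r + 1) =
        x ^ (r - 1) * x ^ 2 * ((1 + v) ^ (r + 1) - (1 - v) ^ (r + 1)) / (r + 1) := by ring
    nlinarith

/-- step for `1 ≤ r ≤ 2`, with `a = r - 1`. -/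
lemma step12 {a : ℝ} (ha0 : 0 ≤ a) (ha1 : a ≤ 1) {u : ℝ} (hu : u ∈ Icc (0 : ℝ) (1 / 2)) :
    (1 + 2 * u) * (1 + u) ^ a - (1 - 2 * u) * (1 - u) ^ a ≤ 2 * (a + 2) * u := by
  have key := nonneg_of_deriv (b := 1 / 2)
    (f := fun u : ℝ => 2 * (a + 2) * u -
      ((1 + 2 * u) * (1 + u) ^ a - (1 - 2 * u) * (1 - u) ^ a))
    (f' := fun u : ℝ => 2 * (a + 2) -
      ((2 * (1 + u) ^ a + (1 + 2 * u) * (a * (1 + u) ^ (a - 1))) -
        (-2 * (1 - u) ^ a + (1 - 2 * u) * -(a * (1 - u) ^ (a - 1)))))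
    (by simp) ?_ ?_
  · have := key u hu
    linarith
  · intro x hx
    have hp : 0 < 1 + x := by linarith [hx.1]
    have hm : 0 < 1 - x := by linarith [hx.2]
    have c0 : HasDerivAt (fun v : ℝ => 2 * (a + 2) * v) (2 * (a + 2)) x := by
      simpa using (hasDerivAt_id x).const_mul (2 * (a + 2))
    have c1 : HasDerivAt (fun v : ℝ => 1 + 2 * v) 2 x := by
      simpa using ((hasDerivAt_id x).const_mul 2).const_add 1
    have c2 : HasDerivAt (fun v : ℝ => 1 - 2 * v) (-2) x := by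
      simpa using ((hasDerivAt_id x).const_mul 2).const_sub 1
    have d1 := c1.mul (hasDerivAt_P a hp)
    have d2 := c2.mul (hasDerivAt_M a hm)
    exact c0.sub (d1.sub d2)
  · intro x hx
    have hp : 0 < 1 + x := by linarith [hx.1]
    have hm : 0 < 1 - x := by linarith [hx.2]
    have h1 := L1 ha0 ha1 (v := x) (by linarith [hx.1]) (by linarith [hx.2])
    have h2 := L1neg (b := a - 1) (by linarith) hx.1 (by linarith [hx.2])
    have ep : (1 + x) ^ a = (1 + x) ^ (a - 1) * (1 + x) := by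
      nth_rewrite 3 [← Real.rpow_one (1 + x)]
      rw [← Real.rpow_add hp]; congr 1; ring
    have em : (1 - x) ^ a = (1 - x) ^ (a - 1) * (1 - x) := by
      nth_rewrite 3 [← Real.rpow_one (1 - x)]
      rw [← Real.rpow_add hm]; congr 1; ring
    have e : ((2 * (1 + x) ^ a + (1 + 2 * x) * (a * (1 + x) ^ (a - 1))) -
        (-2 * (1 - x) ^ a + (1 - 2 * x) * -(a * (1 - x) ^ (a - 1)))) =
        (2 + 2 * a) * ((1 + x) ^ a + (1 - x) ^ a) -
          a * ((1 + x) ^ (a - 1) + (1 - x) ^ (a - 1)) := by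
      rw [ep, em]; ring
    rw [e]
    nlinarith [mul_le_mul_of_nonneg_left h1 (by linarith : 0 ≤ 2 + 2 * a),
      mul_le_mul_of_nonneg_left h2 ha0]

/-- Lower bound for `1 ≤ r ≤ 2`. -/
lemma S_lower_12 {r : ℝ} (h1 : 1 ≤ r) (h2 : r ≤ 2) (k : ℕ) :
    (k : ℝ) * (k + 1) * ((k : ℝ) + 1 / 2) ^ (r - 1) / (r + 1) ≤ S k r := by
  induction k with
  | zero => rw [S_zero]; simp
  | succ m ih =>
    rw [S_succ]
    set x : ℝ := (m : ℝ) + 1 with hx
    have hx1 : 1 ≤ x := by rw [hx]; linarith [Nat.cast_nonneg (α := ℝ) m]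
    have hx0 : 0 < x := by linarith
    set v : ℝ := 1 / (2 * x) with hv
    have hvI : v ∈ Icc (0 : ℝ) (1 / 2) := by
      constructor
      · positivity
      · rw [hv]; apply one_div_le_one_div_of_le (by norm_num); linarith
    have hst := step12 (a := r - 1) (by linarith) (by linarith) hvI
    have hxx : x - 1 + 1 = x := by ring
    have hp : 0 < 1 + v := by linarith [hvI.1]
    have hm : 0 < 1 - v := by linarith [hvI.2]
    have e1 : ((m + 1 : ℕ) : ℝ) + 1 / 2 = x * (1 + v) := by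
      rw [hv, hx]; push_cast; field_simp; try ring_nf
    have e2 : (m : ℝ) + 1 / 2 = x * (1 - v) := by
      rw [hv, hx]; field_simp; ring
    have e3 : ((m + 1 : ℕ) : ℝ) = x := by rw [hx]; push_cast; ring
    have e4 : (m : ℝ) = x - 1 := by rw [hx]; ring
    rw [e1, e3]
    rw [e2] at ih
    rw [e4] at ih
    rw [Real.mul_rpow hx0.le hp.le]
    rw [Real.mul_rpow hx0.le hm.le] at ih
    have hxv : x * v = 1 / 2 := by rw [hv]; field_simp
    have ex2 : x ^ r = x ^ (r - 1) * x := by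
      nth_rewrite 3 [← Real.rpow_one x]
      rw [← Real.rpow_add hx0]; congr 1; ring
    rw [ex2]
    have hxr : 0 < x ^ (r - 1) := Real.rpow_pos_of_pos hx0 _
    have hr1 : 0 < r + 1 := by linarith
    have h6 := mul_le_mul_of_nonneg_left hst (by positivity : 0 ≤ x ^ (r - 1) * x ^ 2)
    have h7 : x ^ (r - 1) * x ^ 2 * ((1 + 2 * v) * (1 + v) ^ (r - 1) -
        (1 - 2 * v) * (1 - v) ^ (r - 1)) =
        x ^ (r - 1) * x * ((x + 2 * (x * v)) * (1 + v) ^ (r - 1) -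
          (x - 2 * (x * v)) * (1 - v) ^ (r - 1)) := by ring
    have h8 : x ^ (r - 1) * x ^ 2 * (2 * (r - 1 + 2) * v) =
        x ^ (r - 1) * x * (2 * (r + 1) * (x * v)) := by ring
    rw [h7, h8, hxv] at h6
    have h9 : x * (x + 1) * (x ^ (r - 1) * (1 + v) ^ (r - 1)) / (r + 1) -
        (x - 1) * x * (x ^ (r - 1) * (1 - v) ^ (r - 1)) / (r + 1) ≤
        x ^ (r - 1) * x := by
      rw [← sub_div, div_le_iff₀ hr1]
      nlinarith
    linarith

/-- crude integral lower bound -/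
lemma S_lower_int {r : ℝ} (h0 : 0 ≤ r) (k : ℕ) : (k : ℝ) ^ (r + 1) / (r + 1) ≤ S k r := by
  induction k with
  | zero =>
    rw [S_zero]
    have : ((0 : ℕ) : ℝ) ^ (r + 1) = 0 := by
      rw [Nat.cast_zero, Real.zero_rpow (by linarith)]
    rw [this]; simp
  | succ m ih =>
    rw [S_succ]
    have hr1 : 0 < r + 1 := by linarith
    set x : ℝ := (m : ℝ) + 1 with hx
    have hx1 : 1 ≤ x := by rw [hx]; linarith [Nat.cast_nonneg (α := ℝ) m]
    have hx0 : 0 < x := by linarith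
    have e3 : ((m + 1 : ℕ) : ℝ) = x := by rw [hx]; push_cast; ring
    have e4 : (m : ℝ) = x * (1 + -(1 / x)) := by rw [hx]; field_simp; ring
    have hb := one_add_mul_self_le_rpow_one_add (s := -(1 / x)) (p := r + 1)
      (by rw [neg_le_neg_iff, div_le_one hx0]; exact hx1) (by linarith)
    have hs : 0 ≤ 1 + -(1 / x) := by
      have : 1 / x ≤ 1 := by rw [div_le_one hx0]; exact hx1
      linarith
    rw [e4, Real.mul_rpow hx0.le hs] at ih
    rw [e3]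
    have ex : x ^ (r + 1) = x ^ r * x := by rw [Real.rpow_add hx0, Real.rpow_one]
    have hxr : 0 < x ^ r := Real.rpow_pos_of_pos hx0 _
    rw [ex] at ih ⊢
    have h5 := mul_le_mul_of_nonneg_left hb (by positivity : 0 ≤ x ^ r * x)
    have h6 : x ^ r * x * (1 + (r + 1) * -(1 / x)) = x ^ r * x - (r + 1) * x ^ r := by
      field_simp
      ring
    rw [h6] at h5
    have h7 : x ^ r * x / (r + 1) - x ^ r ≤ x ^ r * x * (1 + -(1 / x)) ^ (r + 1) / (r + 1) := by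
      rw [le_div_iff₀ hr1, sub_mul, div_mul_cancel₀ _ hr1.ne']
      linarith
    linarith

end Pool.Agent.Helper69.MH
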