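import Pool.Agent.Helper69.MH.Numeric

/-!
Main comparison: for every `r ≥ 1` and `1 ≤ n ≤ k` there is `j ≥ 1` with
`n (2k+1-2n)^r ≤ g(j;r) S(k;r)`.
-/

namespace Pool.Agent.Helper69.MH

open Set

/-- chain of comparison for `r ≥ 9/4` -/
lemma chain_b {r : ℝ} (hr : 9 / 4 ≤ r) : ∃ j : ℕ, 1 ≤ j ∧ 81 / 80 * base r ≤ g j r := by
  rcases le_total r 3 with h3 | h3
  · refine ⟨3, by norm_num, ?_⟩
    apply interp' (by norm_num) (a := 9 / 4) (b := 3) (by norm_num) (by norm_num) _ _ hr h3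
    · rw [S_three]
      have h1 := two_9_4
      have h2 := three_9_4
      have h4 := five_9_4
      have h5 := base_9_4
      have h6 := base_pos (r := 9 / 4) (by norm_num)
      have e : (2 * ((3 : ℕ) : ℝ) - 1) = 5 := by norm_num
      rw [e]
      calc 81 / 80 * ((1 + 2 ^ (9 / 4 : ℝ) + 3 ^ (9 / 4 : ℝ)) * base (9 / 4))
          ≤ 81 / 80 * ((1 + 4.757 + 11.8447) * 2.0802) := by gcongr
        _ ≤ 37.38 := by norm_num
        _ ≤ _ := h4
    · have := check_nat (j := 3) (m := 3) (C := 81 / 80)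
        (by norm_num [Finset.sum_Icc_succ_top])
      exact_mod_cast this
  rcases le_total r 4 with h4 | h4
  · refine ⟨4, by norm_num, ?_⟩
    apply interp' (by norm_num) (a := 3) (b := 4) (by norm_num) (by norm_num) _ _ h3 h4
    · have := check_nat (j := 4) (m := 3) (C := 81 / 80)
        (by norm_num [Finset.sum_Icc_succ_top])
      exact_mod_cast this
    · have := check_nat (j := 4) (m := 4) (C := 81 / 80)
        (by norm_num [Finset.sum_Icc_succ_top])
      exact_mod_cast this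
  rcases le_total r 6 with h6 | h6
  · refine ⟨5, by norm_num, ?_⟩
    apply interp' (by norm_num) (a := 4) (b := 6) (by norm_num) (by norm_num) _ _ h4 h6
    · have := check_nat (j := 5) (m := 4) (C := 81 / 80)
        (by norm_num [Finset.sum_Icc_succ_top])
      exact_mod_cast this
    · have := check_nat (j := 5) (m := 6) (C := 81 / 80)
        (by norm_num [Finset.sum_Icc_succ_top])
      exact_mod_cast this
  rcases le_total r 9 with h9 | h9
  · refine ⟨7, by norm_num, ?_⟩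
    apply interp' (by norm_num) (a := 6) (b := 9) (by norm_num) (by norm_num) _ _ h6 h9
    · have := check_nat (j := 7) (m := 6) (C := 81 / 80)
        (by norm_num [Finset.sum_Icc_succ_top])
      exact_mod_cast this
    · have := check_nat (j := 7) (m := 9) (C := 81 / 80)
        (by norm_num [Finset.sum_Icc_succ_top])
      exact_mod_cast this
  rcases le_total r 13 with h13 | h13
  · refine ⟨10, by norm_num, ?_⟩
    apply interp' (by norm_num) (a := 9) (b := 13) (by norm_num) (by norm_num) _ _ h9 h13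
    · have := check_nat (j := 10) (m := 9) (C := 81 / 80)
        (by norm_num [Finset.sum_Icc_succ_top])
      exact_mod_cast this
    · have := check_nat (j := 10) (m := 13) (C := 81 / 80)
        (by norm_num [Finset.sum_Icc_succ_top])
      exact_mod_cast this
  rcases le_total r 19 with h19 | h19
  · refine ⟨14, by norm_num, ?_⟩
    apply interp' (by norm_num) (a := 13) (b := 19) (by norm_num) (by norm_num) _ _ h13 h19
    · have := check_nat (j := 14) (m := 13) (C := 81 / 80)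
        (by norm_num [Finset.sum_Icc_succ_top])
      exact_mod_cast this
    · have := check_nat (j := 14) (m := 19) (C := 81 / 80)
        (by norm_num [Finset.sum_Icc_succ_top])
      exact_mod_cast this
  rcases le_total r 27 with h27 | h27
  · refine ⟨20, by norm_num, ?_⟩
    apply interp' (by norm_num) (a := 19) (b := 27) (by norm_num) (by norm_num) _ _ h19 h27
    · have := check_nat (j := 20) (m := 19) (C := 81 / 80)
        (by norm_num [Finset.sum_Icc_succ_top])
      exact_mod_cast this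
    · have := check_nat (j := 20) (m := 27) (C := 81 / 80)
        (by norm_num [Finset.sum_Icc_succ_top])
      exact_mod_cast this
  rcases le_total r 38 with h38 | h38
  · refine ⟨28, by norm_num, ?_⟩
    apply interp' (by norm_num) (a := 27) (b := 38) (by norm_num) (by norm_num) _ _ h27 h38
    · have := check_nat (j := 28) (m := 27) (C := 81 / 80)
        (by norm_num [Finset.sum_Icc_succ_top])
      exact_mod_cast this
    · have := check_nat (j := 28) (m := 38) (C := 81 / 80)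
        (by norm_num [Finset.sum_Icc_succ_top])
      exact_mod_cast this
  exact big_r h38

/-- chain of comparison for `2 ≤ r ≤ 9/4` -/
lemma chain_a {r : ℝ} (h2 : 2 ≤ r) (hr : r ≤ 9 / 4) :
    ∃ j : ℕ, 1 ≤ j ∧ 5041 / 5000 * base r ≤ g j r := by
  rcases le_total r (41 / 20) with h | h
  · refine ⟨2, by norm_num, ?_⟩
    apply interp' (by norm_num) (a := 2) (b := 41 / 20) (by norm_num) (by norm_num) _ _ h2 h
    · have := check_nat (j := 2) (m := 2) (C := 5041 / 5000)
        (by norm_num [Finset.sum_Icc_succ_top])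
      exact_mod_cast this
    · rw [S_two]
      have h1 := two_41_20
      have h4 := three_41_20
      have h5 := base_41_20
      have h6 := base_pos (r := 41 / 20) (by norm_num)
      have e : (2 * ((2 : ℕ) : ℝ) - 1) = 3 := by norm_num
      rw [e]
      calc 5041 / 5000 * ((1 + 2 ^ (41 / 20 : ℝ)) * base (41 / 20))
          ≤ 5041 / 5000 * ((1 + 4.14107) * 1.83398) := by gcongr
        _ ≤ 9.5082 := by norm_num
        _ ≤ _ := h4
  · refine ⟨3, by norm_num, ?_⟩
    apply interp' (by norm_num) (a := 41 / 20) (b := 9 / 4) (by norm_num) (by norm_num) _ _ h hr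
    · rw [S_three]
      have h1 := two_41_20
      have h2 := three_41_20_le
      have h4 := five_41_20
      have h5 := base_41_20
      have h6 := base_pos (r := 41 / 20) (by norm_num)
      have e : (2 * ((3 : ℕ) : ℝ) - 1) = 5 := by norm_num
      rw [e]
      calc 5041 / 5000 * ((1 + 2 ^ (41 / 20 : ℝ) + 3 ^ (41 / 20 : ℝ)) * base (41 / 20))
          ≤ 5041 / 5000 * ((1 + 4.14107 + 9.50827) * 1.83398) := by gcongr
        _ ≤ 27.09 := by norm_num
        _ ≤ _ := h4
    · rw [S_three]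
      have h1 := two_9_4
      have h2 := three_9_4
      have h4 := five_9_4
      have h5 := base_9_4
      have h6 := base_pos (r := 9 / 4) (by norm_num)
      have e : (2 * ((3 : ℕ) : ℝ) - 1) = 5 := by norm_num
      rw [e]
      calc 5041 / 5000 * ((1 + 2 ^ (9 / 4 : ℝ) + 3 ^ (9 / 4 : ℝ)) * base (9 / 4))
          ≤ 5041 / 5000 * ((1 + 4.757 + 11.8447) * 2.0802) := by gcongr
        _ ≤ 37.38 := by norm_num
        _ ≤ _ := h4

/-- `g(2;r)` dominates for `11/10 ≤ r ≤ 2` -/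
lemma g2_base {r : ℝ} (h1 : 11 / 10 ≤ r) (h2 : r ≤ 2) : 121 / 120 * base r ≤ g 2 r := by
  apply interp' (by norm_num) (a := 11 / 10) (b := 2) (by norm_num) (by norm_num) _ _ h1 h2
  · rw [S_two]
    have h1 := two_11_10
    have h4 := three_11_10
    have h5 := base_11_10
    have h6 := base_pos (r := 11 / 10) (by norm_num)
    have e : (2 * ((2 : ℕ) : ℝ) - 1) = 3 := by norm_num
    rw [e]
    calc 121 / 120 * ((1 + 2 ^ (11 / 10 : ℝ)) * base (11 / 10))
        ≤ 121 / 120 * ((1 + 2.1436) * 1.0526) := by gcongr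
      _ ≤ 3.348 := by norm_num
      _ ≤ _ := h4
  · have := check_nat (j := 2) (m := 2) (C := 121 / 120)
      (by norm_num [Finset.sum_Icc_succ_top])
    exact_mod_cast this

lemma g_two (r : ℝ) : g 2 r = 3 ^ r / (1 + 2 ^ r) := by
  unfold g; rw [S_two]; norm_num

lemma exp_one_sixteenth : Real.exp (1 / 16) ≤ 1.0645 := by
  have h := Real.exp_one_lt_d9
  have h1 : Real.exp (1 / 16) ^ 16 = Real.exp 1 := by
    rw [← Real.exp_nat_mul]; norm_num
  by_contra hneg
  push Not at hneg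
  have h2 : (1.0645 : ℝ) ^ 16 < Real.exp (1 / 16) ^ 16 :=
    pow_lt_pow_left₀ hneg (by norm_num) (by norm_num)
  rw [h1] at h2
  norm_num at h2 h
  linarith

/-- `g(2;1+ε) ≥ e^{5ε/8}` for `0 ≤ ε ≤ 1/10`. -/
lemma g2_exp {r : ℝ} (h1 : 1 ≤ r) (h2 : r ≤ 11 / 10) : Real.exp (5 / 8 * (r - 1)) ≤ g 2 r := by
  rw [g_two]
  set t := 10 * (r - 1) with ht
  have ht0 : 0 ≤ t := by linarith
  have ht1 : t ≤ 1 := by linarith
  have hr : r = (1 - t) * 1 + t * (11 / 10) := by rw [ht]; ring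
  have hS := S_logconvex (k := 2) (by norm_num) 1 (11 / 10) t ht0 ht1
  rw [← hr, S_two, S_two, S_two] at hS
  have hS1 : (1 : ℝ) + 2 ^ (1 : ℝ) = 3 := by norm_num
  rw [hS1] at hS
  have hpos : 0 < 1 + (2 : ℝ) ^ r := by positivity
  rw [le_div_iff₀ hpos]
  have hx : (1 : ℝ) + 2 ^ (11 / 10 : ℝ) ≤ 3.1436 := by
    have := two_11_10; norm_num at this ⊢; linarith
  have h3 : (3 : ℝ) ^ r = 3 ^ (1 - t) * (3 ^ (11 / 10 : ℝ)) ^ t := by
    rw [← Real.rpow_mul (by norm_num), ← Real.rpow_add (by norm_num)]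
    congr 1
    rw [hr]; ring
  have h4 : Real.exp (5 / 8 * (r - 1)) = (Real.exp (1 / 16)) ^ t := by
    rw [← Real.exp_mul]; congr 1; rw [ht]; ring
  rw [h3, h4]
  have h5 : Real.exp (1 / 16) * (1 + 2 ^ (11 / 10 : ℝ)) ≤ 3 ^ (11 / 10 : ℝ) := by
    have h6 := exp_one_sixteenth
    have h7 := three_11_10
    have h8 : (0 : ℝ) < 1 + 2 ^ (11 / 10 : ℝ) := by positivity
    calc Real.exp (1 / 16) * (1 + 2 ^ (11 / 10 : ℝ)) ≤ 1.0645 * 3.1436 := by gcongr
      _ ≤ 3.348 := by norm_num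
      _ ≤ _ := h7
  calc (Real.exp (1 / 16)) ^ t * (1 + 2 ^ r)
      ≤ (Real.exp (1 / 16)) ^ t * (3 ^ (1 - t) * (1 + 2 ^ (11 / 10 : ℝ)) ^ t) := by gcongr
    _ = 3 ^ (1 - t) * (Real.exp (1 / 16) * (1 + 2 ^ (11 / 10 : ℝ))) ^ t := by
        rw [Real.mul_rpow (Real.exp_pos _).le (by positivity)]; ring
    _ ≤ 3 ^ (1 - t) * (3 ^ (11 / 10 : ℝ)) ^ t := by gcongr

/-- key inequality near `r = 1`. -/
lemma near_one_key {ε k n K Y w : ℝ} (hε0 : 0 ≤ ε) (hε1 : ε ≤ 1 / 10) (hk5 : 5 ≤ k)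
    (hn0 : 0 < n) (hK : K = k + 1 / 2) (hY : Y = 2 * k + 1 - 2 * n) (hY0 : 0 < Y)
    (hYK : Y = K * (1 + w)) (hint : 2 * (n * Y) ≤ k * (k + 1)) :
    n * Y * (2 * Real.exp (ε / 2)) * Real.exp (ε * w) ≤
      Real.exp (5 / 8 * ε) * (k * (k + 1)) := by
  have hK0 : 0 < K := by linarith
  have hk0 : 0 < k := by linarith
  have e0 : n * Y * (2 * Real.exp (ε / 2)) * Real.exp (ε * w) =
      (2 * (n * Y)) * Real.exp (ε / 2 + ε * w) := by
    rw [Real.exp_add]; ring
  rw [e0]
  rcases le_total w (1 / 8) with hw8 | hw8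
  · have e1 : ε / 2 + ε * w ≤ 5 / 8 * ε := by nlinarith
    have e2 := Real.exp_le_exp.mpr e1
    calc (2 * (n * Y)) * Real.exp (ε / 2 + ε * w)
        ≤ (k * (k + 1)) * Real.exp (5 / 8 * ε) := by
          apply mul_le_mul hint e2 (Real.exp_pos _).le (by positivity)
      _ = _ := by ring
  · have h3 : 2 * (n * Y) = K ^ 2 * (1 - w ^ 2) := by
      have hn2 : n = K * (1 - w) / 2 := by
        have h : Y = 2 * K - 2 * n := by rw [hY, hK]; ring
        rw [hYK] at h
        linarith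
      rw [hn2, hYK]; ring
    have h4 : 1 - w ^ 2 ≤ Real.exp (-(w ^ 2)) := by
      have := Real.add_one_le_exp (-(w ^ 2)); linarith
    have h5 : K ^ 2 ≤ (k * (k + 1)) * Real.exp (1 / 120) := by
      have h6 : 1 + 1 / 120 ≤ Real.exp (1 / 120) := by
        have := Real.add_one_le_exp (1 / 120 : ℝ); linarith
      calc K ^ 2 ≤ (k * (k + 1)) * (1 + 1 / 120) := by rw [hK]; nlinarith
        _ ≤ _ := by
          apply mul_le_mul_of_nonneg_left h6 (by positivity)
    have hw1 : 0 ≤ 1 - w ^ 2 := by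
      have h : 0 < 2 * (n * Y) := by positivity
      rw [h3] at h
      by_contra hneg
      push Not at hneg
      have h2 : K ^ 2 * (1 - w ^ 2) ≤ 0 :=
        mul_nonpos_of_nonneg_of_nonpos (sq_nonneg K) hneg.le
      linarith
    have h8 : 1 / 120 + -(w ^ 2) + (ε / 2 + ε * w) ≤ 5 / 8 * ε := by
      have h7 : ε * (w - 1 / 8) ≤ 1 / 10 * (w - 1 / 8) :=
        mul_le_mul_of_nonneg_right hε1 (by linarith)
      nlinarith [sq_nonneg (w - 1 / 20)]
    have h9 := Real.exp_le_exp.mpr h8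
    rw [h3]
    calc K ^ 2 * (1 - w ^ 2) * Real.exp (ε / 2 + ε * w)
        ≤ ((k * (k + 1)) * Real.exp (1 / 120)) * Real.exp (-(w ^ 2)) *
          Real.exp (ε / 2 + ε * w) := by
          apply mul_le_mul_of_nonneg_right _ (Real.exp_pos _).le
          apply mul_le_mul h5 h4 hw1 (by positivity)
      _ = (k * (k + 1)) * Real.exp (1 / 120 + -(w ^ 2) + (ε / 2 + ε * w)) := by
          rw [Real.exp_add (1 / 120 + -(w ^ 2)) (ε / 2 + ε * w), Real.exp_add (1 / 120) (-(w ^ 2))]
          ring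
      _ ≤ (k * (k + 1)) * Real.exp (5 / 8 * ε) := by
          apply mul_le_mul_of_nonneg_left h9 (by positivity)
      _ = _ := by ring

/-- near `r = 1`. -/
lemma near_one {r : ℝ} (h1 : 1 ≤ r) (h2 : r ≤ 11 / 10) {k n : ℕ} (hn : 1 ≤ n) (hnk : n ≤ k)
    (hk : 5 ≤ k) :
    (n : ℝ) * (2 * (k : ℝ) + 1 - 2 * n) ^ r ≤ g 2 r * S k r := by
  have hnR : (1 : ℝ) ≤ n := by exact_mod_cast hn
  have hkR : (n : ℝ) ≤ k := by exact_mod_cast hnk
  have hk5 : (5 : ℝ) ≤ k := by exact_mod_cast hk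
  have hk0 : (0 : ℝ) < k := by linarith
  obtain ⟨ε, hε⟩ : ∃ ε, ε = r - 1 := ⟨_, rfl⟩
  have hε0 : 0 ≤ ε := by linarith
  have hε1 : ε ≤ 1 / 10 := by linarith
  obtain ⟨K, hK⟩ : ∃ K : ℝ, K = (k : ℝ) + 1 / 2 := ⟨_, rfl⟩
  obtain ⟨Y, hY⟩ : ∃ Y : ℝ, Y = 2 * (k : ℝ) + 1 - 2 * n := ⟨_, rfl⟩
  rw [← hY]
  have hK0 : 0 < K := by linarith
  have hY1 : 1 ≤ Y := by linarith
  have hY0 : 0 < Y := by linarith
  have hS := S_lower_12 h1 (by linarith) k
  rw [← hK, ← hε] at hS
  have hg := g2_exp h1 h2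
  rw [← hε] at hg
  have hg0 : 0 < g 2 r := g_pos (by norm_num) r
  have hYr : Y ^ r = Y * Y ^ ε := by
    rw [hε, Real.rpow_sub_one hY0.ne']; field_simp
  have hr2 : r + 1 = 2 + ε := by rw [hε]; ring
  have h2e : 2 + ε ≤ 2 * Real.exp (ε / 2) := by
    have := Real.add_one_le_exp (ε / 2); linarith
  have hKe : 0 < K ^ ε := Real.rpow_pos_of_pos hK0 _
  obtain ⟨w, hw⟩ : ∃ w, w = Y / K - 1 := ⟨_, rfl⟩
  have hYK : Y = K * (1 + w) := by rw [hw]; field_simp; ring
  have hw0 : 0 < 1 + w := by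
    rw [hw]; have : 0 < Y / K := by positivity
    linarith
  have hYe : Y ^ ε ≤ K ^ ε * Real.exp (ε * w) := by
    rw [hYK, Real.mul_rpow hK0.le hw0.le]
    apply mul_le_mul_of_nonneg_left _ hKe.le
    have h3 : 1 + w ≤ Real.exp w := by have := Real.add_one_le_exp w; linarith
    calc (1 + w) ^ ε ≤ (Real.exp w) ^ ε := Real.rpow_le_rpow hw0.le h3 hε0
      _ = Real.exp (ε * w) := by rw [← Real.exp_mul]; congr 1; ring
  have hint : 2 * ((n : ℝ) * Y) ≤ k * (k + 1) := by
    have h3 : (1 : ℤ) ≤ (2 * (k : ℤ) + 1 - 4 * n) ^ 2 := by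
      have h4 : (2 * (k : ℤ) + 1 - 4 * n) ≠ 0 := by omega
      have h5 : 0 < (2 * (k : ℤ) + 1 - 4 * n) ^ 2 := by positivity
      omega
    have h3' : (1 : ℝ) ≤ (2 * (k : ℝ) + 1 - 4 * n) ^ 2 := by exact_mod_cast h3
    rw [hY]
    nlinarith
  have key := near_one_key hε0 hε1 hk5 (by linarith : (0:ℝ) < n) hK hY hY0 hYK hint
  have hn0 : (0 : ℝ) < n := by linarith
  rw [hYr]
  have s1 : (n : ℝ) * (Y * Y ^ ε) ≤ (n : ℝ) * (Y * (K ^ ε * Real.exp (ε * w))) := by
    apply mul_le_mul_of_nonneg_left _ hn0.le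
    exact mul_le_mul_of_nonneg_left hYe hY0.le
  have s2 : (n : ℝ) * (Y * (K ^ ε * Real.exp (ε * w))) * (2 + ε) ≤
      Real.exp (5 / 8 * ε) * (k * (k + 1)) * K ^ ε := by
    calc (n : ℝ) * (Y * (K ^ ε * Real.exp (ε * w))) * (2 + ε)
        = ((n : ℝ) * Y * Real.exp (ε * w) * K ^ ε) * (2 + ε) := by ring
      _ ≤ ((n : ℝ) * Y * Real.exp (ε * w) * K ^ ε) * (2 * Real.exp (ε / 2)) := by
          apply mul_le_mul_of_nonneg_left h2e (by positivity)
      _ = ((n : ℝ) * Y * (2 * Real.exp (ε / 2)) * Real.exp (ε * w)) * K ^ ε := by ring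
      _ ≤ _ := mul_le_mul_of_nonneg_right key hKe.le
  have s3 : Real.exp (5 / 8 * ε) * (k * (k + 1)) * K ^ ε / (r + 1) ≤ g 2 r * S k r := by
    calc Real.exp (5 / 8 * ε) * (k * (k + 1)) * K ^ ε / (r + 1)
        = Real.exp (5 / 8 * ε) * (k * (k + 1) * K ^ ε / (r + 1)) := by ring
      _ ≤ g 2 r * S k r := by
          apply mul_le_mul hg hS (by positivity) hg0.le
  refine s1.trans (le_trans ?_ s3)
  rw [le_div_iff₀ (by linarith), hr2]
  exact s2

/-- Jensen for `x^r` with two points. -/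
lemma jensen2 {r x y a : ℝ} (h1 : 1 ≤ r) (hx : 0 ≤ x) (hy : 0 ≤ y) (ha0 : 0 ≤ a) (ha1 : a ≤ 1) :
    (a * x + (1 - a) * y) ^ r ≤ a * x ^ r + (1 - a) * y ^ r := by
  have := (convexOn_rpow h1).2 (mem_Ici.mpr hx) (mem_Ici.mpr hy) ha0 (by linarith : 0 ≤ 1 - a)
    (by ring)
  simpa using this

/-- small `k`, `n ≥ 2`, `r ≥ 1`: dominated by `g 2`. -/
lemma small_k {r : ℝ} (h1 : 1 ≤ r) {k n : ℕ} (hn : 2 ≤ n) (hnk : n ≤ k) (hk : k ≤ 4) :
    (n : ℝ) * (2 * (k : ℝ) + 1 - 2 * n) ^ r ≤ g 2 r * S k r := by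
  have h2r : (2 : ℝ) ≤ 2 ^ r := by
    calc (2 : ℝ) = 2 ^ (1 : ℝ) := (Real.rpow_one _).symm
      _ ≤ 2 ^ r := Real.rpow_le_rpow_of_exponent_le (by norm_num) h1
  have h3r : (3 : ℝ) ≤ 3 ^ r := by
    calc (3 : ℝ) = 3 ^ (1 : ℝ) := (Real.rpow_one _).symm
      _ ≤ 3 ^ r := Real.rpow_le_rpow_of_exponent_le (by norm_num) h1
  have h4r : (4 : ℝ) ^ r = 2 ^ r * 2 ^ r := by
    rw [← Real.mul_rpow (by norm_num) (by norm_num)]; norm_num
  -- 1 + 2^r ≤ 3^r
  have h12 : 1 + (2 : ℝ) ^ r ≤ 3 ^ r := by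
    have a1 := jensen2 (x := 3) (y := 0) (a := 1 / 3) h1 (by norm_num) (by norm_num)
      (by norm_num) (by norm_num)
    have a2 := jensen2 (x := 3) (y := 0) (a := 2 / 3) h1 (by norm_num) (by norm_num)
      (by norm_num) (by norm_num)
    rw [Real.zero_rpow (by linarith)] at a1 a2
    norm_num at a1 a2
    linarith
  have hpos : 0 < 1 + (2 : ℝ) ^ r := by positivity
  rw [g_two, div_mul_eq_mul_div, le_div_iff₀ hpos]
  have hk2 : 2 ≤ k := hn.trans hnk
  interval_cases k
  · -- k = 2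
    have : n = 2 := by omega
    subst this
    rw [S_two]
    norm_num
    nlinarith
  · -- k = 3
    rw [S_three]
    have : n = 2 ∨ n = 3 := by omega
    rcases this with rfl | rfl
    · norm_num
      nlinarith
    · norm_num
      nlinarith
  · -- k = 4
    rw [S_four]
    have : n = 2 ∨ n = 3 ∨ n = 4 := by omega
    rcases this with rfl | rfl | rfl
    · norm_num
      have b1 := jensen2 (x := 12) (y := 9) (a := 1 / 3) h1 (by norm_num) (by norm_num)
        (by norm_num) (by norm_num)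
      have b2 := jensen2 (x := 12) (y := 6) (a := 2 / 3) h1 (by norm_num) (by norm_num)
        (by norm_num) (by norm_num)
      have b3 := jensen2 (x := 9) (y := 3) (a := 1 / 3) h1 (by norm_num) (by norm_num)
        (by norm_num) (by norm_num)
      have b4 := jensen2 (x := 6) (y := 3) (a := 2 / 3) h1 (by norm_num) (by norm_num)
        (by norm_num) (by norm_num)
      norm_num at b1 b2 b3 b4
      have e10 : (10 : ℝ) ^ r = 5 ^ r * 2 ^ r := by
        rw [← Real.mul_rpow (by norm_num) (by norm_num)]; norm_num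
      have e12 : (12 : ℝ) ^ r = 3 ^ r * 4 ^ r := by
        rw [← Real.mul_rpow (by norm_num) (by norm_num)]; norm_num
      have e9 : (9 : ℝ) ^ r = 3 ^ r * 3 ^ r := by
        rw [← Real.mul_rpow (by norm_num) (by norm_num)]; norm_num
      have e6 : (6 : ℝ) ^ r = 3 ^ r * 2 ^ r := by
        rw [← Real.mul_rpow (by norm_num) (by norm_num)]; norm_num
      rw [e10, e12, e9] at b1
      rw [e10, e12, e6] at b2
      rw [e9] at b3
      rw [e6] at b4
      nlinarith
    · norm_num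
      rw [h4r]
      nlinarith
    · norm_num
      rw [h4r]
      nlinarith

/-- **Main comparison.** -/
theorem main_bound {r : ℝ} (h1 : 1 ≤ r) {k n : ℕ} (hn : 1 ≤ n) (hnk : n ≤ k) :
    ∃ j : ℕ, 1 ≤ j ∧ (n : ℝ) * (2 * (k : ℝ) + 1 - 2 * n) ^ r ≤ g j r * S k r := by
  have hk1 : 1 ≤ k := hn.trans hnk
  rcases Nat.eq_or_lt_of_le hn with hn1 | hn2
  · -- n = 1
    refine ⟨k, hk1, ?_⟩
    unfold g
    rw [div_mul_cancel₀ _ (S_pos hk1 r).ne', ← hn1]
    have : (2 * (k : ℝ) + 1 - 2 * ((1 : ℕ) : ℝ)) = 2 * k - 1 := by push_cast; ring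
    rw [this]; simp
  · have hn2 : 2 ≤ n := hn2
    rcases le_total r 2 with h2 | h2
    · refine ⟨2, by norm_num, ?_⟩
      rcases Nat.lt_or_ge k 5 with hk | hk
      · exact small_k h1 hn2 hnk (by omega)
      · rcases le_total r (11 / 10) with h | h
        · exact near_one h1 h hn hnk hk
        · refine (phi_le_base_12 h1 h2 hn hnk hk).trans ?_
          exact mul_le_mul_of_nonneg_right (g2_base h h2) (S_nonneg k r)
    · rcases le_total r (9 / 4) with h | h
      · obtain ⟨j, hj, hjb⟩ := chain_a h2 h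
        refine ⟨j, hj, ?_⟩
        have := phi_le_base (C := 5041 / 5000) (c := 9 / 1144) h2 hn2 hnk (by norm_num)
          (by norm_num) (by norm_num) ?_ (fun x hx1 hx9 => poly_a hx1 hx9)
        · exact this.trans (mul_le_mul_of_nonneg_right hjb (S_nonneg k r))
        · rw [div_div, div_le_div_iff₀ (by positivity) (by norm_num)]
          linarith
      · obtain ⟨j, hj, hjb⟩ := chain_b h
        refine ⟨j, hj, ?_⟩
        have := phi_le_base (C := 81 / 80) (c := 1 / 88) h2 hn2 hnk (by norm_num)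
          (by norm_num) (by norm_num) ?_ (fun x hx1 hx9 => poly_b hx1 hx9)
        · exact this.trans (mul_le_mul_of_nonneg_right hjb (S_nonneg k r))
        · rw [div_div, div_le_div_iff₀ (by positivity) (by norm_num)]
          linarith

end Pool.Agent.Helper69.MH
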