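import Pool.Agent.Helper69.MH.Unimodal

/-!
Monotonicity in `r` of the comparison of `g(k;r)` and `g(k+1;r)`.
-/

namespace Pool.Agent.Helper69.MH

open Set Finset

/-- weighted Chebyshev inequality -/
lemma cheb {ι : Type*} (s : Finset ι) (w f h : ι → ℝ) (hw : ∀ i ∈ s, 0 ≤ w i)
    (hfh : ∀ i ∈ s, ∀ j ∈ s, 0 ≤ (f i - f j) * (h i - h j)) :
    (∑ i ∈ s, w i * f i) * (∑ i ∈ s, w i * h i) ≤
      (∑ i ∈ s, w i) * (∑ i ∈ s, w i * (f i * h i)) := by
  have h0 : 0 ≤ ∑ i ∈ s, ∑ j ∈ s, w i * w j * ((f i - f j) * (h i - h j)) :=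
    Finset.sum_nonneg fun i hi => Finset.sum_nonneg fun j hj =>
      mul_nonneg (mul_nonneg (hw i hi) (hw j hj)) (hfh i hi j hj)
  have h1 : ∑ i ∈ s, ∑ j ∈ s, w i * w j * ((f i - f j) * (h i - h j)) =
      2 * ((∑ i ∈ s, w i) * (∑ i ∈ s, w i * (f i * h i)) -
        (∑ i ∈ s, w i * f i) * (∑ i ∈ s, w i * h i)) := by
    have e1 : (∑ i ∈ s, w i) * (∑ i ∈ s, w i * (f i * h i)) =
        ∑ i ∈ s, ∑ j ∈ s, w i * (w j * (f j * h j)) := by rw [Finset.sum_mul_sum]
    have e1' : (∑ i ∈ s, w i) * (∑ i ∈ s, w i * (f i * h i)) =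
        ∑ i ∈ s, ∑ j ∈ s, w j * (w i * (f i * h i)) := by
      rw [Finset.sum_mul_sum, Finset.sum_comm]
    have e2 : (∑ i ∈ s, w i * f i) * (∑ i ∈ s, w i * h i) =
        ∑ i ∈ s, ∑ j ∈ s, w i * f i * (w j * h j) := by rw [Finset.sum_mul_sum]
    have e2' : (∑ i ∈ s, w i * f i) * (∑ i ∈ s, w i * h i) =
        ∑ i ∈ s, ∑ j ∈ s, w j * f j * (w i * h i) := by
      rw [Finset.sum_mul_sum, Finset.sum_comm]
    calc _ = (∑ i ∈ s, ∑ j ∈ s, w i * (w j * (f j * h j))) +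
          (∑ i ∈ s, ∑ j ∈ s, w j * (w i * (f i * h i))) -
          (∑ i ∈ s, ∑ j ∈ s, w i * f i * (w j * h j)) -
          (∑ i ∈ s, ∑ j ∈ s, w j * f j * (w i * h i)) := by
          simp only [← Finset.sum_add_distrib, ← Finset.sum_sub_distrib]
          refine Finset.sum_congr rfl fun i _ => Finset.sum_congr rfl fun j _ => ?_
          ring
      _ = _ := by rw [← e1, ← e1', ← e2, ← e2']; ring
  rw [h1] at h0
  linarith

lemma S_range {r : ℝ} (hr : 0 < r) (k : ℕ) :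
    S k r = ∑ i ∈ Finset.range (k + 1), (i : ℝ) ^ r := by
  induction k with
  | zero => simp [S_zero, Real.zero_rpow hr.ne']
  | succ n ih => rw [S_succ, Finset.sum_range_succ, ih]; push_cast; rfl

lemma S_range' (r : ℝ) (k : ℕ) :
    S k r = ∑ i ∈ Finset.range k, ((i : ℝ) + 1) ^ r := by
  induction k with
  | zero => simp [S_zero]
  | succ n ih => rw [S_succ, Finset.sum_range_succ, ih]

/-- Strict majorisation inequality. -/
lemma S_maj {t r : ℝ} (ht : 1 < t) (hr : 0 < r) {k : ℕ} (hk : 1 ≤ k) :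
    S (k + 1) (r * t) * (S k r) ^ t < S k (r * t) * (S (k + 1) r) ^ t := by
  have hA := S_pos hk r
  have hB := S_pos (k := k + 1) (by omega) r
  set A := S k r with hAdef
  set B := S (k + 1) r with hBdef
  set s := Finset.range (k + 1) with hs
  set β : ℕ → ℝ := fun i => ((i : ℝ) + 1) ^ r / B with hβ
  set ρ : ℕ → ℝ := fun i => ((i : ℝ) / ((i : ℝ) + 1)) ^ r * (B / A) with hρ
  have hi1 : ∀ i : ℕ, (0 : ℝ) < (i : ℝ) + 1 := fun i => by positivity
  have hβpos : ∀ i, 0 < β i := fun i => div_pos (Real.rpow_pos_of_pos (hi1 i) _) hB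
  have hρnn : ∀ i, 0 ≤ ρ i := fun i =>
    mul_nonneg (Real.rpow_nonneg (div_nonneg (Nat.cast_nonneg i) (hi1 i).le) _)
      (div_nonneg hB.le hA.le)
  have hβρ : ∀ i, β i * ρ i = (i : ℝ) ^ r / A := by
    intro i
    simp only [hβ, hρ]
    rw [Real.div_rpow (Nat.cast_nonneg i) (hi1 i).le]
    have := (Real.rpow_pos_of_pos (hi1 i) r).ne'
    field_simp
  have sβ : ∑ i ∈ s, β i = 1 := by
    simp only [hβ]
    rw [← Finset.sum_div, ← S_range', ← hBdef, div_self hB.ne']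
  have sβρ : ∑ i ∈ s, β i * ρ i = 1 := by
    simp only [hβρ]
    rw [← Finset.sum_div, ← S_range hr, ← hAdef, div_self hA.ne']
  have hβmono : ∀ i j : ℕ, i ≤ j → β i ≤ β j := by
    intro i j hij
    have : (i : ℝ) ≤ j := by exact_mod_cast hij
    simp only [hβ]
    apply div_le_div_of_nonneg_right _ hB.le
    exact Real.rpow_le_rpow (hi1 i).le (by linarith) hr.le
  have hρmono : ∀ i j : ℕ, i ≤ j → ρ i ≤ ρ j := by
    intro i j hij
    have : (i : ℝ) ≤ j := by exact_mod_cast hij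
    simp only [hρ]
    apply mul_le_mul_of_nonneg_right _ (div_nonneg hB.le hA.le)
    apply Real.rpow_le_rpow (div_nonneg (Nat.cast_nonneg i) (hi1 i).le) _ hr.le
    rw [div_le_div_iff₀ (hi1 i) (hi1 j)]
    nlinarith
  have hch := cheb s β (fun i => β i ^ (t - 1)) ρ (fun i _ => (hβpos i).le) (by
    intro i _ j _
    rcases le_total i j with hij | hij
    · have h1 : β i ^ (t - 1) ≤ β j ^ (t - 1) :=
        Real.rpow_le_rpow (hβpos i).le (hβmono i j hij) (by linarith)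
      have h2 := hρmono i j hij
      exact mul_nonneg_of_nonpos_of_nonpos (by simpa using h1) (by linarith)
    · have h1 : β j ^ (t - 1) ≤ β i ^ (t - 1) :=
        Real.rpow_le_rpow (hβpos j).le (hβmono j i hij) (by linarith)
      have h2 := hρmono j i hij
      exact mul_nonneg (by simpa using h1) (by linarith))
  rw [sβ, sβρ, one_mul, mul_one] at hch
  have hpow : ∀ i, β i * β i ^ (t - 1) = β i ^ t := by
    intro i
    rw [← Real.rpow_one_add' (hβpos i).le (by linarith)]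
    congr 1; ring
  have e1 : ∑ i ∈ s, β i * (fun i => β i ^ (t - 1)) i = ∑ i ∈ s, β i ^ t :=
    Finset.sum_congr rfl fun i _ => hpow i
  have e2 : ∑ i ∈ s, β i * ((fun i => β i ^ (t - 1)) i * ρ i) = ∑ i ∈ s, β i ^ t * ρ i :=
    Finset.sum_congr rfl fun i _ => by
      simp only [← hpow i]; ring
  rw [e1, e2] at hch
  -- pointwise tangent inequality
  have htan : ∀ i, β i ^ t * (1 + t * (ρ i - 1)) ≤ (β i * ρ i) ^ t := by
    intro i
    rw [Real.mul_rpow (hβpos i).le (hρnn i)]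
    apply mul_le_mul_of_nonneg_left _ (Real.rpow_nonneg (hβpos i).le _)
    have := one_add_mul_self_le_rpow_one_add (s := ρ i - 1) (by linarith [hρnn i]) ht.le
    simpa using this
  have hstrict : β 0 ^ t * (1 + t * (ρ 0 - 1)) < (β 0 * ρ 0) ^ t := by
    have h0 : ρ 0 = 0 := by simp [hρ, Real.zero_rpow hr.ne']
    rw [h0, mul_zero, Real.zero_rpow (by linarith)]
    have : 0 < β 0 ^ t := Real.rpow_pos_of_pos (hβpos 0) _
    nlinarith
  have hsum : ∑ i ∈ s, β i ^ t * (1 + t * (ρ i - 1)) < ∑ i ∈ s, (β i * ρ i) ^ t :=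
    Finset.sum_lt_sum (fun i _ => htan i) ⟨0, by simp [hs], hstrict⟩
  have e3 : ∑ i ∈ s, β i ^ t * (1 + t * (ρ i - 1)) =
      (1 - t) * ∑ i ∈ s, β i ^ t + t * ∑ i ∈ s, β i ^ t * ρ i := by
    rw [Finset.mul_sum, Finset.mul_sum, ← Finset.sum_add_distrib]
    exact Finset.sum_congr rfl fun i _ => by ring
  have hfin : ∑ i ∈ s, β i ^ t < ∑ i ∈ s, (β i * ρ i) ^ t := by
    nlinarith
  have e4 : ∑ i ∈ s, β i ^ t = S (k + 1) (r * t) / B ^ t := by
    rw [S_range', Finset.sum_div]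
    refine Finset.sum_congr rfl fun i _ => ?_
    simp only [hβ]
    rw [Real.div_rpow (Real.rpow_nonneg (hi1 i).le _) hB.le, ← Real.rpow_mul (hi1 i).le]
  have e5 : ∑ i ∈ s, (β i * ρ i) ^ t = S k (r * t) / A ^ t := by
    rw [S_range (by positivity), Finset.sum_div]
    refine Finset.sum_congr rfl fun i _ => ?_
    rw [hβρ, Real.div_rpow (Real.rpow_nonneg (Nat.cast_nonneg i) _) hA.le,
      ← Real.rpow_mul (Nat.cast_nonneg i)]
  rw [e4, e5, div_lt_div_iff₀ (Real.rpow_pos_of_pos hB _) (Real.rpow_pos_of_pos hA _)] at hfin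
  exact hfin

/-- Once `g(k+1;r) ≥ g(k;r)` at some `r > 0`, the inequality is strict for all larger `r`. -/
lemma g_cross {r r' : ℝ} (hr : 0 < r) (hrr : r < r') {k : ℕ} (hk : 1 ≤ k)
    (h : g k r ≤ g (k + 1) r) : g k r' < g (k + 1) r' := by
  set t := r' / r with ht
  have ht1 : 1 < t := by rw [ht, one_lt_div hr]; exact hrr
  have hr' : r' = r * t := by rw [ht]; field_simp
  have hA := S_pos hk r
  have hB := S_pos (k := k + 1) (by omega) r
  have hA' := S_pos hk r'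
  have hB' := S_pos (k := k + 1) (by omega) r'
  have hy := two_k_sub_one_pos hk
  have hy' := two_k_sub_one_pos (k := k + 1) (by omega)
  unfold g at h ⊢
  have h2 := Real.rpow_le_rpow (by positivity) h (by linarith : (0 : ℝ) ≤ t)
  rw [Real.div_rpow (by positivity) hA.le, Real.div_rpow (by positivity) hB.le,
    ← Real.rpow_mul hy.le, ← Real.rpow_mul hy'.le, ← hr',
    div_le_div_iff₀ (Real.rpow_pos_of_pos hA _) (Real.rpow_pos_of_pos hB _)] at h2
  rw [div_lt_div_iff₀ hA' hB']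
  have h3 := S_maj ht1 hr hk
  rw [← hr'] at h3
  have hAt := Real.rpow_pos_of_pos hA t
  have hBt := Real.rpow_pos_of_pos hB t
  have hp := Real.rpow_pos_of_pos hy r'
  have hp' := Real.rpow_pos_of_pos hy' r'
  -- (2k-1)^{r'} * S(k+1;r') * A^t < (2k-1)^{r'} * S(k;r') * B^t ≤ (2k+1)^{r'} A^t S(k;r')
  have h4 := mul_lt_mul_of_pos_left h3 hp
  have h5 := mul_le_mul_of_nonneg_right h2 hA'.le
  have h6 : (2 * (k : ℝ) - 1) ^ r' * S (k + 1) r' * (S k r) ^ t <
      (2 * ((k + 1 : ℕ) : ℝ) - 1) ^ r' * S k r' * (S k r) ^ t := by nlinarith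
  exact lt_of_mul_lt_mul_right h6 hAt.le

end Pool.Agent.Helper69.MH
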