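import Pool.Agent.Helper69.MH.Upper

/-!
Lower bounds for `max_j g(j;r)`, and the main comparison statement.
-/

namespace Pool.Agent.Helper69.MH

open Set

lemma rpow_le_of_pow_le {x y : ℝ} (hx : 0 ≤ x) (hy : 0 ≤ y) (p q : ℕ) (hq : 0 < q)
    (h : x ^ p ≤ y ^ q) : x ^ ((p : ℝ) / q) ≤ y := by
  have hq0 : (q : ℝ) ≠ 0 := by exact_mod_cast hq.ne'
  have h1 : x ^ ((p : ℝ) / q) = (x ^ p) ^ (1 / (q : ℝ)) := by
    rw [← Real.rpow_natCast x p, ← Real.rpow_mul hx]; congr 1; field_simp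
  have h2 : y = (y ^ q) ^ (1 / (q : ℝ)) := by
    rw [← Real.rpow_natCast y q, ← Real.rpow_mul hy]
    have : (q : ℝ) * (1 / q) = 1 := by field_simp
    rw [this, Real.rpow_one]
  rw [h1, h2]
  exact Real.rpow_le_rpow (by positivity) h (by positivity)

lemma le_rpow_of_pow_le {x y : ℝ} (hx : 0 ≤ x) (hy : 0 ≤ y) (p q : ℕ) (hq : 0 < q)
    (h : y ^ q ≤ x ^ p) : y ≤ x ^ ((p : ℝ) / q) := by
  have hq0 : (q : ℝ) ≠ 0 := by exact_mod_cast hq.ne'
  have h1 : x ^ ((p : ℝ) / q) = (x ^ p) ^ (1 / (q : ℝ)) := by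
    rw [← Real.rpow_natCast x p, ← Real.rpow_mul hx]; congr 1; field_simp
  have h2 : y = (y ^ q) ^ (1 / (q : ℝ)) := by
    rw [← Real.rpow_natCast y q, ← Real.rpow_mul hy]
    have : (q : ℝ) * (1 / q) = 1 := by field_simp
    rw [this, Real.rpow_one]
  rw [h1]; nth_rewrite 1 [h2]
  exact Real.rpow_le_rpow (by positivity) h (by positivity)

/-- check at a natural exponent -/
lemma check_nat {j m : ℕ} {C : ℝ}
    (h : C * ((∑ i ∈ Finset.Icc 1 j, (i : ℝ) ^ m) * (2 * (m : ℝ) / (m + 1)) ^ m) ≤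
      (2 * (j : ℝ) - 1) ^ m) :
    C * (S j (m : ℝ) * base (m : ℝ)) ≤ (2 * (j : ℝ) - 1) ^ (m : ℝ) := by
  unfold S base
  simp only [Real.rpow_natCast]
  exact h

-- numeric values at 11/10
lemma two_11_10 : (2 : ℝ) ^ (11 / 10 : ℝ) ≤ 2.1436 := by
  have := rpow_le_of_pow_le (x := 2) (y := 2.1436) (by norm_num) (by norm_num) 11 10 (by norm_num)
    (by norm_num)
  simpa using this

lemma three_11_10 : (3.348 : ℝ) ≤ (3 : ℝ) ^ (11 / 10 : ℝ) := by
  have := le_rpow_of_pow_le (x := 3) (y := 3.348) (by norm_num) (by norm_num) 11 10 (by norm_num)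
    (by norm_num)
  simpa using this

lemma base_11_10 : base (11 / 10) ≤ 1.0526 := by
  unfold base
  have e : (2 * (11 / 10) / (11 / 10 + 1) : ℝ) = 22 / 21 := by norm_num
  rw [e]
  have := rpow_le_of_pow_le (x := 22 / 21) (y := 1.0526) (by norm_num) (by norm_num) 11 10
    (by norm_num) (by norm_num)
  simpa using this

-- numeric values at 41/20
lemma two_41_20 : (2 : ℝ) ^ (41 / 20 : ℝ) ≤ 4.14107 := by
  have := rpow_le_of_pow_le (x := 2) (y := 4.14107) (by norm_num) (by norm_num) 41 20 (by norm_num)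
    (by norm_num)
  simpa using this

lemma three_41_20_le : (3 : ℝ) ^ (41 / 20 : ℝ) ≤ 9.50827 := by
  have := rpow_le_of_pow_le (x := 3) (y := 9.50827) (by norm_num) (by norm_num) 41 20 (by norm_num)
    (by norm_num)
  simpa using this

lemma three_41_20 : (9.5082 : ℝ) ≤ (3 : ℝ) ^ (41 / 20 : ℝ) := by
  have := le_rpow_of_pow_le (x := 3) (y := 9.5082) (by norm_num) (by norm_num) 41 20 (by norm_num)
    (by norm_num)
  simpa using this

lemma five_41_20 : (27.09 : ℝ) ≤ (5 : ℝ) ^ (41 / 20 : ℝ) := by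
  have := le_rpow_of_pow_le (x := 5) (y := 27.09) (by norm_num) (by norm_num) 41 20 (by norm_num)
    (by norm_num)
  simpa using this

lemma base_41_20 : base (41 / 20) ≤ 1.83398 := by
  unfold base
  have e : (2 * (41 / 20) / (41 / 20 + 1) : ℝ) = 82 / 61 := by norm_num
  rw [e]
  have := rpow_le_of_pow_le (x := 82 / 61) (y := 1.83398) (by norm_num) (by norm_num) 41 20
    (by norm_num) (by norm_num)
  simpa using this

-- numeric values at 9/4
lemma two_9_4 : (2 : ℝ) ^ (9 / 4 : ℝ) ≤ 4.757 := by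
  have := rpow_le_of_pow_le (x := 2) (y := 4.757) (by norm_num) (by norm_num) 9 4 (by norm_num)
    (by norm_num)
  simpa using this

lemma three_9_4 : (3 : ℝ) ^ (9 / 4 : ℝ) ≤ 11.8447 := by
  have := rpow_le_of_pow_le (x := 3) (y := 11.8447) (by norm_num) (by norm_num) 9 4 (by norm_num)
    (by norm_num)
  simpa using this

lemma five_9_4 : (37.38 : ℝ) ≤ (5 : ℝ) ^ (9 / 4 : ℝ) := by
  have := le_rpow_of_pow_le (x := 5) (y := 37.38) (by norm_num) (by norm_num) 9 4 (by norm_num)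
    (by norm_num)
  simpa using this

lemma base_9_4 : base (9 / 4) ≤ 2.0802 := by
  unfold base
  have e : (2 * (9 / 4) / (9 / 4 + 1) : ℝ) = 18 / 13 := by norm_num
  rw [e]
  have := rpow_le_of_pow_le (x := 18 / 13) (y := 2.0802) (by norm_num) (by norm_num) 9 4
    (by norm_num) (by norm_num)
  simpa using this


/-- `S` as a sum over a range -/
lemma S_eq_range (k : ℕ) (r : ℝ) : S k r = ∑ i ∈ Finset.range k, ((i : ℝ) + 1) ^ r := by
  induction k with
  | zero => simp [S_zero]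
  | succ m ih => rw [S_succ, Finset.sum_range_succ, ih]

lemma S_ratio {r : ℝ} (hr : 0 ≤ r) (m : ℕ) :
    S m r ≤ ((m : ℝ) / (m + 1)) ^ r * S (m + 1) r := by
  have h1 : S m r ≤ ((m : ℝ) / (m + 1)) ^ r * ∑ i ∈ Finset.range m, ((i : ℝ) + 2) ^ r := by
    rw [S_eq_range, Finset.mul_sum]
    apply Finset.sum_le_sum
    intro i hi
    have him : i < m := Finset.mem_range.mp hi
    have him' : (i : ℝ) + 1 ≤ m := by exact_mod_cast him
    have hi0 : (0 : ℝ) ≤ i := Nat.cast_nonneg i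
    rw [← Real.mul_rpow (by positivity) (by positivity)]
    apply Real.rpow_le_rpow (by positivity) _ hr
    rw [div_mul_eq_mul_div, le_div_iff₀ (by positivity)]
    nlinarith
  have h2 : ∑ i ∈ Finset.range m, ((i : ℝ) + 2) ^ r ≤ S (m + 1) r := by
    rw [S_eq_range, Finset.sum_range_succ']
    have : ∑ i ∈ Finset.range m, ((i : ℝ) + 2) ^ r =
        ∑ i ∈ Finset.range m, (((i + 1 : ℕ) : ℝ) + 1) ^ r := by
      apply Finset.sum_congr rfl
      intro i _
      congr 1; push_cast; ring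
    rw [this]
    have h3 : 0 ≤ (((0 : ℕ) : ℝ) + 1) ^ r := by positivity
    linarith
  exact h1.trans (mul_le_mul_of_nonneg_left h2 (by positivity))

/-- geometric upper bound for `S`, in the form of a lower bound for `g`. -/
lemma g_lower {r : ℝ} (hr : 0 < r) {j : ℕ} (hj : 1 ≤ j) :
    2 ^ r * (Real.exp (-(r / (2 * j - 1))) * (1 - Real.exp (-(r / j)))) ≤ g j r := by
  obtain ⟨m, rfl⟩ : ∃ m, j = m + 1 := ⟨j - 1, by omega⟩
  have hS := S_pos (k := m + 1) (by omega) r
  unfold g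
  rw [le_div_iff₀ hS]
  set x : ℝ := (m : ℝ) + 1 with hx
  have hx1 : 1 ≤ x := by rw [hx]; linarith [Nat.cast_nonneg (α := ℝ) m]
  have hx0 : 0 < x := by linarith
  have e1 : ((m + 1 : ℕ) : ℝ) = x := by rw [hx]; push_cast; ring
  rw [e1]
  have hxr : 0 < x ^ r := Real.rpow_pos_of_pos hx0 _
  -- S (m+1) (1 - exp(-r/x)) ≤ x^r
  have h1 := S_ratio hr.le m
  have h2 : ((m : ℝ) / (m + 1)) ^ r ≤ Real.exp (-(r / x)) := by
    have h3 : (m : ℝ) / (m + 1) ≤ Real.exp (-(1 / x)) := by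
      have := Real.add_one_le_exp (-(1 / x))
      have e : (m : ℝ) / (m + 1) = 1 - 1 / x := by rw [hx]; field_simp; ring
      rw [e]; linarith
    calc ((m : ℝ) / (m + 1)) ^ r ≤ (Real.exp (-(1 / x))) ^ r :=
          Real.rpow_le_rpow (by positivity) h3 hr.le
      _ = Real.exp (-(r / x)) := by rw [← Real.exp_mul]; congr 1; ring
  have h4 : S (m + 1) r * (1 - Real.exp (-(r / x))) ≤ x ^ r := by
    have h5 := S_succ m r
    rw [← hx] at h5
    have h6 : ((m : ℝ) / (m + 1)) ^ r * S (m + 1) r ≤ Real.exp (-(r / x)) * S (m + 1) r :=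
      mul_le_mul_of_nonneg_right h2 hS.le
    nlinarith
  -- (2x-1)^r ≥ (2x)^r exp(-r/(2x-1))
  have h7 : 2 ^ r * x ^ r * Real.exp (-(r / (2 * x - 1))) ≤ (2 * x - 1) ^ r := by
    have h21 : 0 < 2 * x - 1 := by linarith
    have h8 : 2 * x * Real.exp (-(1 / (2 * x - 1))) ≤ 2 * x - 1 := by
      have h9 := Real.add_one_le_exp (1 / (2 * x - 1))
      have h10 : 1 / (2 * x - 1) + 1 = 2 * x / (2 * x - 1) := by field_simp; ring
      rw [h10] at h9
      rw [Real.exp_neg, ← div_eq_mul_inv, div_le_iff₀ (Real.exp_pos _)]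
      rw [div_le_iff₀ h21] at h9
      linarith
    calc 2 ^ r * x ^ r * Real.exp (-(r / (2 * x - 1)))
        = (2 * x * Real.exp (-(1 / (2 * x - 1)))) ^ r := by
          rw [Real.mul_rpow (by positivity) (Real.exp_pos _).le,
            Real.mul_rpow (by norm_num) hx0.le, ← Real.exp_mul]
          congr 2; ring
      _ ≤ (2 * x - 1) ^ r := Real.rpow_le_rpow (by positivity) h8 hr.le
  have h2r : (0 : ℝ) < 2 ^ r := Real.rpow_pos_of_pos (by norm_num) _
  calc 2 ^ r * (Real.exp (-(r / (2 * x - 1))) * (1 - Real.exp (-(r / x)))) * S (m + 1) r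
      = 2 ^ r * Real.exp (-(r / (2 * x - 1))) * (S (m + 1) r * (1 - Real.exp (-(r / x)))) := by
        ring
    _ ≤ 2 ^ r * Real.exp (-(r / (2 * x - 1))) * x ^ r := by gcongr
    _ = 2 ^ r * x ^ r * Real.exp (-(r / (2 * x - 1))) := by ring
    _ ≤ (2 * x - 1) ^ r := h7

/-- upper bound for `base` -/
lemma base_le {r : ℝ} (hr : 38 ≤ r) : base r ≤ 2 ^ r * Real.exp (-(76 / 77)) := by
  have hr0 : 0 < r := by linarith
  rw [base_eq hr0]
  apply mul_le_mul_of_nonneg_left _ (by positivity)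
  have h1 := Real.le_log_one_add_of_nonneg (x := 1 / r) (by positivity)
  have h2 : r / (r + 1) = Real.exp (-(Real.log (1 + 1 / r))) := by
    rw [Real.exp_neg, Real.exp_log (by positivity)]
    field_simp
  rw [h2, ← Real.exp_mul]
  apply Real.exp_le_exp.mpr
  have h3 : 2 * (1 / r) / (1 / r + 2) = 2 / (2 * r + 1) := by field_simp; ring
  rw [h3] at h1
  have h4 : 76 / 77 ≤ 2 / (2 * r + 1) * r := by
    rw [div_mul_eq_mul_div, div_le_div_iff₀ (by norm_num) (by positivity)]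
    nlinarith
  nlinarith

lemma exp_a : (0.572 : ℝ) ≤ Real.exp (-(187 / 335)) := by
  have h := Real.exp_bound' (x := 187 / 335) (by norm_num) (by norm_num) (n := 6) (by norm_num)
  have h2 : Real.exp (187 / 335) ≤ 1.748 := by
    refine h.trans ?_
    norm_num [Finset.sum_range_succ, Nat.factorial]
  rw [Real.exp_neg]
  rw [le_inv_comm₀ (by norm_num) (Real.exp_pos _)]
  refine h2.trans ?_
  norm_num

lemma exp_b : Real.exp (-(11 / 10)) ≤ 0.3329 := by
  have h := Real.sum_le_exp_of_nonneg (x := 11 / 10) (by norm_num) 8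
  have h2 : (3.004 : ℝ) ≤ Real.exp (11 / 10) := by
    refine le_trans ?_ h
    norm_num [Finset.sum_range_succ, Nat.factorial]
  rw [Real.exp_neg]
  rw [inv_le_comm₀ (Real.exp_pos _) (by norm_num)]
  refine le_trans ?_ h2
  norm_num

lemma exp_c : Real.exp (-(76 / 77)) ≤ 0.3728 := by
  have h := Real.sum_le_exp_of_nonneg (x := 76 / 77) (by norm_num) 8
  have h2 : (2.683 : ℝ) ≤ Real.exp (76 / 77) := by
    refine le_trans ?_ h
    norm_num [Finset.sum_range_succ, Nat.factorial]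
  rw [Real.exp_neg]
  rw [inv_le_comm₀ (Real.exp_pos _) (by norm_num)]
  refine le_trans ?_ h2
  norm_num

/-- analytic part: `r ≥ 38` -/
lemma big_r {r : ℝ} (hr : 38 ≤ r) : ∃ j : ℕ, 1 ≤ j ∧ 81 / 80 * base r ≤ g j r := by
  set j : ℕ := ⌊10 / 11 * r⌋₊ with hj
  have hr0 : 0 < r := by linarith
  have h1 : (j : ℝ) ≤ 10 / 11 * r := Nat.floor_le (by positivity)
  have h2 : 10 / 11 * r < j + 1 := Nat.lt_floor_add_one _
  have hj34 : 34 ≤ j := by
    apply Nat.le_floor
    push_cast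
    linarith
  have hj34' : (34 : ℝ) ≤ j := by exact_mod_cast hj34
  have hj0 : (0 : ℝ) < j := by linarith
  refine ⟨j, by omega, ?_⟩
  have hg := g_lower hr0 (j := j) (by omega)
  refine le_trans ?_ hg
  have hb := base_le hr
  set β := r / j with hβ
  have hβ1 : 11 / 10 ≤ β := by
    rw [hβ, le_div_iff₀ hj0]; linarith
  have hβ2 : β ≤ 11 / 10 + 0.0324 := by
    rw [hβ, div_le_iff₀ hj0]
    nlinarith
  set δ := β - 11 / 10 with hδ
  have hδ0 : 0 ≤ δ := by linarith
  have hδ1 : δ ≤ 0.0324 := by linarith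
  have h3 : r / (2 * j - 1) ≤ 34 / 67 * β := by
    rw [hβ, div_le_iff₀ (by linarith)]
    have : 34 / 67 * (r / ↑j) * (2 * ↑j - 1) = r * (34 * (2 * j - 1) / (67 * j)) := by
      field_simp
    rw [this]
    have h4 : 1 ≤ 34 * (2 * (j : ℝ) - 1) / (67 * j) := by
      rw [le_div_iff₀ (by positivity)]; linarith
    nlinarith
  have h5 : 0.572 * (1 - 34 / 67 * δ) ≤ Real.exp (-(r / (2 * j - 1))) := by
    have h6 : Real.exp (-(34 / 67 * β)) ≤ Real.exp (-(r / (2 * j - 1))) := by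
      apply Real.exp_le_exp.mpr; linarith
    have h7 : Real.exp (-(34 / 67 * β)) = Real.exp (-(187 / 335)) * Real.exp (-(34 / 67 * δ)) := by
      rw [← Real.exp_add]; congr 1; rw [hδ]; ring
    have h8 := Real.add_one_le_exp (-(34 / 67 * δ))
    have h9 := exp_a
    calc 0.572 * (1 - 34 / 67 * δ) ≤ Real.exp (-(187 / 335)) * Real.exp (-(34 / 67 * δ)) := by
          apply mul_le_mul h9 (by linarith) (by nlinarith) (Real.exp_pos _).le
      _ ≤ _ := by rw [← h7]; exact h6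
  have h10 : Real.exp (-β) * (1 + δ) ≤ 0.3329 := by
    have h11 : Real.exp (-β) = Real.exp (-(11 / 10)) * Real.exp (-δ) := by
      rw [← Real.exp_add]; congr 1; rw [hδ]; ring
    have h12 : Real.exp (-δ) * (1 + δ) ≤ 1 := by
      have := Real.add_one_le_exp δ
      have h13 : Real.exp (-δ) * Real.exp δ = 1 := by rw [← Real.exp_add]; simp
      have h14 := Real.exp_pos (-δ)
      nlinarith
    rw [h11]
    have h15 := exp_b
    have h16 := Real.exp_pos (-(11 / 10 : ℝ))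
    calc Real.exp (-(11 / 10)) * Real.exp (-δ) * (1 + δ)
        = Real.exp (-(11 / 10)) * (Real.exp (-δ) * (1 + δ)) := by ring
      _ ≤ Real.exp (-(11 / 10)) * 1 := mul_le_mul_of_nonneg_left h12 h16.le
      _ ≤ 0.3329 := by linarith
  have h17 : 0.666 ≤ (1 - 34 / 67 * δ) * (1 - Real.exp (-β)) := by
    have h18 : (1 + δ - 0.3329) ≤ (1 - Real.exp (-β)) * (1 + δ) := by nlinarith
    have h19 : 0 ≤ 1 - 34 / 67 * δ := by nlinarith
    have h20 : 0.666 * (1 + δ) ≤ (1 - 34 / 67 * δ) * (1 - Real.exp (-β)) * (1 + δ) := by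
      calc 0.666 * (1 + δ) ≤ (1 - 34 / 67 * δ) * (1 + δ - 0.3329) := by nlinarith
        _ ≤ (1 - 34 / 67 * δ) * ((1 - Real.exp (-β)) * (1 + δ)) :=
            mul_le_mul_of_nonneg_left h18 h19
        _ = _ := by ring
    exact le_of_mul_le_mul_right h20 (by linarith)
  have h21 : 0 ≤ 1 - Real.exp (-β) := by
    have : Real.exp (-β) ≤ 1 := Real.exp_le_one_iff.mpr (by linarith)
    linarith
  have h22 : 0.38 ≤ Real.exp (-(r / (2 * j - 1))) * (1 - Real.exp (-β)) := by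
    calc (0.38 : ℝ) ≤ 0.572 * 0.666 := by norm_num
      _ ≤ 0.572 * ((1 - 34 / 67 * δ) * (1 - Real.exp (-β))) := by linarith
      _ = 0.572 * (1 - 34 / 67 * δ) * (1 - Real.exp (-β)) := by ring
      _ ≤ _ := mul_le_mul_of_nonneg_right h5 h21
  have h2r : (0 : ℝ) < 2 ^ r := Real.rpow_pos_of_pos (by norm_num) _
  have h23 := exp_c
  calc 81 / 80 * base r ≤ 81 / 80 * (2 ^ r * Real.exp (-(76 / 77))) := by linarith
    _ ≤ 81 / 80 * (2 ^ r * 0.3728) := by gcongr
    _ ≤ 2 ^ r * 0.38 := by linarith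
    _ ≤ _ := mul_le_mul_of_nonneg_left h22 h2r.le

end Pool.Agent.Helper69.MH
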