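import Pool.Agent.Helper69.MH.Mono

/-!
Existence, uniqueness and monotonicity of the crossing exponents.
-/

namespace Pool.Agent.Helper69.MH

open Set Finset

lemma g_lt_of_nonpos {r : ℝ} (hr : r ≤ 0) {k : ℕ} (hk : 1 ≤ k) : g (k + 1) r < g k r := by
  rw [g_lt_iff hk]
  have hS := S_pos hk r
  have hy := two_k_sub_one_pos hk
  have h1 : (2 * (k : ℝ) + 1) ^ r ≤ (2 * (k : ℝ) - 1) ^ r :=
    Real.rpow_le_rpow_of_nonpos hy (by linarith) hr
  have h0 : 0 < ((k : ℝ) + 1) ^ r :=
    Real.rpow_pos_of_pos (by linarith [Nat.cast_nonneg (α := ℝ) k]) _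
  have h2 : sig k r ≤ 0 := by
    unfold sig
    exact div_nonpos_of_nonpos_of_nonneg (by linarith) h0.le
  have h3 : sig k r * S k r ≤ 0 := mul_nonpos_of_nonpos_of_nonneg h2 hS.le
  have h4 := Real.rpow_pos_of_pos hy r
  linarith

lemma S_at_one (k : ℕ) : S k 1 = (k : ℝ) * (k + 1) / 2 := by
  induction k with
  | zero => simp [S_zero]
  | succ n ih => rw [S_succ, ih, Real.rpow_one]; push_cast; ring

lemma sig_mul_S_at_one (k : ℕ) : sig k 1 * S k 1 = k := by
  unfold sig
  rw [S_at_one, Real.rpow_one, Real.rpow_one, Real.rpow_one]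
  have : (k : ℝ) + 1 ≠ 0 := by positivity
  field_simp; ring

lemma g_le_at_one {k : ℕ} (hk : 1 ≤ k) : g (k + 1) 1 ≤ g k 1 := by
  rw [g_le_iff hk, sig_mul_S_at_one, Real.rpow_one]
  have : (1 : ℝ) ≤ k := by exact_mod_cast hk
  linarith

lemma g_lt_at_one {k : ℕ} (hk : 2 ≤ k) : g (k + 1) 1 < g k 1 := by
  rw [g_lt_iff (by omega), sig_mul_S_at_one, Real.rpow_one]
  have : (2 : ℝ) ≤ k := by exact_mod_cast hk
  linarith

lemma log_three_pos : 0 < Real.log 3 := Real.log_pos (by norm_num)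

/-- for `r ≥ k log 3 + 1` the next value is larger. -/
lemma g_lt_of_large {r : ℝ} {k : ℕ} (hk : 1 ≤ k) (h : k * Real.log 3 + 1 ≤ r) :
    g k r < g (k + 1) r := by
  have hkR : (1 : ℝ) ≤ k := by exact_mod_cast hk
  have hl3 := log_three_pos
  have hr : 1 < r := by nlinarith
  by_contra hle
  push Not at hle
  rw [g_le_iff hk] at hle
  -- derivative is nonpositive at 1/(k+1)
  have hq : (2 - 3 * (1 / ((k : ℝ) + 1))) / (2 - 1 / ((k : ℝ) + 1)) =
      (2 * (k : ℝ) - 1) / (2 * k + 1) := by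
    have h1 : (k : ℝ) + 1 ≠ 0 := by positivity
    have h2 : 2 * (k : ℝ) + 1 ≠ 0 := by positivity
    have h3 : 2 - 1 / ((k : ℝ) + 1) = (2 * k + 1) / (k + 1) := by field_simp; ring
    have h4 : 2 - 3 * (1 / ((k : ℝ) + 1)) = (2 * k - 1) / (k + 1) := by field_simp; ring
    rw [h3, h4]
    field_simp
  have hlog : (1 : ℝ) / k ≤ Real.log ((2 * (k : ℝ) + 1) / (2 * k - 1)) := by
    have h5 := Real.le_log_one_add_of_nonneg (x := 2 / (2 * (k : ℝ) - 1))
      (div_nonneg (by norm_num) (by linarith))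
    have h6 : 1 + 2 / (2 * (k : ℝ) - 1) = (2 * (k : ℝ) + 1) / (2 * k - 1) := by
      have : 2 * (k : ℝ) - 1 ≠ 0 := by linarith
      field_simp; ring
    have h7 : 2 * (2 / (2 * (k : ℝ) - 1)) / (2 / (2 * (k : ℝ) - 1) + 2) = 1 / k := by
      have h8 : 2 * (k : ℝ) - 1 ≠ 0 := by linarith
      have h9 : (k : ℝ) ≠ 0 := by linarith
      have h10 : 2 / (2 * (k : ℝ) - 1) + 2 = 4 * k / (2 * (k : ℝ) - 1) := by
        field_simp; ring
      rw [h10]
      field_simp; norm_num
    rw [h6, h7] at h5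
    exact h5
  have hqp : 0 < (2 * (k : ℝ) - 1) / (2 * k + 1) := div_pos (by linarith) (by linarith)
  have h3q : 3 * ((2 - 3 * (1 / ((k : ℝ) + 1))) / (2 - 1 / ((k : ℝ) + 1))) ^ (r - 1) ≤ 1 := by
    rw [hq, Real.rpow_def_of_pos hqp]
    have h5 : Real.log ((2 * (k : ℝ) - 1) / (2 * k + 1)) ≤ -(1 / k) := by
      rw [← inv_div, Real.log_inv]
      linarith
    have h6 : Real.log ((2 * (k : ℝ) - 1) / (2 * k + 1)) * (r - 1) ≤ - Real.log 3 := by
      have h7 : Real.log ((2 * (k : ℝ) - 1) / (2 * k + 1)) * (r - 1) ≤ -(1 / k) * (r - 1) :=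
        mul_le_mul_of_nonneg_right h5 (by linarith)
      have h8 : Real.log 3 ≤ 1 / (k : ℝ) * (r - 1) := by
        rw [div_mul_eq_mul_div, le_div_iff₀ (by linarith), one_mul]
        linarith
      linarith
    have h9 : Real.exp (Real.log ((2 * (k : ℝ) - 1) / (2 * k + 1)) * (r - 1)) ≤ 1 / 3 := by
      calc _ ≤ Real.exp (- Real.log 3) := Real.exp_le_exp.mpr h6
        _ = 1 / 3 := by rw [Real.exp_neg, Real.exp_log (by norm_num)]; norm_num
    linarith
  have hanti := D_strictAnti hr h3q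
  have hlt : ∀ i, 1 ≤ i → i < k → sig i r < sig k r := by
    intro i hi hik
    have hiR : (1 : ℝ) ≤ i := by exact_mod_cast hi
    have hikR : (i : ℝ) < k := by exact_mod_cast hik
    rw [sig_eq hk, sig_eq hi]
    have hx2 : 1 / ((i : ℝ) + 1) ≤ 1 / 2 := by
      apply one_div_le_one_div_of_le <;> linarith
    have hx1 : 1 / ((k : ℝ) + 1) < 1 / ((i : ℝ) + 1) := by
      apply one_div_lt_one_div_of_lt <;> linarith
    exact hanti ⟨le_rfl, by linarith⟩ ⟨hx1.le, hx2⟩ hx1
  have h1k : 1 < sig k r := by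
    have h1 := one_lt_sig_one hr
    rcases eq_or_lt_of_le hk with h' | h'
    · rw [← h']; exact h1
    · linarith [hlt 1 le_rfl h']
  have := avg_lt h1k hk hlt
  linarith

lemma continuous_S (k : ℕ) : Continuous (S k) := by
  have : (S k) = fun r => ∑ i ∈ Finset.Icc 1 k, (i : ℝ) ^ r := rfl
  rw [this]
  apply continuous_finsetSum
  intro i hi
  have hi1 : 1 ≤ i := (Finset.mem_Icc.mp hi).1
  exact Real.continuous_const_rpow (by positivity)

lemma continuous_g {k : ℕ} (hk : 1 ≤ k) : Continuous (g k) := by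
  have : (g k) = fun r => (2 * (k : ℝ) - 1) ^ r / S k r := rfl
  rw [this]
  exact (Real.continuous_const_rpow (two_k_sub_one_pos hk).ne').div₀ (continuous_S k)
    (fun r => (S_pos hk r).ne')

lemma exists_cross {k : ℕ} (hk : 1 ≤ k) :
    ∃ r, 1 ≤ r ∧ r ≤ k * Real.log 3 + 1 ∧ g k r = g (k + 1) r := by
  have hl3 := log_three_pos
  have hkR : (1 : ℝ) ≤ k := by exact_mod_cast hk
  have hle : (1 : ℝ) ≤ k * Real.log 3 + 1 := by nlinarith
  have hc : ContinuousOn (fun r => g (k + 1) r - g k r) (Icc 1 (k * Real.log 3 + 1)) :=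
    ((continuous_g (by omega)).sub (continuous_g hk)).continuousOn
  have h1 := g_le_at_one hk
  have h2 := g_lt_of_large hk (le_refl (k * Real.log 3 + 1))
  have := intermediate_value_Icc hle hc
  have h0 : (0 : ℝ) ∈ Icc ((fun r => g (k + 1) r - g k r) 1)
      ((fun r => g (k + 1) r - g k r) (k * Real.log 3 + 1)) := by
    constructor
    · simp only; linarith
    · simp only; linarith
  obtain ⟨r, hr, hr0⟩ := this h0
  simp only at hr0
  exact ⟨r, hr.1, hr.2, by linarith⟩

/-- The crossing exponent. -/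
noncomputable def rho (k : ℕ) : ℝ :=
  if hk : 1 ≤ k then (exists_cross hk).choose else 0

lemma rho_spec {k : ℕ} (hk : 1 ≤ k) :
    1 ≤ rho k ∧ rho k ≤ k * Real.log 3 + 1 ∧ g k (rho k) = g (k + 1) (rho k) := by
  unfold rho
  rw [dif_pos hk]
  exact (exists_cross hk).choose_spec

lemma one_le_rho {k : ℕ} (hk : 1 ≤ k) : 1 ≤ rho k := (rho_spec hk).1

lemma rho_le {k : ℕ} (hk : 1 ≤ k) : rho k ≤ k * Real.log 3 + 1 := (rho_spec hk).2.1

lemma g_rho {k : ℕ} (hk : 1 ≤ k) : g k (rho k) = g (k + 1) (rho k) := (rho_spec hk).2.2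

lemma g_lt_of_lt_rho {k : ℕ} (hk : 1 ≤ k) {r : ℝ} (hr : r < rho k) : g (k + 1) r < g k r := by
  by_contra h
  push Not at h
  rcases le_or_gt r 0 with h0 | h0
  · have := g_lt_of_nonpos h0 hk
    linarith
  · have := g_cross h0 hr hk h
    linarith [g_rho hk]

lemma g_lt_of_gt_rho {k : ℕ} (hk : 1 ≤ k) {r : ℝ} (hr : rho k < r) : g k r < g (k + 1) r :=
  g_cross (by linarith [one_le_rho hk]) hr hk (g_rho hk).le

lemma eq_rho {k : ℕ} (hk : 1 ≤ k) {r : ℝ} (h : g k r = g (k + 1) r) : r = rho k := by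
  rcases lt_trichotomy r (rho k) with h' | h' | h'
  · have := g_lt_of_lt_rho hk h'
    linarith
  · exact h'
  · have := g_lt_of_gt_rho hk h'
    linarith

lemma rho_one : rho 1 = 1 := by
  symm
  apply eq_rho le_rfl
  unfold g
  rw [S_at_one, S_at_one]
  norm_num

lemma one_lt_rho {k : ℕ} (hk : 2 ≤ k) : 1 < rho k := by
  rcases eq_or_lt_of_le (one_le_rho (k := k) (by omega)) with h | h
  · have h1 := g_lt_at_one hk
    have h2 := g_rho (k := k) (by omega)
    rw [← h] at h2
    linarith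
  · exact h

lemma rho_lt_succ {k : ℕ} (hk : 1 ≤ k) : rho k < rho (k + 1) := by
  rcases eq_or_lt_of_le hk with h | h
  · rw [← h, rho_one]
    exact one_lt_rho le_rfl
  · have h1 := one_lt_rho h
    have h2 := uni_step h1 hk (g_rho hk).ge
    by_contra hle
    push Not at hle
    rcases eq_or_lt_of_le hle with h3 | h3
    · have := g_rho (k := k + 1) (by omega)
      rw [h3] at this
      linarith
    · have := g_lt_of_gt_rho (k := k + 1) (by omega) h3
      linarith

lemma rho_mono {i j : ℕ} (hi : 1 ≤ i) (hij : i < j) : rho i < rho j := by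
  induction j, hij using Nat.le_induction with
  | base => exact rho_lt_succ hi
  | succ m hm ih => exact ih.trans (rho_lt_succ (by omega))

lemma rho_mono' {i j : ℕ} (hi : 1 ≤ i) (hij : i ≤ j) : rho i ≤ rho j := by
  rcases eq_or_lt_of_le hij with h | h
  · rw [h]
  · exact (rho_mono hi h).le

/-- if `r ≤ rho k` then `g` is non-increasing (in the index) after `k`;
strictly if `r < rho k`. -/
lemma g_after {k : ℕ} (hk : 1 ≤ k) {r : ℝ} (hr : r < rho k) :
    ∀ j, k < j → g j r < g k r := by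
  intro j hj
  induction j, hj using Nat.le_induction with
  | base => exact g_lt_of_lt_rho hk hr
  | succ m hm ih =>
    exact (g_lt_of_lt_rho (k := m) (by omega)
      (lt_of_lt_of_le hr (rho_mono' hk (by omega)))).trans ih

lemma g_before {k : ℕ} {r : ℝ} (hr : ∀ i, 1 ≤ i → i < k → rho i < r) :
    ∀ j, 1 ≤ j → j < k → g j r < g k r := by
  intro j hj hjk
  induction k, hjk using Nat.le_induction with
  | base => exact g_lt_of_gt_rho hj (hr j hj (by omega))
  | succ m hm ih =>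
    have h1 := ih (fun i hi him => hr i hi (by omega))
    exact h1.trans (g_lt_of_gt_rho (by omega) (hr m (by omega) (by omega)))

/-- strict maximum in the open interval `(rho (k-1), rho k)`. -/
lemma g_strict_max {k : ℕ} (hk : 2 ≤ k) {r : ℝ} (h1 : rho (k - 1) < r) (h2 : r < rho k) :
    ∀ j, 1 ≤ j → j ≠ k → g j r < g k r := by
  intro j hj hjk
  rcases lt_or_gt_of_ne hjk with h | h
  · refine g_before (fun i hi hik => ?_) j hj h
    exact lt_of_le_of_lt (rho_mono' hi (by omega)) h1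
  · exact g_after (by omega) h2 j h

/-- at `rho k` the maximum is attained exactly at `k`, `k+1`. -/
lemma g_max_at_rho {k : ℕ} (hk : 1 ≤ k) :
    ∀ j, 1 ≤ j → j ≠ k → j ≠ k + 1 → g j (rho k) < g k (rho k) := by
  intro j hj hjk hjk1
  rcases lt_or_gt_of_ne hjk with h | h
  · refine g_before (fun i hi hik => ?_) j hj h
    exact rho_mono hi hik
  · rw [g_rho hk]
    exact g_after (by omega) (rho_lt_succ hk) j (by omega)

end Pool.Agent.Helper69.MH
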