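import Pool.Agent.Helper69.MH.Basic

/-!
Unimodality of `k ↦ g(k;r)` for `r > 1`, and monotonicity of the comparison in `r`.
-/

namespace Pool.Agent.Helper69.MH

open Set

/-- slope function -/
noncomputable def D (r x : ℝ) : ℝ := (2 - x) ^ r - (2 - 3 * x) ^ r

/-- derivative (up to the factor `r`) of the slope function -/
noncomputable def Dp (r x : ℝ) : ℝ := 3 * (2 - 3 * x) ^ (r - 1) - (2 - x) ^ (r - 1)

lemma hasDerivAt_D (r : ℝ) {x : ℝ} (hx : x ≤ 1 / 2) : HasDerivAt (D r) (r * Dp r x) x := by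
  have h1 : HasDerivAt (fun y : ℝ => 2 - y) (-1) x := by
    simpa using (hasDerivAt_id x).const_sub 2
  have h2 : HasDerivAt (fun y : ℝ => 2 - 3 * y) (-3) x := by
    simpa using ((hasDerivAt_id x).const_mul 3).const_sub 2
  have p1 : 2 - x ≠ 0 := by linarith
  have p2 : 2 - 3 * x ≠ 0 := by linarith
  have d1 := h1.rpow_const (p := r) (Or.inl p1)
  have d2 := h2.rpow_const (p := r) (Or.inl p2)
  exact (d1.sub d2).congr_deriv (by unfold Dp; ring)

/-- the ratio `(2-3x)/(2-x)` is strictly decreasing. -/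
lemma q_anti {x y : ℝ} (hxy : x < y) (hy : y ≤ 1 / 2) :
    (2 - 3 * y) / (2 - y) < (2 - 3 * x) / (2 - x) := by
  rw [div_lt_div_iff₀ (by linarith) (by linarith)]
  nlinarith

lemma Dp_eq {r x : ℝ} (hx : x ≤ 1 / 2) :
    Dp r x = (2 - x) ^ (r - 1) * (3 * ((2 - 3 * x) / (2 - x)) ^ (r - 1) - 1) := by
  have h1 : 0 < 2 - x := by linarith
  have h2 : 0 < 2 - 3 * x := by linarith
  unfold Dp
  rw [Real.div_rpow h2.le h1.le]
  have : (2 - x) ^ (r - 1) ≠ 0 := (Real.rpow_pos_of_pos h1 _).ne'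
  field_simp

lemma Dp_pos_iff {r x : ℝ} (hx : x ≤ 1 / 2) :
    0 < Dp r x ↔ 1 < 3 * ((2 - 3 * x) / (2 - x)) ^ (r - 1) := by
  rw [Dp_eq hx]
  have h1 : 0 < (2 - x) ^ (r - 1) := Real.rpow_pos_of_pos (by linarith) _
  rw [mul_pos_iff_of_pos_left h1]
  constructor <;> intro h <;> linarith

lemma q_pow_anti {r x y : ℝ} (hr : 1 < r) (hxy : x < y) (hy : y ≤ 1 / 2) :
    ((2 - 3 * y) / (2 - y)) ^ (r - 1) < ((2 - 3 * x) / (2 - x)) ^ (r - 1) :=
  Real.rpow_lt_rpow (div_nonneg (by linarith) (by linarith)) (q_anti hxy hy) (by linarith)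

/-- `D` is strictly increasing up to any point where `Dp ≥ 0`. -/
lemma D_strictMono {r y : ℝ} (hr : 1 < r) (hy : y ≤ 1 / 2)
    (h : 1 ≤ 3 * ((2 - 3 * y) / (2 - y)) ^ (r - 1)) : StrictMonoOn (D r) (Iic y) := by
  apply strictMonoOn_of_deriv_pos (convex_Iic y)
  · intro z hz
    exact (hasDerivAt_D r ((mem_Iic.mp hz).trans hy)).continuousAt.continuousWithinAt
  · intro z hz
    rw [interior_Iic] at hz
    have hz' : z < y := hz
    have hz2 : z ≤ 1 / 2 := by linarith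
    rw [(hasDerivAt_D r hz2).deriv]
    apply mul_pos (by linarith)
    rw [Dp_pos_iff hz2]
    have := q_pow_anti hr hz' hy
    linarith

/-- `D` is strictly decreasing after any point where `Dp ≤ 0`. -/
lemma D_strictAnti {r x : ℝ} (hr : 1 < r)
    (h : 3 * ((2 - 3 * x) / (2 - x)) ^ (r - 1) ≤ 1) : StrictAntiOn (D r) (Icc x (1 / 2)) := by
  apply strictAntiOn_of_deriv_neg (convex_Icc _ _)
  · intro z hz
    exact (hasDerivAt_D r hz.2).continuousAt.continuousWithinAt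
  · intro z hz
    rw [interior_Icc] at hz
    have hz2 : z ≤ 1 / 2 := hz.2.le
    rw [(hasDerivAt_D r hz2).deriv]
    apply mul_neg_of_pos_of_neg (by linarith)
    rw [Dp_eq hz2]
    have := q_pow_anti hr hz.1 hz2
    have h1 : 0 < (2 - z) ^ (r - 1) := Real.rpow_pos_of_pos (by linarith) _
    apply mul_neg_of_pos_of_neg h1
    linarith

/-- strict quasi-concavity -/
lemma D_quasi {r x1 x2 x3 : ℝ} (hr : 1 < r) (h12 : x1 < x2) (h23 : x2 < x3) (h3 : x3 ≤ 1 / 2)
    (h : D r x2 ≤ D r x3) : D r x1 < D r x2 := by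
  rcases le_total 1 (3 * ((2 - 3 * x2) / (2 - x2)) ^ (r - 1)) with h' | h'
  · exact D_strictMono hr (by linarith) h' (mem_Iic.mpr h12.le) (mem_Iic.mpr le_rfl) h12
  · have := D_strictAnti hr h' ⟨le_refl x2, by linarith⟩ ⟨h23.le, h3⟩ h23
    linarith

/-- discrete slopes -/
noncomputable def sig (k : ℕ) (r : ℝ) : ℝ :=
  ((2 * (k : ℝ) + 1) ^ r - (2 * (k : ℝ) - 1) ^ r) / ((k : ℝ) + 1) ^ r

lemma sig_eq {k : ℕ} (hk : 1 ≤ k) (r : ℝ) : sig k r = D r (1 / ((k : ℝ) + 1)) := by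
  have hk' : (1 : ℝ) ≤ k := by exact_mod_cast hk
  have h0 : 0 < (k : ℝ) + 1 := by linarith
  unfold sig D
  rw [sub_div, ← Real.div_rpow (by linarith) h0.le, ← Real.div_rpow (by linarith) h0.le]
  congr 2
  · field_simp; ring
  · field_simp; ring

lemma a_succ (k : ℕ) (r : ℝ) :
    (2 * ((k + 1 : ℕ) : ℝ) - 1) ^ r =
      (2 * (k : ℝ) - 1) ^ r + sig k r * ((k : ℝ) + 1) ^ r := by
  have h0 : 0 < ((k : ℝ) + 1) ^ r :=
    Real.rpow_pos_of_pos (by linarith [Nat.cast_nonneg (α := ℝ) k]) _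
  unfold sig
  rw [div_mul_cancel₀ _ h0.ne']
  have : (2 * ((k + 1 : ℕ) : ℝ) - 1) = 2 * (k : ℝ) + 1 := by push_cast; ring
  rw [this]; ring

lemma g_sub {k : ℕ} (hk : 1 ≤ k) (r : ℝ) :
    g (k + 1) r - g k r =
      ((k : ℝ) + 1) ^ r / (S k r * S (k + 1) r) * (sig k r * S k r - (2 * (k : ℝ) - 1) ^ r) := by
  have h1 := S_pos hk r
  have h2 := S_pos (k := k + 1) (by omega) r
  unfold g
  rw [a_succ]
  have h3 := S_succ k r
  rw [div_sub_div _ _ h2.ne' h1.ne']
  rw [div_mul_eq_mul_div, mul_comm (S k r) (S (k + 1) r)]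
  congr 1
  rw [h3]; ring

lemma g_le_iff {k : ℕ} (hk : 1 ≤ k) (r : ℝ) :
    g (k + 1) r ≤ g k r ↔ sig k r * S k r ≤ (2 * (k : ℝ) - 1) ^ r := by
  have h1 := S_pos hk r
  have h2 := S_pos (k := k + 1) (by omega) r
  have h0 : 0 < ((k : ℝ) + 1) ^ r :=
    Real.rpow_pos_of_pos (by linarith [Nat.cast_nonneg (α := ℝ) k]) _
  have hc : 0 < ((k : ℝ) + 1) ^ r / (S k r * S (k + 1) r) := by positivity
  rw [← sub_nonpos, g_sub hk, ← sub_nonpos (b := (2 * (k : ℝ) - 1) ^ r)]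
  constructor
  · intro h
    by_contra hneg
    push Not at hneg
    have := mul_pos hc hneg
    linarith
  · intro h
    exact mul_nonpos_of_nonneg_of_nonpos hc.le h

lemma g_lt_iff {k : ℕ} (hk : 1 ≤ k) (r : ℝ) :
    g (k + 1) r < g k r ↔ sig k r * S k r < (2 * (k : ℝ) - 1) ^ r := by
  have h1 := S_pos hk r
  have h2 := S_pos (k := k + 1) (by omega) r
  have h0 : 0 < ((k : ℝ) + 1) ^ r :=
    Real.rpow_pos_of_pos (by linarith [Nat.cast_nonneg (α := ℝ) k]) _
  have hc : 0 < ((k : ℝ) + 1) ^ r / (S k r * S (k + 1) r) := by positivity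
  rw [← sub_neg, g_sub hk, ← sub_neg (b := (2 * (k : ℝ) - 1) ^ r)]
  constructor
  · intro h
    by_contra hneg
    push Not at hneg
    have := mul_nonneg hc.le hneg
    linarith
  · intro h
    exact mul_neg_of_pos_of_neg hc h

/-- averaging: if all slopes (and `1`) are `< c`, then `(2k-1)^r < c S k`. -/
lemma avg_lt {r c : ℝ} (hc : 1 < c) {k : ℕ} (hk : 1 ≤ k)
    (h : ∀ i, 1 ≤ i → i < k → sig i r < c) : (2 * (k : ℝ) - 1) ^ r < c * S k r := by
  induction k, hk using Nat.le_induction with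
  | base => rw [S_one]; norm_num; exact hc
  | succ m hm ih =>
    have h1 := ih (fun i hi him => h i hi (by omega))
    have h2 := h m hm (by omega)
    have h0 : 0 < ((m : ℝ) + 1) ^ r :=
      Real.rpow_pos_of_pos (by linarith [Nat.cast_nonneg (α := ℝ) m]) _
    rw [a_succ, S_succ]
    nlinarith

lemma one_add_two_lt {r : ℝ} (hr : 1 < r) : 1 + (2 : ℝ) ^ r < 3 ^ r := by
  have h1 : (1 / 3 : ℝ) ^ r < (1 / 3 : ℝ) ^ (1 : ℝ) :=
    Real.rpow_lt_rpow_of_exponent_gt (by norm_num) (by norm_num) hr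
  have h2 : (2 / 3 : ℝ) ^ r < (2 / 3 : ℝ) ^ (1 : ℝ) :=
    Real.rpow_lt_rpow_of_exponent_gt (by norm_num) (by norm_num) hr
  rw [Real.rpow_one] at h1 h2
  have h3 : (0 : ℝ) < 3 ^ r := Real.rpow_pos_of_pos (by norm_num) r
  rw [Real.div_rpow (by norm_num) (by norm_num), Real.one_rpow, div_lt_iff₀ h3] at h1
  rw [Real.div_rpow (by norm_num) (by norm_num), div_lt_iff₀ h3] at h2
  linarith

lemma sig_one {r : ℝ} : sig 1 r = (3 ^ r - 1) / 2 ^ r := by
  unfold sig; norm_num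

lemma one_lt_sig_one {r : ℝ} (hr : 1 < r) : 1 < sig 1 r := by
  rw [sig_one, lt_div_iff₀ (Real.rpow_pos_of_pos (by norm_num) r)]
  linarith [one_add_two_lt hr]

/-- unimodality step -/
lemma uni_step {r : ℝ} (hr : 1 < r) {k : ℕ} (hk : 1 ≤ k) (h : g (k + 1) r ≤ g k r) :
    g (k + 2) r < g (k + 1) r := by
  have hle := (g_le_iff hk r).mp h
  have hS := S_pos hk r
  have hS1 := S_pos (k := k + 1) (by omega) r
  -- there is `1 ≤ i < k` with `sig k ≤ sig i`
  have hex : ∃ i, 1 ≤ i ∧ i < k ∧ sig k r ≤ sig i r := by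
    by_contra hne
    push Not at hne
    by_cases hc : 1 < sig k r
    · have := avg_lt hc hk hne
      linarith
    · push Not at hc
      have h1 := one_lt_sig_one hr
      rcases eq_or_lt_of_le hk with h' | h'
      · rw [← h'] at hc; linarith
      · have := hne 1 le_rfl h'
        linarith
  obtain ⟨i, hi1, hik, hi⟩ := hex
  have hlt : sig (k + 1) r < sig k r := by
    rw [sig_eq hk, sig_eq (by omega : 1 ≤ k + 1)]
    have hkR : (1 : ℝ) ≤ k := by exact_mod_cast hk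
    have hiR : (1 : ℝ) ≤ i := by exact_mod_cast hi1
    have hikR : (i : ℝ) < k := by exact_mod_cast hik
    rw [sig_eq hk, sig_eq hi1] at hi
    apply D_quasi hr (x3 := 1 / ((i : ℝ) + 1)) _ _ _ hi
    · push_cast
      apply one_div_lt_one_div_of_lt <;> linarith
    · apply one_div_lt_one_div_of_lt <;> linarith
    · apply one_div_le_one_div_of_le <;> linarith
  rw [show k + 2 = (k + 1) + 1 from rfl, g_lt_iff (by omega : 1 ≤ k + 1)]
  have ha := a_succ k r
  rw [ha]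
  have h3 : sig (k + 1) r * S (k + 1) r < sig k r * S (k + 1) r :=
    mul_lt_mul_of_pos_right hlt hS1
  rw [S_succ] at h3 ⊢
  nlinarith

end Pool.Agent.Helper69.MH
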