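import Pool.Agent.Helper69.MH.Lower

/-!
Upper bounds for the quantities `n (2k+1-2n)^r / S(k;r)`.
-/

namespace Pool.Agent.Helper69.MH

open Set

/-- polynomial inequality used for `2 ≤ r ≤ 9/4` -/
lemma poly_a {x : ℝ} (h1 : 1 ≤ x) (h9 : x ≤ 9) :
    6 * x ≤ 5041 / 5000 * (x ^ 3 + 3 * x + 2) * (1 - 9 / 1144 * x ^ 2) := by
  have hq : 0 ≤ 2790981092699509357/1430000000000000000 + 549021674953117/572000000000000 * x
      - 461085147/28600000000 * x ^ 2 - 45369/5720000 * x ^ 3 := by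
    have a1 : x ^ 2 ≤ 9 * x := by nlinarith
    have a2 : x ^ 3 ≤ 81 * x := by nlinarith [mul_nonneg (by linarith : (0:ℝ) ≤ x) (by nlinarith : 0 ≤ 9 * x - x ^ 2)]
    nlinarith
  have e : 5041 / 5000 * (x ^ 3 + 3 * x + 2) * (1 - 9 / 1144 * x ^ 2) - 6 * x =
      (x - 10163/10000) ^ 2 * (2790981092699509357/1430000000000000000
        + 549021674953117/572000000000000 * x
        - 461085147/28600000000 * x ^ 2 - 45369/5720000 * x ^ 3)
      + (74338791196730532073867/143000000000000000000000000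
        + 3696329660043595191/11440000000000000000000 * x) := by ring
  have := mul_nonneg (sq_nonneg (x - 10163/10000)) hq
  nlinarith

/-- polynomial inequality used for `r ≥ 9/4` -/
lemma poly_b {x : ℝ} (h1 : 1 ≤ x) (h9 : x ≤ 9) :
    6 * x ≤ 81 / 80 * (x ^ 3 + 3 * x + 2) * (1 - 1 / 88 * x ^ 2) := by
  have hq : 0 ≤ 13272058251/6875000000 + 103596813/110000000 * x
      - 162/6875 * x ^ 2 - 81/7040 * x ^ 3 := by
    have a1 : 0 ≤ (9 - x) * (x - 1) := mul_nonneg (by linarith) (by linarith)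
    have a2 : 0 ≤ (9 - x) * (x - 1) * x := mul_nonneg a1 (by linarith)
    nlinarith
  have e : 81 / 80 * (x ^ 3 + 3 * x + 2) * (1 - 1 / 88 * x ^ 2) - 6 * x =
      (x - 1024/1000) ^ 2 * (13272058251/6875000000 + 103596813/110000000 * x
      - 162/6875 * x ^ 2 - 81/7040 * x ^ 3)
      + (9986811327/13427734375000 + 154169133/42968750000 * x) := by ring
  have := mul_nonneg (sq_nonneg (x - 1024/1000)) hq
  nlinarith

/-- cubic lower bound for `exp (x-1)`, `x ≥ 1`. -/
lemma cubic_le_exp {x : ℝ} (h1 : 1 ≤ x) : (x ^ 3 + 3 * x + 2) / 6 ≤ Real.exp (x - 1) := by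
  have h := Real.sum_le_exp_of_nonneg (x := x - 1) (by linarith) 4
  simp [Finset.sum_range_succ, Nat.factorial] at h
  have e : (x ^ 3 + 3 * x + 2) / 6 = x + (x - 1) ^ 2 / 2 + (x - 1) ^ 3 / 6 := by ring
  linarith

/-- `x e^{1-x} ≤ 1` -/
lemma x_exp_le_one (x : ℝ) : x * Real.exp (1 - x) ≤ 1 := by
  have h := Real.add_one_le_exp (x - 1)
  have h2 : Real.exp (1 - x) * Real.exp (x - 1) = 1 := by
    rw [← Real.exp_add]; simp
  have h3 : 0 < Real.exp (1 - x) := Real.exp_pos _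
  nlinarith

lemma x_exp_bound {x C c : ℝ} (hx0 : 0 < x) (hC : 1 ≤ C) (hc : 0 ≤ c)
    (h1 : 1 ≤ C * (1 - c))
    (hpoly : 1 ≤ x → 6 * x ≤ C * (x ^ 3 + 3 * x + 2) * (1 - c * x ^ 2)) :
    x * Real.exp (1 - x) ≤ C * (1 - c * x ^ 2) := by
  rcases le_total x 1 with h | h
  · have h2 := x_exp_le_one x
    have h3 : x ^ 2 ≤ 1 := by nlinarith
    have h4 : C * (1 - c) ≤ C * (1 - c * x ^ 2) := by
      apply mul_le_mul_of_nonneg_left _ (by linarith)
      nlinarith
    linarith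
  · have h2 := cubic_le_exp h
    have h3 := hpoly h
    have h4 : Real.exp (1 - x) * Real.exp (x - 1) = 1 := by
      rw [← Real.exp_add]; simp
    have h5 : 0 < Real.exp (1 - x) := Real.exp_pos _
    have h6 : 0 < x ^ 3 + 3 * x + 2 := by positivity
    have h7 : 0 < 1 - c * x ^ 2 := by
      by_contra hneg
      push Not at hneg
      have : C * (x ^ 3 + 3 * x + 2) * (1 - c * x ^ 2) ≤ 0 :=
        mul_nonpos_of_nonneg_of_nonpos (by positivity) hneg
      linarith
    have h8 : Real.exp (1 - x) * ((x ^ 3 + 3 * x + 2) / 6) ≤ 1 := by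
      calc Real.exp (1 - x) * ((x ^ 3 + 3 * x + 2) / 6)
          ≤ Real.exp (1 - x) * Real.exp (x - 1) := mul_le_mul_of_nonneg_left h2 h5.le
        _ = 1 := h4
    -- x e^{1-x} ≤ x * 6/(x^3+3x+2) ≤ C (1 - c x^2)
    have h9 : x * Real.exp (1 - x) * (x ^ 3 + 3 * x + 2) ≤ 6 * x := by
      nlinarith
    have h10 : x * Real.exp (1 - x) * (x ^ 3 + 3 * x + 2) ≤
        C * (1 - c * x ^ 2) * (x ^ 3 + 3 * x + 2) := by
      calc _ ≤ 6 * x := h9
        _ ≤ _ := h3
        _ = _ := by ring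
    exact le_of_mul_le_mul_right h10 h6

lemma base_eq {r : ℝ} (hr : 0 < r) : base r = 2 ^ r * (r / (r + 1)) ^ r := by
  unfold base
  rw [← Real.mul_rpow (by norm_num) (by positivity)]
  congr 1; ring

/-- main AM-GM type estimate -/
lemma amgm {r K n : ℝ} (hr : 0 < r) (hn : 0 < n) (hnK : n ≤ K) :
    n * (2 * K - 2 * n) ^ r ≤
      base r * (K ^ (r + 1) / (r + 1)) *
        ((n * (r + 1) / K) * Real.exp (1 - n * (r + 1) / K)) := by
  have hK : 0 < K := lt_of_lt_of_le hn hnK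
  set x := n * (r + 1) / K with hx
  have hr1 : 0 < r + 1 := by linarith
  have hx0 : 0 < x := by positivity
  have e1 : (2 * K - 2 * n) = (2 * (r / (r + 1))) * K * (1 + (1 - x) / r) := by
    rw [hx]; field_simp; ring
  have h1 : 0 ≤ 1 + (1 - x) / r := by
    have : (2 * K - 2 * n) ≥ 0 := by linarith
    rw [e1] at this
    have h2 : 0 < (2 * (r / (r + 1))) * K := by positivity
    by_contra hneg
    push Not at hneg
    nlinarith
  have h2 : (1 + (1 - x) / r) ^ r ≤ Real.exp (1 - x) := by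
    have h3 : 1 + (1 - x) / r ≤ Real.exp ((1 - x) / r) := by
      have := Real.add_one_le_exp ((1 - x) / r)
      linarith
    calc (1 + (1 - x) / r) ^ r ≤ (Real.exp ((1 - x) / r)) ^ r :=
          Real.rpow_le_rpow h1 h3 hr.le
      _ = Real.exp (1 - x) := by
          rw [← Real.exp_mul]; congr 1; field_simp
  have h3 : (2 * K - 2 * n) ^ r = base r * K ^ r * (1 + (1 - x) / r) ^ r := by
    rw [e1, Real.mul_rpow (by positivity) h1, Real.mul_rpow (by positivity) hK.le]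
    unfold base
    congr 3
    ring
  have h4 : n = K * x / (r + 1) := by rw [hx]; field_simp
  have h5 : K ^ (r + 1) = K ^ r * K := by rw [Real.rpow_add hK, Real.rpow_one]
  rw [h3, h5]
  have hb := base_pos hr
  have hKr : 0 < K ^ r := Real.rpow_pos_of_pos hK _
  calc n * (base r * K ^ r * (1 + (1 - x) / r) ^ r)
      ≤ n * (base r * K ^ r * Real.exp (1 - x)) := by gcongr
    _ = base r * (K ^ r * K / (r + 1)) * (x * Real.exp (1 - x)) := by
        nth_rewrite 1 [h4]; ring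

/-- `(r/(r+1))^r ≥ e^{-1}` -/
lemma ratio_rpow_ge {r : ℝ} (hr : 0 < r) : Real.exp (-1) ≤ (r / (r + 1)) ^ r := by
  have h1 : Real.exp (-(1 / r)) ≤ r / (r + 1) := by
    have h := Real.add_one_le_exp (1 / r)
    have h2 : 1 / r + 1 = (r + 1) / r := by field_simp; ring
    rw [h2] at h
    rw [Real.exp_neg]
    have h3 : r / (r + 1) = ((r + 1) / r)⁻¹ := by rw [inv_div]
    rw [h3]
    exact inv_anti₀ (by positivity) h
  calc Real.exp (-1) = (Real.exp (-(1 / r))) ^ r := by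
        rw [← Real.exp_mul]; congr 1; field_simp
    _ ≤ (r / (r + 1)) ^ r := Real.rpow_le_rpow (Real.exp_pos _).le h1 hr.le

/-- The bound for `n ≥ 2`, `r ≥ 2`. -/
lemma phi_le_base {r C c : ℝ} (hr : 2 ≤ r) {k n : ℕ} (hn : 2 ≤ n) (hnk : n ≤ k)
    (hC : 1 ≤ C) (hc : 0 ≤ c) (h1 : 1 ≤ C * (1 - c)) (hcr : r / (r + 1) / 88 ≤ c)
    (hpoly : ∀ x : ℝ, 1 ≤ x → x ≤ 9 → 6 * x ≤ C * (x ^ 3 + 3 * x + 2) * (1 - c * x ^ 2)) :
    (n : ℝ) * (2 * (k : ℝ) + 1 - 2 * n) ^ r ≤ C * base r * S k r := by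
  have hr0 : 0 < r := by linarith
  have hr1 : 0 < r + 1 := by linarith
  have hnR : (2 : ℝ) ≤ n := by exact_mod_cast hn
  have hkR : (n : ℝ) ≤ k := by exact_mod_cast hnk
  have hk0 : (0 : ℝ) < k := by linarith
  set K : ℝ := (k : ℝ) + 1 / 2 with hK
  have hK0 : 0 < K := by linarith
  set x : ℝ := (n : ℝ) * (r + 1) / K with hx
  have hx0 : 0 < x := by positivity
  have hb := base_pos hr0
  rcases le_total x 9 with h9 | h9
  · have e1 : (2 * (k : ℝ) + 1 - 2 * n) = 2 * K - 2 * n := by rw [hK]; ring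
    rw [e1]
    have hA := amgm hr0 (by linarith : (0:ℝ) < n) (by linarith : (n:ℝ) ≤ K)
    rw [← hx] at hA
    have hB := x_exp_bound hx0 hC hc h1 (fun h => hpoly x h h9)
    have hS := S_lower_K hr k
    rw [← hK] at hS
    -- rewrite the lower bound
    have hKr : 0 < K ^ (r + 1) := Real.rpow_pos_of_pos hK0 _
    have e2 : K ^ (r + 1) = K ^ (r - 1) * K ^ 2 := by
      rw [← Real.rpow_natCast K 2, ← Real.rpow_add hK0]; congr 1; push_cast; ring
    have e3 : K ^ (r + 1) / (r + 1) - r / 22 * K ^ (r - 1) =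
        K ^ (r + 1) / (r + 1) * (1 - r * (r + 1) / (22 * K ^ 2)) := by
      rw [e2]; field_simp
    rw [e3] at hS
    have h5 : r * (r + 1) / (22 * K ^ 2) ≤ c * x ^ 2 := by
      have e4 : r * (r + 1) / (22 * K ^ 2) = (r / (r + 1) / (22 * (n : ℝ) ^ 2)) * x ^ 2 := by
        rw [hx]; field_simp
      rw [e4]
      apply mul_le_mul_of_nonneg_right _ (sq_nonneg x)
      calc r / (r + 1) / (22 * (n : ℝ) ^ 2) ≤ r / (r + 1) / 88 := by
            apply div_le_div_of_nonneg_left (by positivity) (by norm_num)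
            nlinarith
        _ ≤ c := hcr
    have h6 : K ^ (r + 1) / (r + 1) * (1 - c * x ^ 2) ≤ S k r := by
      refine le_trans ?_ hS
      apply mul_le_mul_of_nonneg_left _ (by positivity)
      linarith
    calc (n : ℝ) * (2 * K - 2 * n) ^ r
        ≤ base r * (K ^ (r + 1) / (r + 1)) * (x * Real.exp (1 - x)) := hA
      _ ≤ base r * (K ^ (r + 1) / (r + 1)) * (C * (1 - c * x ^ 2)) := by gcongr
      _ = C * base r * (K ^ (r + 1) / (r + 1) * (1 - c * x ^ 2)) := by ring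
      _ ≤ C * base r * S k r := by
          apply mul_le_mul_of_nonneg_left h6 (by positivity)
  · -- large x
    set y : ℝ := (n : ℝ) * (r + 1) / k with hy
    have hxy : x ≤ y := by
      rw [hx, hy]
      apply div_le_div_of_nonneg_left (by positivity) hk0 (by linarith)
    have hy9 : 9 ≤ y := h9.trans hxy
    have hS := S_lower_int hr0.le k
    have hq0 : 0 ≤ 1 - ((n : ℝ) - 1 / 2) / k := by
      have : ((n : ℝ) - 1 / 2) / k ≤ 1 := by rw [div_le_one hk0]; linarith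
      linarith
    have e1 : (2 * (k : ℝ) + 1 - 2 * n) = 2 * ((k : ℝ) * (1 - ((n : ℝ) - 1 / 2) / k)) := by
      field_simp; ring
    have h2 : (1 - ((n : ℝ) - 1 / 2) / k) ^ r ≤ Real.exp (-(y / 2)) := by
      have h3 : 1 - ((n : ℝ) - 1 / 2) / k ≤ Real.exp (-(((n : ℝ) - 1 / 2) / k)) := by
        have := Real.add_one_le_exp (-(((n : ℝ) - 1 / 2) / k))
        linarith
      calc (1 - ((n : ℝ) - 1 / 2) / k) ^ r ≤ (Real.exp (-(((n : ℝ) - 1 / 2) / k))) ^ r :=
            Real.rpow_le_rpow hq0 h3 hr0.le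
        _ = Real.exp (-(((n : ℝ) - 1 / 2) / k) * r) := by rw [← Real.exp_mul]
        _ ≤ Real.exp (-(y / 2)) := by
            apply Real.exp_le_exp.mpr
            rw [hy, neg_mul, neg_le_neg_iff, div_mul_eq_mul_div, div_div,
              div_le_div_iff₀ (by positivity) (by positivity)]
            have : (n : ℝ) * (r + 1) ≤ 2 * (((n : ℝ) - 1 / 2) * r) := by nlinarith
            nlinarith
    have h4 : y * Real.exp (-(y / 2)) ≤ Real.exp (-1) := by
      have h5 := Real.quadratic_le_exp_of_nonneg (x := y / 2 - 1) (by linarith)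
      have h6 : y ≤ Real.exp (y / 2 - 1) := by nlinarith
      have h7 : Real.exp (-1) = Real.exp (y / 2 - 1) * Real.exp (-(y / 2)) := by
        rw [← Real.exp_add]; congr 1; ring
      rw [h7]
      exact mul_le_mul_of_nonneg_right h6 (Real.exp_pos _).le
    have h8 := ratio_rpow_ge hr0
    rw [e1, Real.mul_rpow (by norm_num) (by positivity), Real.mul_rpow hk0.le hq0]
    have hkr : (k : ℝ) ^ (r + 1) = (k : ℝ) ^ r * k := by
      rw [Real.rpow_add hk0, Real.rpow_one]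
    have hkr0 : 0 < (k : ℝ) ^ r := Real.rpow_pos_of_pos hk0 _
    have h2r : 0 < (2 : ℝ) ^ r := Real.rpow_pos_of_pos (by norm_num) _
    have hn0 : (0 : ℝ) < n := by linarith
    have e5 : (n : ℝ) = y * k / (r + 1) := by rw [hy]; field_simp
    calc (n : ℝ) * (2 ^ r * ((k : ℝ) ^ r * (1 - ((n : ℝ) - 1 / 2) / k) ^ r))
        ≤ (n : ℝ) * (2 ^ r * ((k : ℝ) ^ r * Real.exp (-(y / 2)))) := by gcongr
      _ = 2 ^ r * ((k : ℝ) ^ r * k / (r + 1)) * (y * Real.exp (-(y / 2))) := by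
          nth_rewrite 1 [e5]; ring
      _ ≤ 2 ^ r * ((k : ℝ) ^ r * k / (r + 1)) * (r / (r + 1)) ^ r := by
          gcongr
          exact h4.trans h8
      _ = base r * ((k : ℝ) ^ (r + 1) / (r + 1)) := by rw [base_eq hr0, hkr]; ring
      _ ≤ base r * S k r := by gcongr
      _ ≤ C * base r * S k r := by
          have : 0 ≤ base r * S k r := mul_nonneg hb.le (S_nonneg k r)
          nlinarith

/-- the bound for `1 ≤ r ≤ 2` and all `n` -/
lemma phi_le_base_12 {r : ℝ} (h1 : 1 ≤ r) (h2 : r ≤ 2) {k n : ℕ} (hn : 1 ≤ n) (hnk : n ≤ k)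
    (hk : 5 ≤ k) :
    (n : ℝ) * (2 * (k : ℝ) + 1 - 2 * n) ^ r ≤ 121 / 120 * base r * S k r := by
  have hr0 : 0 < r := by linarith
  have hr1 : 0 < r + 1 := by linarith
  have hnR : (1 : ℝ) ≤ n := by exact_mod_cast hn
  have hkR : (n : ℝ) ≤ k := by exact_mod_cast hnk
  have hk5 : (5 : ℝ) ≤ k := by exact_mod_cast hk
  set K : ℝ := (k : ℝ) + 1 / 2 with hK
  have hK0 : 0 < K := by linarith
  set x : ℝ := (n : ℝ) * (r + 1) / K with hx
  have e1 : (2 * (k : ℝ) + 1 - 2 * n) = 2 * K - 2 * n := by rw [hK]; ring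
  rw [e1]
  have hA := amgm hr0 (by linarith : (0:ℝ) < n) (by linarith : (n:ℝ) ≤ K)
  rw [← hx] at hA
  have hB := x_exp_le_one x
  have hS := S_lower_12 h1 h2 k
  rw [← hK] at hS
  have hb := base_pos hr0
  have hKr : 0 < K ^ (r - 1) := Real.rpow_pos_of_pos hK0 _
  have e2 : K ^ (r + 1) = K ^ (r - 1) * K ^ 2 := by
    rw [← Real.rpow_natCast K 2, ← Real.rpow_add hK0]; congr 1; push_cast; ring
  have h3 : K ^ 2 ≤ 121 / 120 * (k * (k + 1)) := by
    rw [hK]; nlinarith
  calc (n : ℝ) * (2 * K - 2 * n) ^ r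
      ≤ base r * (K ^ (r + 1) / (r + 1)) * (x * Real.exp (1 - x)) := hA
    _ ≤ base r * (K ^ (r + 1) / (r + 1)) * 1 := by gcongr
    _ = base r * (K ^ (r - 1) * K ^ 2 / (r + 1)) := by rw [e2]; ring
    _ ≤ base r * (K ^ (r - 1) * (121 / 120 * (k * (k + 1))) / (r + 1)) := by gcongr
    _ = 121 / 120 * base r * (k * (k + 1) * K ^ (r - 1) / (r + 1)) := by ring
    _ ≤ 121 / 120 * base r * S k r := by gcongr

end Pool.Agent.Helper69.MH
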